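import Pool.Agent.K1H31.AW.CaseA

/-!
# AW*-algebras: joins of projections, additivity of subequivalence inside a properly infinite
projection
-/

set_option autoImplicit false

namespace Pool.Agent.K1H31.AW

open Pool.Agent.R456.CL

universe u

variable {A : Type u} [CStarAlgebra A]

/-- the join of two projections -/
theorem join_add (hA : Good A) {a b : A} (ha : PJ a) (hb : PJ b) : ∃ l : A, PJ l ∧ a * l = 0 ∧
    Sub l b ∧ b * (a + l) = b ∧ ∀ x : A, x * a = 0 → x * b = 0 → x * l = 0 := by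
  obtain ⟨w, r, l, hR, hL, hw1, hw2⟩ := par hA.sa hA.supO hA.cut hA.sup hb ha.one_sub
  obtain ⟨hr, hr1, hr2⟩ := hR
  obtain ⟨hl, hl1, hl2⟩ := hL
  have haa := PJ.mul_self ha
  have hbb := PJ.mul_self hb
  have hal : a * l = 0 := hl2 a (by rw [← mul_assoc, mul_sub, mul_one, haa, sub_self, zero_mul])
  have hla : l * a = 0 := orth_comm ha hl hal
  have hrb : r * b = r := by
    have := hr2 (1 - b) (by rw [mul_assoc, mul_sub, mul_one, hbb, sub_self, mul_zero])
    rw [mul_sub, mul_one, sub_eq_zero] at this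
    exact this.symm
  have hlb : l * b = (1 - a) * b := by
    rw [← hl1, ← mul_assoc, mul_sub, mul_one, hla, sub_zero]
  have h1 : (a + l) * b = b := by
    rw [add_mul, hlb, sub_mul, one_mul]; abel
  refine ⟨l, hl, hal, ⟨star w, by rw [star_star, hw2], by rw [star_star, hw1, hrb]⟩, ?_, ?_⟩
  · have := congrArg star h1
    rwa [star_mul, star_add, PJ.star ha, PJ.star hl, PJ.star hb] at this
  · intro x hxa hxb
    refine hl2 x ?_
    rw [← mul_assoc, mul_sub, mul_one, hxa, sub_zero, hxb]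

lemma transp_pj {v Z e : A} (hv : star v * v = Z) (he : PJ e) (heZ : Le e Z) :
    PJ (v * e * star v) ∧ Eqv e (v * e * star v) := by
  have h1 : star (v * e) * (v * e) = e := by
    rw [star_mul, PJ.star he]
    calc e * star v * (v * e) = (e * (star v * v)) * e := by simp only [mul_assoc]
      _ = e := by rw [hv, heZ, PJ.mul_self he]
  have h2 : (v * e) * star (v * e) = v * e * star v := by
    rw [star_mul, PJ.star he]
    calc v * e * (e * star v) = v * (e * e) * star v := by simp only [mul_assoc]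
      _ = v * e * star v := by rw [PJ.mul_self he]
  exact ⟨h2 ▸ pi_final he h1, ⟨v * e, h1, h2⟩⟩

lemma transp_sup {v Z : A} (hv : star v * v = Z) {ι : Type*} {e : ι → A} {E : A}
    (he : ∀ i, Le (e i) Z) (hEZ : Le E Z) (hE : IsSup e E) :
    IsSup (fun i => v * e i * star v) (v * E * star v) := by
  refine ⟨(transp_pj hv hE.1 hEZ).1, fun i => ?_, fun x hx => ?_⟩
  · calc v * e i * star v * (v * E * star v) = v * (e i * (star v * v)) * E * star v := by
          simp only [mul_assoc]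
      _ = v * (e i * E) * star v := by rw [hv, he i]; simp only [mul_assoc]
      _ = v * e i * star v := by rw [hE.2.1 i]
  · have h1 : (x * v) * E = 0 := by
      refine hE.2.2 _ (fun i => ?_)
      calc x * v * e i = x * v * (e i * Z) := by rw [he i]
        _ = (x * (v * e i * star v)) * v := by rw [← hv]; simp only [mul_assoc]
        _ = 0 := by rw [hx i, zero_mul]
    rw [← mul_assoc, ← mul_assoc, h1, zero_mul]

lemma transp_orth {v Z e f : A} (hv : star v * v = Z) (heZ : Le e Z) (hef : e * f = 0) :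
    (v * e * star v) * (v * f * star v) = 0 := by
  calc v * e * star v * (v * f * star v) = v * (e * (star v * v)) * f * star v := by
        simp only [mul_assoc]
    _ = v * (e * f) * star v := by rw [hv, heZ]; simp only [mul_assoc]
    _ = 0 := by rw [hef]; simp

/-- additivity of subequivalence inside a properly infinite projection -/
theorem add_fam (hA : Good A) {Z : A} (hZ : PJ Z) (hH : Halv Z) {ι : Type u} {e f : ι → A}
    {E F : A} (he : ∀ i, PJ (e i)) (hee : ∀ i j, i ≠ j → e i * e j = 0) (hf : ∀ i, PJ (f i))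
    (hff : ∀ i j, i ≠ j → f i * f j = 0) (heZ : ∀ i, Le (e i) Z) (hE : IsSup e E) (hF : PJ F)
    (hFZ : Le F Z) (hfF : ∀ i, Le (f i) F) (h : ∀ i, Sub (e i) (f i)) : Sub E F := by
  obtain ⟨v1, v2, a1, b1, h12, e1, e2⟩ := hH
  obtain ⟨F', hF'⟩ := hA.sup ι f hf
  have hF'F : Le F' F := Inf2.sup_le hf hF' hF hfF
  have hF'Z : Le F' Z := le_trans' hF'F hFZ
  have hEZ : Le E Z := Inf2.sup_le he hE hZ heZ
  have hfZ : ∀ i, Le (f i) Z := fun i => le_trans' (hfF i) hFZ
  have hm : Sub (v1 * E * star v1) (v2 * F' * star v2) := by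
    refine Inf2.move hA.sup hA.addO (fun i => (transp_pj a1 (he i) (heZ i)).1)
      (fun i => (transp_pj b1 (hf i) (hfZ i)).1) (fun i j hij => transp_orth a1 (heZ i) (hee i j hij))
      (fun i j hij => transp_orth b1 (hfZ i) (hff i j hij)) ?_ ?_ (transp_sup a1 heZ hEZ hE)
      (transp_sup b1 hfZ hF'Z hF')
    · intro i k
      calc v1 * e i * star v1 * (v2 * f k * star v2) = v1 * e i * (star v1 * v2) * f k * star v2 := by
            simp only [mul_assoc]
        _ = 0 := by rw [h12]; simp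
    · intro k
      have p1 := transp_pj a1 (he k) (heZ k)
      have p2 := transp_pj b1 (hf k) (hfZ k)
      exact sub_trans' p1.1 (he k) p2.1 (sub_of_eqv (he k) (eqv_symm p1.2))
        (sub_trans' (he k) (hf k) p2.1 (h k) (sub_of_eqv p2.1 p2.2))
  have p1 := transp_pj a1 hE.1 hEZ
  have p2 := transp_pj b1 hF'.1 hF'Z
  exact sub_trans' hE.1 p1.1 hF (sub_of_eqv p1.1 p1.2) (sub_trans' p1.1 p2.1 hF hm
    (sub_trans' p2.1 hF'.1 hF (sub_of_eqv hF'.1 (eqv_symm p2.2)) (sub_of_le hF'.1 hF'F)))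

/-- a properly infinite projection contains infinitely many orthogonal copies of itself -/
theorem copies {k : A} (hk : PJ k) (h : Halv k) : ∃ c : ℕ → A, (∀ n, PJ (c n)) ∧
    (∀ m n, m ≠ n → c m * c n = 0) ∧ (∀ n, Le (c n) k) ∧ ∀ n, Eqv k (c n) := by
  obtain ⟨v1, v2, a1, b1, h12, e1, e2⟩ := h
  have key : ∀ n : ℕ, ∀ y : A, k * y = y → star (v2 ^ n) * (v2 ^ n * y) = y := by
    intro n
    induction n with
    | zero => intro y _; simp
    | succ n ih =>
      intro y hy
      rw [pow_succ, star_mul]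
      calc star v2 * star (v2 ^ n) * (v2 ^ n * v2 * y)
          = star v2 * (star (v2 ^ n) * (v2 ^ n * (v2 * y))) := by simp only [mul_assoc]
        _ = star v2 * (v2 * y) := by rw [ih _ (by rw [← mul_assoc, e2])]
        _ = y := by rw [← mul_assoc, b1, hy]
  have hu : ∀ n : ℕ, star (v2 ^ n * v1) * (v2 ^ n * v1) = k := by
    intro n
    rw [star_mul, mul_assoc, key n v1 e1, a1]
  have hkp : ∀ n : ℕ, k * (v2 ^ n * v1) = v2 ^ n * v1 := by
    intro n
    cases n with
    | zero => simpa using e1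
    | succ n => rw [pow_succ', mul_assoc, ← mul_assoc, e2]
  have ho : ∀ m n : ℕ, m < n → star (v2 ^ m * v1) * (v2 ^ n * v1) = 0 := by
    intro m n hmn
    obtain ⟨j, rfl⟩ := Nat.exists_eq_add_of_lt hmn
    rw [add_assoc, pow_add, star_mul, mul_assoc (v2 ^ m), mul_assoc, key m _ (hkp _), pow_succ',
      mul_assoc, ← mul_assoc, h12, zero_mul]
  have ho' : ∀ m n : ℕ, m ≠ n → star (v2 ^ m * v1) * (v2 ^ n * v1) = 0 := by
    intro m n hmn
    rcases lt_or_gt_of_ne hmn with h | h
    · exact ho m n h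
    · have := congrArg star (ho n m h)
      rwa [star_mul, star_star, star_zero] at this
  refine ⟨fun n => (v2 ^ n * v1) * star (v2 ^ n * v1), fun n => pi_final hk (hu n), ?_, ?_, ?_⟩
  · intro m n hmn
    calc (v2 ^ m * v1) * star (v2 ^ m * v1) * ((v2 ^ n * v1) * star (v2 ^ n * v1))
        = (v2 ^ m * v1) * (star (v2 ^ m * v1) * (v2 ^ n * v1)) * star (v2 ^ n * v1) := by
          simp only [mul_assoc]
      _ = 0 := by rw [ho' m n hmn]; simp
  · intro n
    show (v2 ^ n * v1) * star (v2 ^ n * v1) * k = (v2 ^ n * v1) * star (v2 ^ n * v1)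
    rw [mul_assoc, star_absorb_left hk (hkp n)]
  · intro n
    exact ⟨v2 ^ n * v1, hu n, rfl⟩

/-- a countable join of projections below `k` is below `k`, when `k` is properly infinite -/
theorem cjoin (hA : Good A) {Z k : A} (hZ : PJ Z) (hHZ : Halv Z) (hk : PJ k) (hHk : Halv k)
    (hkZ : Le k Z) (a : ℕ → A) (ha : ∀ n, PJ (a n)) (haZ : ∀ n, Le (a n) Z)
    (hs : ∀ n, Sub (a n) k) : ∃ h : A, IsSup a h ∧ Le h Z ∧ Sub h k := by
  have hj : ∀ (p : {p : A // PJ p}) (n : ℕ), ∃ l : A, PJ l ∧ p.1 * l = 0 ∧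
    Sub l (a n) ∧ a n * (p.1 + l) = a n ∧ ∀ x : A, x * p.1 = 0 → x * a n = 0 → x * l = 0 :=
    fun p n => join_add hA p.2 (ha n)
  choose L hL1 hL2 hL3 hL4 hL5 using hj
  obtain ⟨J, hJ0, hJ1⟩ : ∃ J : ℕ → {p : A // PJ p}, (J 0).1 = 0 ∧
      ∀ n, (J (n + 1)).1 = (J n).1 + L (J n) n :=
    ⟨fun n => Nat.rec ⟨0, ⟨by simp [IsIdempotentElem], by simp [IsSelfAdjoint]⟩⟩
      (fun n p => ⟨p.1 + L p n, pj_add p.2 (hL1 p n) (hL2 p n)⟩) n, rfl, fun n => rfl⟩
  obtain ⟨d, hd⟩ : ∃ d : ℕ → A, ∀ n, d n = L (J n) n := ⟨_, fun n => rfl⟩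
  have hdp : ∀ n, PJ (d n) := fun n => by rw [hd]; exact hL1 _ _
  have hJd : ∀ n, (J n).1 * d n = 0 := fun n => by rw [hd]; exact hL2 _ _
  have hdJ : ∀ n, d n * (J n).1 = 0 := fun n => orth_comm (J n).2 (hdp n) (hJd n)
  have hJs : ∀ n, (J (n + 1)).1 = (J n).1 + d n := fun n => by rw [hd]; exact hJ1 n
  have hda : ∀ n, Sub (d n) (a n) := fun n => by rw [hd]; exact hL3 _ _
  have haJ : ∀ n, a n * (J (n + 1)).1 = a n := fun n => by rw [hJ1]; exact hL4 _ _
  have hJJ : ∀ n, (J n).1 * (J (n + 1)).1 = (J n).1 := fun n => by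
    rw [hJs, mul_add, hJd, PJ.mul_self (J n).2, add_zero]
  have hdJ1 : ∀ n, d n * (J (n + 1)).1 = d n := fun n => by
    rw [hJs, mul_add, hdJ, PJ.mul_self (hdp n), zero_add]
  have hdJn : ∀ m n, m < n → d m * (J n).1 = d m := by
    intro m n hmn
    induction n with
    | zero => omega
    | succ n ih =>
      rcases Nat.lt_succ_iff_lt_or_eq.1 hmn with h | h
      · rw [← ih h, mul_assoc, hJJ]
      · rw [h]; exact hdJ1 n
  have hdd : ∀ m n, m < n → d m * d n = 0 := by
    intro m n hmn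
    rw [← hdJn m n hmn, mul_assoc, hJd, mul_zero]
  have hdd' : ∀ m n, m ≠ n → d m * d n = 0 := by
    intro m n hmn
    rcases lt_or_gt_of_ne hmn with h | h
    · exact hdd m n h
    · exact orth_comm (hdp n) (hdp m) (hdd n m h)
  obtain ⟨E, hE⟩ := hA.sup (ULift.{u} ℕ) (fun i => d i.down) (fun i => hdp _)
  have hdE : ∀ n, d n * E = d n := fun n => hE.2.1 ⟨n⟩
  have hJE : ∀ n, (J n).1 * E = (J n).1 := by
    intro n
    induction n with
    | zero => rw [hJ0, zero_mul]
    | succ n ih => rw [hJs, add_mul, ih, hdE]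
  have haE : ∀ n, a n * E = a n := by
    intro n
    rw [← haJ n, mul_assoc, hJE]
  have hann : ∀ x : A, (∀ n, x * a n = 0) → x * E = 0 := by
    intro x hx
    have h1 : ∀ n, x * (J n).1 = 0 := by
      intro n
      induction n with
      | zero => rw [hJ0, mul_zero]
      | succ n ih =>
        rw [hJs, mul_add, ih, hd, hL5 _ _ x ih (hx n), add_zero]
    refine hE.2.2 x (fun i => ?_)
    show x * d i.down = 0
    rw [hd]
    exact hL5 _ _ x (h1 _) (hx _)
  have hsup : IsSup a E := ⟨hE.1, haE, hann⟩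
  have hEZ : Le E Z := Inf2.sup_le ha hsup hZ haZ
  obtain ⟨c, hc1, hc2, hc3, hc4⟩ := copies hk hHk
  refine ⟨E, hsup, hEZ, ?_⟩
  refine add_fam hA hZ hHZ (e := fun i : ULift.{u} ℕ => d i.down)
    (f := fun i : ULift.{u} ℕ => c i.down) (fun i => hdp _)
    (fun i j hij => hdd' _ _ (fun h => hij (by cases i; cases j; simpa using h)))
    (fun i => hc1 _) (fun i j hij => hc2 _ _ (fun h => hij (by cases i; cases j; simpa using h)))
    (fun i => le_trans' (hdE _) hEZ) hE hk hkZ (fun i => hc3 _) (fun i => ?_)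
  exact sub_trans' (hdp _) (ha _) (hc1 _) (hda _) (sub_trans' (ha _) hk (hc1 _) (hs _)
    (sub_of_eqv (hc1 _) (hc4 _)))

end Pool.Agent.K1H31.AW
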