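import Pool.Agent.K1H31.AW.Local

/-!
# AW*-algebras: the centralizer of a commuting family of projections is an AW*-algebra
-/

set_option autoImplicit false

namespace Pool.Agent.K1H31.AW

open Pool.Agent.R456.CL

universe u

variable {A : Type u} [CStarAlgebra A]

/-- the centralizer of a set -/
abbrev Ct (F : Set A) : StarSubalgebra ℂ A := StarSubalgebra.centralizer ℂ F

instance ct_closed (F : Set A) : IsClosed ((Ct F : StarSubalgebra ℂ A) : Set A) := by
  rw [StarSubalgebra.coe_centralizer]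
  exact Set.isClosed_centralizer _

lemma mem_ct {F : Set A} (hF : ∀ p ∈ F, PJ p) {x : A} : x ∈ Ct F ↔ ∀ p ∈ F, p * x = x * p := by
  rw [StarSubalgebra.mem_centralizer_iff]
  constructor
  · intro h p hp
    exact (h p hp).1
  · intro h p hp
    rw [PJ.star (hF p hp)]
    exact ⟨h p hp, h p hp⟩

lemma pj_coe {F : Set A} {p : Ct F} (h : PJ p) : PJ (p : A) :=
  ⟨congrArg Subtype.val h.1, congrArg Subtype.val h.2⟩

lemma pj_of_coe {F : Set A} {p : Ct F} (h : PJ (p : A)) : PJ p :=
  ⟨Subtype.ext h.1, Subtype.ext h.2⟩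

/-- suprema of projections commuting with `T` commute with `T` -/
lemma sup_comm' {ι : Type*} {e : ι → A} {E T : A} (he : ∀ i, PJ (e i)) (hE : IsSup e E)
    (h : ∀ i, e i * T = T * e i) : E * T = T * E := by
  have gen : ∀ S : A, (∀ i, e i * S = S * e i) → S * E = E * S * E := by
    intro S hS
    have h1 : (1 - E) * S * E = 0 := by
      refine hE.2.2 _ (fun i => ?_)
      have : E * e i = e i := Le.rev (he i) hE.1 (hE.2.1 i)
      rw [mul_assoc, ← hS i, ← mul_assoc, sub_mul, one_mul, this, sub_self, zero_mul]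
    rw [sub_mul, one_mul, sub_mul, sub_eq_zero] at h1
    exact h1
  have h1 := gen T h
  have h2 := gen (star T) (fun i => by
    have := congrArg star (h i)
    rw [star_mul, star_mul, PJ.star (he i)] at this
    exact this.symm)
  have h3 := congrArg star h2
  simp only [star_mul, star_star, PJ.star hE.1] at h3
  rw [h3, ← mul_assoc]
  exact h1.symm

lemma isSup_ct {F : Set A} {ι : Type*} {e : ι → Ct F} {E : Ct F}
    (h : IsSup (fun i => (e i : A)) (E : A)) : IsSup e E :=
  ⟨pj_of_coe h.1, fun i => Subtype.ext (h.2.1 i), fun x hx => Subtype.ext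
    (h.2.2 x (fun i => congrArg Subtype.val (hx i)))⟩

theorem ct_aw (hA : IsAWStar A) (hG : Good A) {F : Set A} (hF : ∀ p ∈ F, PJ p)
    (hFc : ∀ p ∈ F, ∀ q ∈ F, p * q = q * p) : IsAWStar (Ct F) := by
  constructor
  · intro S hS hSo
    obtain ⟨E, hE⟩ := hG.sup S (fun p => ((p : Ct F) : A)) (fun p => pj_coe (hS p p.2))
    have hEm : E ∈ Ct F := by
      rw [mem_ct hF]
      intro q hq
      exact (sup_comm' (fun p : S => pj_coe (hS p p.2)) hE
        (fun p => ((mem_ct hF).1 (p : Ct F).2 q hq).symm)).symm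
    have hE' : IsSup (fun p : S => (p : Ct F)) (⟨E, hEm⟩ : Ct F) := isSup_ct hE
    refine ⟨⟨E, hEm⟩, hE'.1, fun p hp => hE'.2.1 ⟨p, hp⟩, fun f hf hle => ?_⟩
    exact Inf2.sup_le (fun p : S => hS p p.2) hE' hf (fun p => hle p p.2)
  · intro M hMc hMmax x hx
    obtain ⟨M', hM'⟩ : ∃ M' : StarSubalgebra ℂ A, M' = M.map (Ct F).subtype := ⟨_, rfl⟩
    have hmem : ∀ y : Ct F, y ∈ M → (y : A) ∈ M' := by
      intro y hy
      rw [hM', StarSubalgebra.mem_map]
      exact ⟨y, hy, rfl⟩
    have hmem' : ∀ y : A, y ∈ M' → ∃ z : Ct F, z ∈ M ∧ (z : A) = y := by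
      intro y hy
      rw [hM', StarSubalgebra.mem_map] at hy
      exact hy
    have hM'c : ∀ a ∈ M', ∀ b ∈ M', a * b = b * a := by
      intro a ha b hb
      obtain ⟨a', ha', rfl⟩ := hmem' a ha
      obtain ⟨b', hb', rfl⟩ := hmem' b hb
      exact congrArg Subtype.val (hMc a' ha' b' hb')
    -- `F ⊆ M'`
    have hFM : ∀ q ∈ F, q ∈ M' := by
      intro q hq
      have hqm : q ∈ Ct F := by
        rw [mem_ct hF]
        intro p hp
        exact hFc p hp q hq
      obtain ⟨Q, hQ⟩ : ∃ Q : Ct F, Q = ⟨q, hqm⟩ := ⟨_, rfl⟩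
      have hQc : ∀ y : Ct F, Q * y = y * Q := by
        intro y
        rw [hQ]
        exact Subtype.ext ((mem_ct hF).1 y.2 q hq)
      have hQs : star Q = Q := by
        rw [hQ]
        exact Subtype.ext (PJ.star (hF q hq))
      have hcomm : IsMulCommutative (StarAlgebra.adjoin ℂ ((M : Set (Ct F)) ∪ {Q})) := by
        refine StarAlgebra.isMulCommutative_adjoin ℂ ?_ ?_
        · rintro a (ha | rfl) b (hb | rfl)
          · exact hMc a ha b hb
          · exact (hQc a).symm
          · exact hQc b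
          · rfl
        · rintro a (ha | rfl) b (hb | rfl)
          · exact hMc a ha _ (star_mem hb)
          · rw [hQs]; exact (hQc a).symm
          · exact hQc _
          · exact hQc _
      have h1 := hMmax (StarAlgebra.adjoin ℂ ((M : Set (Ct F)) ∪ {Q}))
        (fun a ha b hb => by
          have := hcomm.is_comm.comm ⟨a, ha⟩ ⟨b, hb⟩
          exact congrArg Subtype.val this)
        (fun a ha => StarAlgebra.subset_adjoin ℂ _ (Or.inl ha))
      have h2 : Q ∈ StarAlgebra.adjoin ℂ ((M : Set (Ct F)) ∪ {Q}) :=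
        StarAlgebra.subset_adjoin ℂ _ (Or.inr rfl)
      rw [h1] at h2
      have h3 := hmem Q h2
      rw [hQ] at h3
      exact h3
    have hM'max : ∀ N : StarSubalgebra ℂ A, (∀ a ∈ N, ∀ b ∈ N, a * b = b * a) → M' ≤ N →
        N = M' := by
      intro N hNc hMN
      refine le_antisymm ?_ hMN
      intro y hy
      have hyF : y ∈ Ct F := by
        rw [mem_ct hF]
        intro q hq
        exact hNc q (hMN (hFM q hq)) y hy
      have h1 := hMmax (N.comap (Ct F).subtype)
        (fun a ha b hb => Subtype.ext (hNc a ha b hb))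
        (fun a ha => hMN (hmem a ha))
      have h2 : (⟨y, hyF⟩ : Ct F) ∈ N.comap (Ct F).subtype := hy
      rw [h1] at h2
      exact hmem _ h2
    have h1 := hA.masa M' hM'c hM'max x (hmem x hx)
    rw [closure_subtype]
    refine closure_mono ?_ h1
    intro y hy
    have h2 : (StarAlgebra.adjoin ℂ {p : A | IsStarProjection p ∧ p ∈ M'} : StarSubalgebra ℂ A)
        ≤ (StarAlgebra.adjoin ℂ {p : Ct F | IsStarProjection p ∧ p ∈ M}).map (Ct F).subtype := by
      refine StarAlgebra.adjoin_le ?_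
      rintro p ⟨hp1, hp2⟩
      obtain ⟨p', hp', rfl⟩ := hmem' p hp2
      exact ⟨p', StarAlgebra.subset_adjoin ℂ _ ⟨pj_of_coe hp1, hp'⟩, rfl⟩
    obtain ⟨y', hy', rfl⟩ := h2 hy
    exact ⟨y', hy', rfl⟩

end Pool.Agent.K1H31.AW
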