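import Pool.Agent.K1H31.AW.Cent
import Pool.Agent.R456.CL.CaseB

/-!
# Every AW*-algebra is a clean ring
-/

set_option autoImplicit false

namespace Pool.Agent.K1H31.AW

open Pool.Agent.R456.CL

universe u

section dg

variable {A : Type u} [CStarAlgebra A]

/-- `X` is the sum of the family `x` along the orthogonal family `q` with supremum `E` -/
structure Dg {ι : Type*} (q : ι → A) (E : A) (x : ι → A) (X : A) : Prop where
  l : E * X = X
  r : X * E = X
  ql : ∀ i, q i * X = x i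
  qr : ∀ i, X * q i = x i

variable {ι : Type*} {q : ι → A} {E : A}

lemma Dg.mul (hq : ∀ i, PJ (q i)) {x y : ι → A} {X Y : A} (hx : Dg q E x X) (hy : Dg q E y Y) :
    Dg q E (fun i => x i * y i) (X * Y) := by
  refine ⟨by rw [← mul_assoc, hx.l], by rw [mul_assoc, hy.r], fun i => ?_, fun i => ?_⟩
  · rw [← mul_assoc, hx.ql]
    have h1 : x i = x i * q i := by
      rw [← hx.qr i, mul_assoc, PJ.mul_self (hq i)]
    rw [h1, mul_assoc, hy.ql, ← h1]
  · rw [mul_assoc, hy.qr]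
    have h1 : y i = q i * y i := by
      rw [← hy.ql i, ← mul_assoc, PJ.mul_self (hq i)]
    rw [h1, ← mul_assoc, hx.qr, ← h1]

lemma Dg.star (hq : ∀ i, PJ (q i)) (hE : PJ E) {x : ι → A} {X : A} (hx : Dg q E x X) :
    Dg q E (fun i => star (x i)) (star X) := by
  refine ⟨star_absorb_right hE hx.r, star_absorb_left hE hx.l, fun i => ?_, fun i => ?_⟩
  · have := congrArg Star.star (hx.qr i)
    rwa [star_mul, PJ.star (hq i)] at this
  · have := congrArg Star.star (hx.ql i)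
    rwa [star_mul, PJ.star (hq i)] at this

lemma Dg.sub {x y : ι → A} {X Y : A} (hx : Dg q E x X) (hy : Dg q E y Y) :
    Dg q E (fun i => x i - y i) (X - Y) :=
  ⟨by rw [mul_sub, hx.l, hy.l], by rw [sub_mul, hx.r, hy.r],
    fun i => by rw [mul_sub, hx.ql, hy.ql], fun i => by rw [sub_mul, hx.qr, hy.qr]⟩

lemma Dg.one (hq : ∀ i, PJ (q i)) (hE : IsSup q E) : Dg q E q E :=
  ⟨PJ.mul_self hE.1, PJ.mul_self hE.1, fun i => hE.2.1 i,
    fun i => Le.rev (hq i) hE.1 (hE.2.1 i)⟩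

lemma Dg.zero : Dg q E (fun _ => (0 : A)) 0 :=
  ⟨mul_zero _, zero_mul _, fun _ => mul_zero _, fun _ => zero_mul _⟩

lemma Dg.ext (hE : IsSup q E) {x y : ι → A} {X Y : A} (hx : Dg q E x X) (hy : Dg q E y Y)
    (h : ∀ i, x i = y i) : X = Y :=
  diag_ext hE hx.r hy.r (fun i => by rw [hx.qr, hy.qr, h])

lemma Dg.red (hq : ∀ i, PJ (q i)) (hE : IsSup q E) {T : A} (hT : ∀ i, q i * T = T * q i) :
    Dg q E (fun i => q i * T) (E * T) := by
  have hET : E * T = T * E := sup_comm' hq hE hT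
  refine ⟨by rw [← mul_assoc, PJ.mul_self hE.1], by
    rw [hET, mul_assoc, PJ.mul_self hE.1], fun i => by rw [← mul_assoc, hE.2.1 i], fun i => ?_⟩
  rw [mul_assoc, ← hT i, ← mul_assoc, Le.rev (hq i) hE.1 (hE.2.1 i)]

lemma Dg.pj (hq : ∀ i, PJ (q i)) (hE : IsSup q E) {x : ι → A} {X : A} (hx : Dg q E x X)
    (h : ∀ i, PJ (x i)) : PJ X := by
  constructor
  · exact (hx.mul hq hx).ext hE hx (fun i => PJ.mul_self (h i))
  · exact (hx.star hq hE.1).ext hE hx (fun i => PJ.star (h i))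

end dg

section parts

variable {A : Type u} [CStarAlgebra A]

lemma dg_exists (hA : Good A) {ι : Type u} {q : ι → A} {E : A} (hq : ∀ i, PJ (q i))
    (ho : ∀ i j, i ≠ j → q i * q j = 0) (hE : IsSup q E) {x : ι → A} (M : ℝ)
    (h1 : ∀ i, q i * x i = x i) (h2 : ∀ i, x i * q i = x i) (hM : ∀ i, ‖x i‖ ≤ M) :
    ∃ X : A, Dg q E x X := by
  obtain ⟨X, a, b, c, d⟩ := diag_sum hA.sa hA.supO hq ho hE h1 h2 hM
  exact ⟨X, a, b, c, d⟩

/-- the part with a good off-diagonal corner -/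
theorem sumA (hA : Good A) {ι : Type u} {q : ι → A} {E T : A} (hq : ∀ i, PJ (q i))
    (ho : ∀ i j, i ≠ j → q i * q j = 0) (hE : IsSup q E) (hT : ∀ i, q i * T = T * q i)
    (hD : ∀ i, DataA (q i) T) : CleanIn E (E * T) := by
  choose e f c he hf hle hlf hef hqe hqf h1 h2 h3 h4 h5 using hD
  choose v v1 v2 using hqe
  choose w w1 w2 using hqf
  have qe : ∀ i, q i * e i = e i := fun i => (hle i).rev (he i) (hq i)
  have qf : ∀ i, q i * f i = f i := fun i => (hlf i).rev (hf i) (hq i)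
  have eq' : ∀ i, e i * q i = e i := fun i => hle i
  have fq : ∀ i, f i * q i = f i := fun i => hlf i
  have ev : ∀ i, e i * v i = v i := fun i => pi_left (hq i) (v1 i) (v2 i)
  have fw : ∀ i, f i * w i = w i := fun i => pi_left (hq i) (w1 i) (w2 i)
  obtain ⟨e', De⟩ := dg_exists hA hq ho hE 1 qe eq' (fun i => pj_norm_le (he i))
  obtain ⟨f', Df⟩ := dg_exists hA hq ho hE 1 qf fq (fun i => pj_norm_le (hf i))
  obtain ⟨c', Dc⟩ := dg_exists hA hq ho hE (x := c) 320
    (fun i => by rw [← h1 i, ← mul_assoc, qe]) (fun i => by rw [← h2 i, mul_assoc, fq]) h5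
  obtain ⟨v', Dv⟩ := dg_exists hA hq ho hE (x := v) 1
    (fun i => by rw [← ev i, ← mul_assoc, qe]) (fun i => pi_right (hq i) (v1 i))
    (fun i => pi_norm_le (hq i) (v1 i))
  obtain ⟨w', Dw⟩ := dg_exists hA hq ho hE (x := w) 1
    (fun i => by rw [← fw i, ← mul_assoc, qf]) (fun i => pi_right (hq i) (w1 i))
    (fun i => pi_norm_le (hq i) (w1 i))
  have D1 := Dg.one hq hE
  have DT := Dg.red hq hE hT
  have pe : PJ e' := De.pj hq hE he
  have pf : PJ f' := Df.pj hq hE hf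
  have oef : e' * f' = 0 := (De.mul hq Df).ext hE Dg.zero hef
  have E1 : Eqv E e' := ⟨v', ((Dv.star hq hE.1).mul hq Dv).ext hE D1 v1,
    (Dv.mul hq (Dv.star hq hE.1)).ext hE De v2⟩
  have E2 : Eqv E f' := ⟨w', ((Dw.star hq hE.1).mul hq Dw).ext hE D1 w1,
    (Dw.mul hq (Dw.star hq hE.1)).ext hE Df w2⟩
  have hH : Halv E := Halv.of_two hE.1 pe pf oef De.r Df.r E1 E2
  have DX := (Df.mul hq DT).mul hq De
  have hX : ∀ i, f i * (q i * T) * e i = f i * T * e i := fun i => by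
    rw [← mul_assoc (f i), fq]
  refine caseA' hA hE.1 hH DT.l DT.r pe pf De.r Df.r oef E1 E2 ⟨?_, ?_, c', ?_, ?_, ?_, ?_⟩
  · rw [← mul_assoc, ← mul_assoc, PJ.mul_self pf]
  · rw [mul_assoc, PJ.mul_self pe]
  · exact (De.mul hq Dc).ext hE Dc h1
  · exact (Dc.mul hq Df).ext hE Dc h2
  · exact (Dc.mul hq DX).ext hE De (fun i => by rw [hX]; exact h3 i)
  · exact (DX.mul hq Dc).ext hE Df (fun i => by rw [hX]; exact h4 i)

/-- a near-scalar block, with a bound for the inverse -/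
lemma invB {h q T : A} {c : ℂ} (hh : PJ h) (hq : PJ q) (hhq : Le h q)
    (hn : ‖h * (T - c • q) * h‖ ≤ 1 / 4) : ∃ p y : A, (p = 0 ∨ p = h) ∧ h * y = y ∧ y * h = y ∧
      y * (h * T * h - p) = h ∧ (h * T * h - p) * y = h ∧ ‖y‖ ≤ 4 := by
  have hhh := PJ.mul_self hh
  obtain ⟨d, hd⟩ : ∃ d, d = h * (T - c • q) * h := ⟨_, rfl⟩
  rw [← hd] at hn
  have hhq' : h * q = h := hhq
  have hd' : h * T * h = c • h + d := by
    rw [hd, mul_sub, sub_mul, mul_smul_comm, smul_mul_assoc, hhq', hhh]; abel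
  have hd1 : h * d = d := by rw [hd]; simp only [← mul_assoc, hhh]
  have hd2 : d * h = d := by rw [hd]; simp only [mul_assoc, hhh]
  have key : ∀ c' : ℂ, 1 / 2 ≤ ‖c'‖ → ∃ y : A, h * y = y ∧ y * h = y ∧ y * (c' • h + d) = h ∧
      (c' • h + d) * y = h ∧ ‖y‖ ≤ 4 := by
    intro c' hc'
    obtain ⟨_, _, y, hy1, hy2, hy3, hy4⟩ : Iso h h (c' • h + d) :=
      iso_scalar hh hd1 hd2 (by linarith)
    refine ⟨y, hy1, hy2, hy3, hy4, ?_⟩
    have h1 : c' • y = h - y * d := by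
      rw [mul_add, mul_smul_comm, hy2] at hy3
      rw [← hy3]; abel
    have h2 : ‖c'‖ * ‖y‖ ≤ 1 + ‖y‖ * (1 / 4) := by
      rw [← norm_smul, h1]
      refine (norm_sub_le _ _).trans (add_le_add (pj_norm_le hh) ?_)
      exact (norm_mul_le _ _).trans (mul_le_mul_of_nonneg_left hn (norm_nonneg _))
    nlinarith [norm_nonneg y]
  by_cases hc : 1 / 2 ≤ ‖c‖
  · obtain ⟨y, a, b, c1, d1, e1⟩ := key c hc
    exact ⟨0, y, Or.inl rfl, a, b, by rw [hd', sub_zero]; exact c1,
      by rw [hd', sub_zero]; exact d1, e1⟩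
  · have h1 : (1 : ℝ) / 2 ≤ ‖c - 1‖ := by
      have : ‖(1 : ℂ)‖ ≤ ‖c‖ + ‖c - 1‖ := by
        calc ‖(1 : ℂ)‖ = ‖c - (c - 1)‖ := by congr 1; ring
          _ ≤ _ := norm_sub_le _ _
      rw [norm_one] at this
      linarith
    obtain ⟨y, a, b, c1, d1, e1⟩ := key (c - 1) h1
    have e : c • h + d - h = (c - 1) • h + d := by rw [sub_smul, one_smul]; abel
    exact ⟨h, y, Or.inr rfl, a, b, by rw [hd', e]; exact c1, by rw [hd', e]; exact d1, e1⟩

/-- the finite by near-scalar part, when the pieces are central -/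
theorem fin_part (hA : Good A) {ι : Type u} {q : ι → A} {E T : A} (hq : ∀ i, Cen (q i))
    (ho : ∀ i j, i ≠ j → q i * q j = 0) (hE : IsSup q E)
    (hk : ∀ i, ∃ (k : A) (c : ℂ), PJ k ∧ Le k (q i) ∧ ¬ Infin k ∧
      ‖(q i - k) * (T - c • q i) * (q i - k)‖ ≤ 1 / 4) : CleanIn E (E * T) := by
  choose k c hk hkq hkf hkn using hk
  have hqp : ∀ i, PJ (q i) := fun i => (hq i).1
  have hh : ∀ i, PJ (q i - k i) := fun i => pj_sub (hk i) (hqp i) (hkq i)
  have hhq : ∀ i, Le (q i - k i) (q i) := fun i => by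
    show (q i - k i) * q i = q i - k i
    rw [sub_mul, PJ.mul_self (hqp i), hkq i]
  choose p y hp y1 y2 y3 y4 y5 using fun i => invB (hh i) (hqp i) (hhq i) (hkn i)
  have qk : ∀ i, q i * k i = k i := fun i => (hkq i).rev (hk i) (hqp i)
  have kq : ∀ i, k i * q i = k i := fun i => hkq i
  have qh : ∀ i, q i * (q i - k i) = q i - k i := fun i => (hhq i).rev (hh i) (hqp i)
  have hq' : ∀ i, (q i - k i) * q i = q i - k i := fun i => hhq i
  have hp1 : ∀ i, (q i - k i) * p i = p i := fun i => by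
    rcases hp i with h | h
    · rw [h, mul_zero]
    · rw [h, PJ.mul_self (hh i)]
  have hp2 : ∀ i, p i * (q i - k i) = p i := fun i => by
    rcases hp i with h | h
    · rw [h, zero_mul]
    · rw [h, PJ.mul_self (hh i)]
  have hp3 : ∀ i, p i * p i = p i := fun i => by
    rcases hp i with h | h
    · rw [h, zero_mul]
    · rw [h, PJ.mul_self (hh i)]
  have hp4 : ∀ i, ‖p i‖ ≤ 1 := fun i => by
    rcases hp i with h | h
    · rw [h, norm_zero]; norm_num
    · rw [h]; exact pj_norm_le (hh i)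
  obtain ⟨K, DK⟩ := dg_exists hA hqp ho hE 1 qk kq (fun i => pj_norm_le (hk i))
  obtain ⟨P, DP⟩ := dg_exists hA hqp ho hE (x := p) 1
    (fun i => by rw [← hp1 i, ← mul_assoc, qh]) (fun i => by rw [← hp2 i, mul_assoc, hq']) hp4
  obtain ⟨Y, DY⟩ := dg_exists hA hqp ho hE (x := y) 4
    (fun i => by rw [← y1 i, ← mul_assoc, qh]) (fun i => by rw [← y2 i, mul_assoc, hq']) y5
  have D1 := Dg.one hqp hE
  have DT := Dg.red hqp hE (T := T) (fun i => (hq i).2 T)
  have DH := D1.sub DK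
  have hKp : PJ K := DK.pj hqp hE hk
  have hKfin : ¬ Infin K := by
    rintro ⟨v, v1, v2, v3⟩
    apply v3
    have hvE : v * star v * E = v * star v := by
      rw [← v2, mul_assoc, DK.r]
    refine diag_ext hE hvE DK.r (fun i => ?_)
    rw [DK.qr]
    by_contra hne
    refine hkf i ⟨q i * v, ?_, ?_, ?_⟩
    · rw [(hq i).star_mul, (hq i).mul_mul, v1, DK.ql]
    · rw [(hq i).star_mul, (hq i).mul_mul]
      calc q i * (v * star v) * k i = q i * (v * star v) * (q i * K) := by rw [DK.ql]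
        _ = q i * (v * star v * K) := by rw [(hq i).mul_mul]
        _ = q i * (v * star v) := by rw [v2]
    · rw [(hq i).star_mul, (hq i).mul_mul, (hq i).2]
      exact hne
  have DX := ((DH.mul hqp DT).mul hqp DH).sub DP
  have hX : ∀ i, (q i - k i) * (q i * T) * (q i - k i) = (q i - k i) * T * (q i - k i) :=
    fun i => by rw [← mul_assoc (q i - k i), hq']
  exact clean_blocks (p := P) (c := Y) hE.1 hKp DK.r DT.l DT.r
    ((DH.mul hqp DP).ext hE DP hp1) ((DP.mul hqp DH).ext hE DP hp2)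
    ((DP.mul hqp DP).ext hE DP hp3) ((DH.mul hqp DY).ext hE DY y1) ((DY.mul hqp DH).ext hE DY y2)
    ((DY.mul hqp DX).ext hE DH (fun i => by rw [hX]; exact y3 i))
    ((DX.mul hqp DY).ext hE DH (fun i => by rw [hX]; exact y4 i))
    (fun T' h1 h2 => fin' hA hKp hKfin h1 h2)

end parts

/-- **every AW*-algebra is clean** -/
theorem clean_all (A : Type u) [CStarAlgebra A] (hAW : IsAWStar A) (T : A) : CleanIn 1 T := by
  classical
  have hA := good_of A hAW
  let C : Set (Set A) := {S | (∀ q ∈ S, PJ q ∧ q ≠ 0 ∧ q * T = T * q ∧ Nice q T) ∧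
    ∀ p ∈ S, ∀ q ∈ S, p ≠ q → p * q = 0}
  obtain ⟨F, hF⟩ : ∃ F, Maximal (· ∈ C) F := by
    refine zorn_subset C ?_
    intro c hc hchain
    refine ⟨⋃₀ c, ⟨?_, ?_⟩, fun s hs => Set.subset_sUnion_of_mem hs⟩
    · rintro p ⟨s, hs, hps⟩
      exact (hc hs).1 p hps
    · rintro p ⟨s, hs, hps⟩ q ⟨t, ht, hqt⟩ hpq
      rcases hchain.total hs ht with h | h
      · exact (hc ht).2 p (h hps) q hqt hpq
      · exact (hc hs).2 p hps q (h hqt) hpq
  have hFC : F ∈ C := hF.1
  have hFp : ∀ p ∈ F, PJ p := fun p hp => (hFC.1 p hp).1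
  have hFT : ∀ p ∈ F, p * T = T * p := fun p hp => (hFC.1 p hp).2.2.1
  have hFo : ∀ p ∈ F, ∀ q ∈ F, p ≠ q → p * q = 0 := hFC.2
  have hFc : ∀ p ∈ F, ∀ q ∈ F, p * q = q * p := by
    intro p hp q hq
    by_cases h : p = q
    · rw [h]
    · rw [hFo p hp q hq h, hFo q hq p hp (Ne.symm h)]
  obtain ⟨E0, hE0⟩ := hA.sup F (fun p => (p : A)) (fun p => hFp p p.2)
  have hE0T : E0 * T = T * E0 := sup_comm' (fun p : F => hFp p p.2) hE0 (fun p => hFT p p.2)
  have hE01 : E0 = 1 := by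
    by_contra hne
    have h0 : 1 - E0 ≠ 0 := fun h => hne (sub_eq_zero.1 h).symm
    obtain ⟨q, hq, hq1, hq0, hqT, hqN⟩ := local_nice hA (T := T) hE0.1.one_sub h0
      (by rw [sub_mul, mul_sub, one_mul, mul_one, hE0T])
    have hqE : q * E0 = 0 := by
      have h1 : q * (1 - E0) = q := hq1
      rw [mul_sub, mul_one, sub_eq_self] at h1
      exact h1
    have hqi : ∀ p ∈ F, q * p = 0 := by
      intro p hp
      have h1 : E0 * p = p := Le.rev (hFp p hp) hE0.1 (hE0.2.1 ⟨p, hp⟩)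
      rw [← h1, ← mul_assoc, hqE, zero_mul]
    have hins : insert q F ∈ C := by
      refine ⟨?_, ?_⟩
      · rintro p (rfl | hp')
        · exact ⟨hq, hq0, hqT, hqN⟩
        · exact hFC.1 p hp'
      · rintro p (rfl | hp') r (rfl | hr') hpr
        · exact absurd rfl hpr
        · exact hqi r hr'
        · exact orth_comm hq (hFp p hp') (hqi p hp')
        · exact hFo p hp' r hr' hpr
    have hmem : q ∈ F := hF.2 hins (Set.subset_insert _ _) (Set.mem_insert _ _)
    apply hq0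
    rw [← PJ.mul_self hq]
    exact hqi q hmem
  -- the two parts
  obtain ⟨E1, hE1⟩ := hA.sup {p : F // DataA (p : A) T} (fun p => ((p : F) : A))
    (fun p => hFp _ p.1.2)
  obtain ⟨E3, hE3⟩ := hA.sup {p : F // ¬ DataA (p : A) T} (fun p => ((p : F) : A))
    (fun p => hFp _ p.1.2)
  have h13 : E1 * E3 = 0 := Inf2.sup_orth
    (s := fun p : {p : F // DataA (p : A) T} => ((p : F) : A))
    (t := fun p : {p : F // ¬ DataA (p : A) T} => ((p : F) : A)) (fun p => hFp _ p.1.2)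
    (fun p => hFp _ p.1.2) hE1 hE3
    (fun p r => hFo _ p.1.2 _ r.1.2 (fun h => r.2 (by rw [← h]; exact p.2)))
  have h31 : E3 * E1 = 0 := orth_comm hE1.1 hE3.1 h13
  have hsum : E1 + E3 = 1 := by
    have h1 : (1 - (E1 + E3)) * E0 = 0 := by
      refine hE0.2.2 _ (fun p => ?_)
      show (1 - (E1 + E3)) * (p : A) = 0
      by_cases hp : DataA (p : A) T
      · have h2 : E1 * (p : A) = p := Le.rev (hFp _ p.2) hE1.1 (hE1.2.1 ⟨p, hp⟩)
        have h3 : E3 * (p : A) = 0 := by rw [← h2, ← mul_assoc, h31, zero_mul]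
        rw [sub_mul, add_mul, one_mul, h2, h3, add_zero, sub_self]
      · have h2 : E3 * (p : A) = p := Le.rev (hFp _ p.2) hE3.1 (hE3.2.1 ⟨p, hp⟩)
        have h3 : E1 * (p : A) = 0 := by rw [← h2, ← mul_assoc, h13, zero_mul]
        rw [sub_mul, add_mul, one_mul, h2, h3, zero_add, sub_self]
    rw [hE01, mul_one, sub_eq_zero] at h1
    exact h1.symm
  have hE1T : E1 * T = T * E1 := sup_comm'
    (e := fun p : {p : F // DataA (p : A) T} => ((p : F) : A)) (fun p => hFp _ p.1.2) hE1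
    (fun p => hFT _ p.1.2)
  have hE3T : E3 * T = T * E3 := sup_comm'
    (e := fun p : {p : F // ¬ DataA (p : A) T} => ((p : F) : A)) (fun p => hFp _ p.1.2) hE3
    (fun p => hFT _ p.1.2)
  -- first part
  have cl1 : CleanIn E1 (E1 * T) := sumA hA
    (q := fun p : {p : F // DataA (p : A) T} => ((p : F) : A)) (fun p => hFp _ p.1.2)
    (fun p r hpr => hFo _ p.1.2 _ r.1.2 (fun h => hpr (Subtype.ext (Subtype.ext h)))) hE1
    (fun p => hFT _ p.1.2) (fun p => p.2)
  -- second part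
  have cl3 : CleanIn E3 (E3 * T) := by
    have hD := good_of (Ct F) (ct_aw hAW hA hFp hFc)
    have hTm : T ∈ Ct F := (mem_ct hFp).2 hFT
    have hqm : ∀ p : F, (p : A) ∈ Ct F := fun p => (mem_ct hFp).2 (fun r hr => hFc r hr p p.2)
    have hE3m : E3 ∈ Ct F := (mem_ct hFp).2 (fun r hr => by
      refine (sup_comm' (e := fun p : {p : F // ¬ DataA (p : A) T} => ((p : F) : A))
        (fun p => hFp _ p.1.2) hE3 (fun p => ?_)).symm
      exact hFc _ p.1.2 r hr)
    have hkm : ∀ (p : F) (k : A), PJ k → Le k p → k ∈ Ct F := by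
      intro p k hk hkp
      refine (mem_ct hFp).2 (fun r hr => ?_)
      have h1 : (p : A) * k = k := hkp.rev hk (hFp _ p.2)
      have h2 : k * (p : A) = k := hkp
      by_cases h : r = p
      · rw [h, h1, h2]
      · have h3 : r * (p : A) = 0 := hFo r hr p p.2 h
        have h4 : (p : A) * r = 0 := hFo p p.2 r hr (Ne.symm h)
        rw [← h1, ← mul_assoc, h3, zero_mul, h1]
        rw [← h2, mul_assoc, h4, mul_zero]
    have hcl : CleanIn (⟨E3, hE3m⟩ : Ct F) (⟨E3, hE3m⟩ * ⟨T, hTm⟩) := by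
      refine fin_part hD
        (q := fun p : {p : F // ¬ DataA (p : A) T} => (⟨((p : F) : A), hqm p.1⟩ : Ct F))
        (fun p => ⟨pj_of_coe (hFp _ p.1.2), fun x => Subtype.ext ((mem_ct hFp).1 x.2 _ p.1.2)⟩)
        (fun p r hpr => Subtype.ext
          (hFo _ p.1.2 _ r.1.2 (fun h => hpr (Subtype.ext (Subtype.ext h)))))
        (isSup_ct hE3) (fun p => ?_)
      obtain ⟨k, c, hk, hkp, hkf, hkn⟩ := ((hFC.1 _ p.1.2).2.2.2).resolve_left p.2
      refine ⟨⟨k, hkm p.1 k hk hkp⟩, c, pj_of_coe hk, Subtype.ext hkp, ?_, hkn⟩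
      rintro ⟨v, v1, v2, v3⟩
      refine hkf ⟨v, congrArg Subtype.val v1, congrArg Subtype.val v2, fun h => v3 ?_⟩
      exact Subtype.ext h
    obtain ⟨P, hP1, hP2, hP3, i1, i2, y, i3, i4, i5, i6⟩ := hcl
    exact ⟨P, congrArg Subtype.val hP1, congrArg Subtype.val hP2, congrArg Subtype.val hP3,
      congrArg Subtype.val i1, congrArg Subtype.val i2, y, congrArg Subtype.val i3,
      congrArg Subtype.val i4, congrArg Subtype.val i5, congrArg Subtype.val i6⟩
  -- gluing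
  obtain ⟨P1, a1, a2, a3, b1, b2, y1, b3, b4, b5, b6⟩ := cl1
  obtain ⟨P3, c1, c2, c3, d1, d2, y3, d3, d4, d5, d6⟩ := cl3
  have hT : T = E1 * T + E3 * T := by rw [← add_mul, hsum, one_mul]
  have cross : ∀ x y : A, x * E1 = x → E3 * y = y → x * y = 0 := by
    intro x y hx hy
    rw [← hx, ← hy, mul_assoc, ← mul_assoc E1, h13, zero_mul, mul_zero]
  have cross' : ∀ x y : A, x * E3 = x → E1 * y = y → x * y = 0 := by
    intro x y hx hy
    rw [← hx, ← hy, mul_assoc, ← mul_assoc E3, h31, zero_mul, mul_zero]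
  have hTP : T - (P1 + P3) = (E1 * T - P1) + (E3 * T - P3) := by
    conv_lhs => rw [hT]
    abel
  refine ⟨P1 + P3, one_mul _, mul_one _, ?_, one_mul _, mul_one _, y1 + y3, one_mul _, mul_one _,
    ?_, ?_⟩
  · rw [add_mul, mul_add, mul_add, a3, c3, cross P1 P3 a2 c1, cross' P3 P1 c2 a1]; abel
  · rw [hTP, add_mul, mul_add, mul_add, b5, d5, cross y1 _ b4 d1, cross' y3 _ d4 b1]
    rw [← hsum]; abel
  · rw [hTP, add_mul, mul_add, mul_add, b6, d6, cross _ y3 b2 d3, cross' _ y1 d2 b3]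
    rw [← hsum]; abel

end Pool.Agent.K1H31.AW
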