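import Pool.Agent.R456.CL.Cut456
import Pool.Agent.R456.CL.Sa456
import Pool.Agent.R456.CL.Sup
import Pool.Agent.R456.CL.AddO
import Pool.Agent.R456.CL.SB
import Pool.Agent.R456.CL.Inf2
import Pool.Agent.R456.CL.Fin

/-!
# AW*-algebras: the spectral cut with a norm bound

The proof is that of `Pool.Agent.R456.CL.cut456_ok`, which keeps the lower bound of the cut.
-/

set_option autoImplicit false

namespace Pool.Agent.K1H31.AW

open Pool.Agent.R456.CL

universe u

/-- spectral cut with a bound for the inverse square root. -/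
def PCutB (A : Type u) [CStarAlgebra A] : Prop := ∀ x : A, ∀ ε : ℝ, 0 < ε → ∃ k s : A, PJ k ∧ k * s = s ∧ s * k = s ∧
  star s = s ∧ k * (star x * x) = (star x * x) * k ∧ s * s * (star x * x) = k ∧
  (star x * x) * (s * s) = k ∧ s * (star x * x) * s = k ∧ ‖x * (1 - k)‖ ≤ ε ∧ ‖s‖ ≤ 2 / ε

theorem cutB_ok (A : Type u) [CStarAlgebra A] (hsa : PSa A) : PCutB A := by
  intro x ε hε
  classical
  let _ : PartialOrder A := CStarAlgebra.spectralOrder A
  let _ : StarOrderedRing A := CStarAlgebra.spectralOrderedRing A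
  obtain ⟨a, ha⟩ : ∃ a, a = star x * x := ⟨_, rfl⟩
  rw [← ha]
  have haa : star a = a := by rw [ha, star_mul, star_star]
  have hpos : 0 ≤ a := by rw [ha]; exact star_mul_self_nonneg x
  obtain ⟨c, hc⟩ : ∃ c : ℝ, c = ε ^ 2 / 2 := ⟨_, rfl⟩
  obtain ⟨δ, hδ⟩ : ∃ δ : ℝ, δ = ε ^ 2 / 4 := ⟨_, rfl⟩
  have hε2 : 0 < ε ^ 2 := by positivity
  have hδ0 : 0 < δ := by rw [hδ]; positivity
  have hone : PJ (1 : A) := ⟨by simp [IsIdempotentElem], by simp [IsSelfAdjoint]⟩
  obtain ⟨ι, _, p, l, hp, horth, hsum, hcomm, hn⟩ := hsa 1 a hone haa (mul_one a) δ hδ0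
  have hpn : ∀ i, 0 ≤ p i := by
    intro i
    have : p i = star (p i) * p i := by rw [PJ.star (hp i), PJ.mul_self (hp i)]
    rw [this]; exact star_mul_self_nonneg _
  obtain ⟨b, hb⟩ : ∃ b : A, b = ∑ i, l i • p i := ⟨_, rfl⟩
  have hb' : ∑ i, (l i : ℂ) • p i = b := by
    rw [hb]; exact Finset.sum_congr rfl (fun i _ => Complex.coe_smul _ _)
  rw [hb'] at hn
  have hbs : star b = b := by
    rw [hb, star_sum]
    refine Finset.sum_congr rfl (fun i _ => ?_)
    rw [star_smul, PJ.star (hp i)]; simp
  obtain ⟨K, hK⟩ : ∃ K : Finset ι, K = Finset.univ.filter (fun i => c ≤ l i) := ⟨_, rfl⟩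
  obtain ⟨k, hk⟩ : ∃ k : A, k = ∑ i ∈ K, p i := ⟨_, rfl⟩
  have hpi : ∀ i, p i * p i = p i := fun i => PJ.mul_self (hp i)
  have hpk : ∀ i, p i * k = if i ∈ K then p i else 0 := by
    intro i
    rw [hk, Finset.mul_sum]
    split_ifs with hi
    · rw [Finset.sum_eq_single i]
      · exact hpi i
      · intro j _ hj; exact horth i j (Ne.symm hj)
      · intro h; exact absurd hi h
    · exact Finset.sum_eq_zero (fun j hj => horth i j (fun h => hi (h ▸ hj)))
  have hks : star k = k := by
    rw [hk, star_sum]; exact Finset.sum_congr rfl (fun i _ => PJ.star (hp i))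
  have hkk : k * k = k := by
    calc k * k = (∑ i ∈ K, p i) * k := by rw [← hk]
      _ = ∑ i ∈ K, p i * k := Finset.sum_mul _ _ _
      _ = ∑ i ∈ K, p i := Finset.sum_congr rfl (fun i hi => by rw [hpk, if_pos hi])
      _ = k := hk.symm
  have hkP : PJ k := ⟨hkk, hks⟩
  have hka : k * a = a * k := by
    rw [hk, Finset.sum_mul, Finset.mul_sum]
    exact Finset.sum_congr rfl (fun i _ => hcomm i)
  have hbk : b * k = ∑ i ∈ K, l i • p i := by
    rw [hb, Finset.sum_mul, hK, Finset.sum_filter]
    refine Finset.sum_congr rfl (fun i _ => ?_)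
    rw [smul_mul_assoc, hpk, hK]
    simp only [Finset.mem_filter, Finset.mem_univ, true_and]
    split_ifs <;> simp
  have hkb : k * b = b * k := by
    have h1 : star (b * k) = b * k := by
      rw [hbk, star_sum]
      refine Finset.sum_congr rfl (fun i _ => ?_)
      rw [star_smul, PJ.star (hp i)]; simp
    rw [star_mul, hks, hbs] at h1
    exact h1
  have hkn : 0 ≤ k := by
    have : k = star k * k := by rw [hks, hkk]
    rw [this]; exact star_mul_self_nonneg _
  have hk1n : 0 ≤ 1 - k := by
    have : 1 - k = star (1 - k) * (1 - k) := by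
      rw [star_sub, star_one, hks, mul_sub, sub_mul, sub_mul, hkk]; simp
    rw [this]; exact star_mul_self_nonneg _
  -- order bounds
  have hrs : IsSelfAdjoint (a - b) := by
    show star (a - b) = a - b
    rw [star_sub, haa, hbs]
  have hup : a - b ≤ δ • (1 : A) := by
    have h1 := hrs.le_algebraMap_norm_self
    rw [Algebra.algebraMap_eq_smul_one] at h1
    exact h1.trans (smul_le_smul_of_nonneg_right hn zero_le_one)
  have hlo : -(δ • (1 : A)) ≤ a - b := by
    have h1 := hrs.neg_algebraMap_norm_le_self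
    rw [Algebra.algebraMap_eq_smul_one] at h1
    refine le_trans ?_ h1
    rw [neg_le_neg_iff]
    exact smul_le_smul_of_nonneg_right hn zero_le_one
  -- lower bound of a k
  have hak : (c - δ) • k ≤ a * k := by
    have h1 : k * (-(δ • (1 : A))) * k ≤ k * (a - b) * k := by
      have := star_left_conjugate_le_conjugate hlo k
      rwa [hks] at this
    have h2 : k * (-(δ • (1 : A))) * k = -(δ • k) := by
      rw [mul_neg, mul_smul_comm, mul_one, neg_mul, smul_mul_assoc, hkk]
    have h3 : k * (a - b) * k = a * k - b * k := by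
      rw [mul_sub, sub_mul, hka, mul_assoc, hkk, hkb, mul_assoc, hkk]
    rw [h2, h3] at h1
    have h4 : c • k ≤ b * k := by
      rw [hbk, hk, Finset.smul_sum]
      refine Finset.sum_le_sum (fun i hi => ?_)
      rw [hK, Finset.mem_filter] at hi
      exact smul_le_smul_of_nonneg_right hi.2 (hpn i)
    have h5 : (c - δ) • k = c • k + -(δ • k) := by rw [sub_smul, sub_eq_add_neg]
    rw [h5]
    calc c • k + -(δ • k) ≤ b * k + (a * k - b * k) := add_le_add h4 h1
      _ = a * k := by abel
  -- upper bound of a (1 - k)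
  have hak' : a * (1 - k) ≤ (c + δ) • (1 : A) := by
    have h1 : (1 - k) * (a - b) * (1 - k) ≤ (1 - k) * (δ • (1 : A)) * (1 - k) := by
      have := star_left_conjugate_le_conjugate hup (1 - k)
      rwa [star_sub, star_one, hks] at this
    have h11 : (1 - k) * (1 - k) = 1 - k := by
      rw [mul_sub, sub_mul, sub_mul, hkk]; simp
    have h2 : (1 - k) * (δ • (1 : A)) * (1 - k) = δ • (1 - k) := by
      rw [mul_smul_comm, mul_one, smul_mul_assoc, h11]
    have h3 : (1 - k) * (a - b) * (1 - k) = a * (1 - k) - b * (1 - k) := by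
      have e1 : (1 - k) * a = a * (1 - k) := by rw [sub_mul, mul_sub, hka, one_mul, mul_one]
      have e2 : (1 - k) * b = b * (1 - k) := by rw [sub_mul, mul_sub, hkb, one_mul, mul_one]
      rw [mul_sub (1 - k) a b, sub_mul ((1 - k) * a), e1, e2, mul_assoc, h11, mul_assoc, h11]
    rw [h2, h3] at h1
    have h4 : b * (1 - k) ≤ c • (1 - k) := by
      have e1 : b * (1 - k) = ∑ i ∈ Finset.univ.filter (fun i => ¬ c ≤ l i), l i • p i := by
        rw [mul_sub, mul_one, hbk, hb, hK, sub_eq_iff_eq_add, add_comm]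
        exact (Finset.sum_filter_add_sum_filter_not _ _ _).symm
      have e2 : 1 - k = ∑ i ∈ Finset.univ.filter (fun i => ¬ c ≤ l i), p i := by
        rw [← hsum, hk, hK, sub_eq_iff_eq_add, add_comm]
        exact (Finset.sum_filter_add_sum_filter_not _ _ _).symm
      rw [e1, e2, Finset.smul_sum]
      refine Finset.sum_le_sum (fun i hi => ?_)
      rw [Finset.mem_filter] at hi
      exact smul_le_smul_of_nonneg_right (le_of_lt (not_le.1 hi.2)) (hpn i)
    calc a * (1 - k) = (a * (1 - k) - b * (1 - k)) + b * (1 - k) := by abel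
      _ ≤ δ • (1 - k) + c • (1 - k) := add_le_add h1 h4
      _ = (c + δ) • (1 - k) := by rw [add_smul, add_comm]
      _ ≤ (c + δ) • (1 : A) := by
        refine smul_le_smul_of_nonneg_left ?_ (by rw [hc, hδ]; positivity)
        exact sub_le_self _ hkn
  -- the unit
  obtain ⟨y, hy⟩ : ∃ y : A, y = a * k + (1 - k) := ⟨_, rfl⟩
  obtain ⟨m, hm⟩ : ∃ m : ℝ, m = min (c - δ) 1 := ⟨_, rfl⟩
  have hcd : 0 < c - δ := by rw [hc, hδ]; linarith
  have hm0 : 0 < m := by rw [hm]; exact lt_min hcd one_pos
  have hmy : m • (1 : A) ≤ y := by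
    have h1 : m • (1 : A) = m • k + m • (1 - k) := by rw [← smul_add]; congr 1; abel
    rw [h1, hy]
    refine add_le_add (le_trans ?_ hak) ?_
    · exact smul_le_smul_of_nonneg_right (by rw [hm]; exact min_le_left _ _) hkn
    · calc m • (1 - k) ≤ (1 : ℝ) • (1 - k) :=
          smul_le_smul_of_nonneg_right (by rw [hm]; exact min_le_right _ _) hk1n
        _ = _ := one_smul _ _
  have hyn : 0 ≤ y := le_trans (smul_nonneg hm0.le zero_le_one) hmy
  have hyu : IsUnit y := by
    refine CStarAlgebra.isUnit_of_le (m • (1 : A)) hmy ?_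
    refine (IsStrictlyPositive.iff_of_unital).2 ⟨smul_nonneg hm0.le zero_le_one, ?_⟩
    rw [← Algebra.algebraMap_eq_smul_one]
    exact (isUnit_iff_ne_zero.2 hm0.ne').map (algebraMap ℝ A)
  -- square root
  obtain ⟨t, ht⟩ : ∃ t : A, t = CFC.sqrt y := ⟨_, rfl⟩
  have htt : t * t = y := by rw [ht]; exact CFC.sqrt_mul_sqrt_self y hyn
  have hts : star t = t := by
    rw [ht]; exact (IsSelfAdjoint.of_nonneg (CFC.sqrt_nonneg y)).star_eq
  have hyk : Commute y k := by
    show y * k = k * y
    rw [hy, add_mul, mul_add, mul_assoc, hkk, ← mul_assoc, hka, mul_assoc, hkk, sub_mul, mul_sub,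
      hkk]; simp
  have htk : t * k = k * t := by
    rw [ht]; exact (hyk.cfcₙ_nnreal NNReal.sqrt)
  have hya : Commute y a := by
    show y * a = a * y
    rw [hy, add_mul, mul_add, mul_assoc, hka, sub_mul, mul_sub, hka, one_mul, mul_one]
  have hta : t * a = a * t := by
    rw [ht]; exact (hya.cfcₙ_nnreal NNReal.sqrt)
  have htu : IsUnit t := by
    obtain ⟨u, hu⟩ := hyu
    refine ⟨⟨t, t * (u⁻¹ : Aˣ), ?_, ?_⟩, rfl⟩
    · rw [← mul_assoc, htt, ← hu]; simp
    · have hc1 : Commute t (u : A) := by
        rw [hu]; show t * y = y * t; rw [← htt, mul_assoc]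
      have hc2 : Commute t ((u⁻¹ : Aˣ) : A) := hc1.units_inv_right
      rw [hc2.eq, mul_assoc, htt, ← hu]; simp
  obtain ⟨v, hv⟩ := htu
  obtain ⟨w, hw⟩ : ∃ w : A, w = ((v⁻¹ : Aˣ) : A) := ⟨_, rfl⟩
  have htw : t * w = 1 := by rw [← hv, hw]; simp
  have hwt : w * t = 1 := by rw [← hv, hw]; simp
  have hwc : ∀ z : A, t * z = z * t → w * z = z * w := by
    intro z hz
    calc w * z = w * z * (t * w) := by rw [htw, mul_one]
      _ = w * (z * t) * w := by simp only [mul_assoc]
      _ = (w * t) * z * w := by rw [← hz]; simp only [mul_assoc]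
      _ = z * w := by rw [hwt, one_mul]
  have hwk := hwc k htk
  have hwa := hwc a hta
  have hws : star w = w := by
    have h1 := congrArg star htw
    rw [star_mul, hts, star_one] at h1
    calc star w = star w * (t * w) := by rw [htw, mul_one]
      _ = w := by rw [← mul_assoc, h1, one_mul]
  have hyk' : y * k = a * k := by
    rw [hy, add_mul, mul_assoc, hkk, sub_mul, one_mul, hkk, sub_self, add_zero]
  have hwwy : w * w * y = 1 := by
    rw [← htt]
    calc w * w * (t * t) = w * (w * t) * t := by simp only [mul_assoc]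
      _ = 1 := by rw [hwt, mul_one, hwt]
  have hwwa : w * w * a * k = k := by
    calc w * w * a * k = w * w * (a * k) := by rw [mul_assoc]
      _ = (w * w * y) * k := by rw [← hyk']; simp only [mul_assoc]
      _ = k := by rw [hwwy, one_mul]
  have hss : w * k * (w * k) = w * w * k := by
    calc w * k * (w * k) = w * (k * w) * k := by simp only [mul_assoc]
      _ = w * w * (k * k) := by rw [← hwk]; simp only [mul_assoc]
      _ = w * w * k := by rw [hkk]
  refine ⟨k, w * k, hkP, ?_, ?_, ?_, hka, ?_, ?_, ?_, ?_, ?_⟩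
  · rw [← mul_assoc, ← hwk, mul_assoc, hkk]
  · rw [mul_assoc, hkk]
  · rw [star_mul, hws, hks, hwk]
  · rw [hss, mul_assoc, hka, ← mul_assoc, hwwa]
  · rw [hss]
    calc a * (w * w * k) = (a * w) * w * k := by simp only [mul_assoc]
      _ = (w * a) * w * k := by rw [hwa]
      _ = w * (a * w) * k := by simp only [mul_assoc]
      _ = w * w * a * k := by rw [← hwa]; simp only [mul_assoc]
      _ = k := hwwa
  · calc w * k * a * (w * k) = w * (k * a) * w * k := by simp only [mul_assoc]
      _ = w * a * (k * w) * k := by rw [hka]; simp only [mul_assoc]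
      _ = w * (a * w) * (k * k) := by rw [← hwk]; simp only [mul_assoc]
      _ = w * w * a * k := by rw [← hwa, hkk]; simp only [mul_assoc]
      _ = k := hwwa
  · have h1 : ‖x * (1 - k)‖ * ‖x * (1 - k)‖ = ‖a * (1 - k)‖ := by
      rw [← CStarRing.norm_star_mul_self]
      congr 1
      rw [star_mul, star_sub, star_one, hks]
      calc (1 - k) * star x * (x * (1 - k)) = (1 - k) * (star x * x) * (1 - k) := by
            simp only [mul_assoc]
        _ = a * (1 - k) := by
            rw [← ha]
            have e1 : (1 - k) * a = a * (1 - k) := by rw [sub_mul, mul_sub, hka, one_mul, mul_one]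
            have h11 : (1 - k) * (1 - k) = 1 - k := by
              rw [mul_sub, sub_mul, sub_mul, hkk]; simp
            rw [e1, mul_assoc, h11]
    have h2 : ‖a * (1 - k)‖ ≤ c + δ := by
      have hn0 : 0 ≤ a * (1 - k) := by
        have : a * (1 - k) = star (x * (1 - k)) * (x * (1 - k)) := by
          rw [star_mul, star_sub, star_one, hks]
          have e1 : (1 - k) * a = a * (1 - k) := by rw [sub_mul, mul_sub, hka, one_mul, mul_one]
          have h11 : (1 - k) * (1 - k) = 1 - k := by
            rw [mul_sub, sub_mul, sub_mul, hkk]; simp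
          calc a * (1 - k) = a * ((1 - k) * (1 - k)) := by rw [h11]
            _ = (1 - k) * a * (1 - k) := by rw [e1, mul_assoc]
            _ = (1 - k) * star x * (x * (1 - k)) := by rw [ha]; simp only [mul_assoc]
        rw [this]; exact star_mul_self_nonneg _
      rw [CStarAlgebra.norm_le_iff_le_algebraMap _ (by rw [hc, hδ]; positivity) hn0,
        Algebra.algebraMap_eq_smul_one]
      exact hak'
    have h3 : c + δ ≤ ε * ε := by rw [hc, hδ]; nlinarith
    by_contra hlt
    push Not at hlt
    nlinarith [norm_nonneg (x * (1 - k))]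

  · have e0 : w * k * a * (w * k) = k := by
      calc w * k * a * (w * k) = w * (k * a) * w * k := by simp only [mul_assoc]
        _ = w * a * (k * w) * k := by rw [hka]; simp only [mul_assoc]
        _ = w * (a * w) * (k * k) := by rw [← hwk]; simp only [mul_assoc]
        _ = w * w * a * k := by rw [← hwa, hkk]; simp only [mul_assoc]
        _ = k := hwwa
    have es : star (w * k) = w * k := by rw [star_mul, hws, hks, hwk]
    obtain ⟨r, hr⟩ : ∃ r, r = w * k := ⟨_, rfl⟩
    rw [← hr] at e0 es ⊢
    have hkr : k * r = r := by rw [hr, ← mul_assoc, ← hwk, mul_assoc, hkk]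
    have hrk : r * k = r := by rw [hr, mul_assoc, hkk]
    have h1 := star_left_conjugate_le_conjugate hak r
    rw [es] at h1
    have h2 : r * ((c - δ) • k) * r = (c - δ) • (r * r) := by
      rw [mul_smul_comm, hrk, smul_mul_assoc]
    have h3 : r * (a * k) * r = k := by
      calc r * (a * k) * r = r * a * (k * r) := by simp only [mul_assoc]
        _ = k := by rw [hkr, e0]
    rw [h2, h3] at h1
    have hrr0 : 0 ≤ r * r := by
      have : r * r = star r * r := by rw [es]
      rw [this]; exact star_mul_self_nonneg _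
    have h4 : ‖(c - δ) • (r * r)‖ ≤ ‖k‖ :=
      CStarAlgebra.norm_le_norm_of_nonneg_of_le (smul_nonneg hcd.le hrr0) h1
    have h5 : ‖r * r‖ = ‖r‖ * ‖r‖ := by
      have := CStarRing.norm_star_mul_self (x := r)
      rwa [es] at this
    rw [norm_smul, Real.norm_of_nonneg hcd.le, h5] at h4
    have h6 := pj_norm_le hkP
    have h7 : c - δ = ε ^ 2 / 4 := by rw [hc, hδ]; ring
    rw [h7] at h4
    have h8 : (ε / 2 * ‖r‖) * (ε / 2 * ‖r‖) ≤ 1 := by nlinarith
    have h9 : ε / 2 * ‖r‖ ≤ 1 := by
      by_contra hlt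
      push Not at hlt
      nlinarith
    rw [le_div_iff₀ hε]
    linarith

end Pool.Agent.K1H31.AW
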