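import Pool.Agent.K1H31.AW.Cut
import Pool.Agent.R456.CL.Main3

/-!
# AW*-algebras: sums of bounded families along an orthogonal family of projections
-/

set_option autoImplicit false

namespace Pool.Agent.K1H31.AW

open Pool.Agent.R456.CL

universe u

variable {A : Type u} [CStarAlgebra A]

lemma step (hsa : PSa A) {g x : A} (hg : PJ g) (hx : star x = x) (hxg : x * g = x) (hn : ‖x‖ ≤ 1) :
    ∃ p : A, PJ p ∧ Le p g ∧ ‖x - (1 / 2 : ℂ) • (p - (g - p))‖ ≤ 2 / 3 := by
  classical
  obtain ⟨ι, _, p, l, hp, ho, hsum, hcomm, hd⟩ := hsa g x hg hx hxg (1 / 12) (by norm_num)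
  have hpi : ∀ i, p i * p i = p i := fun i => PJ.mul_self (hp i)
  have hpg : ∀ i, p i * g = p i := by
    intro i
    rw [← hsum, Finset.mul_sum, Finset.sum_eq_single i]
    · exact hpi i
    · intro j _ hj
      exact ho i j (Ne.symm hj)
    · intro h; exact absurd (Finset.mem_univ i) h
  obtain ⟨b, hb⟩ : ∃ b : A, b = ∑ i, (l i : ℂ) • p i := ⟨_, rfl⟩
  rw [← hb] at hd
  have hbp : ∀ i, b * p i = (l i : ℂ) • p i := by
    intro i
    rw [hb, Finset.sum_mul, Finset.sum_eq_single i]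
    · rw [smul_mul_assoc, hpi]
    · intro j _ hj
      rw [smul_mul_assoc, ho j i hj, smul_zero]
    · intro h; exact absurd (Finset.mem_univ i) h
  let s : ι → ℝ := fun i => if 0 ≤ l i then 1 / 2 else - (1 / 2)
  let K : Finset ι := Finset.univ.filter (fun i => 0 ≤ l i)
  let K' : Finset ι := Finset.univ.filter (fun i => ¬ 0 ≤ l i)
  have hKK : ∑ i ∈ K, p i + ∑ i ∈ K', p i = g := by
    rw [← hsum]
    exact Finset.sum_filter_add_sum_filter_not _ _ _
  have hgK : g - ∑ i ∈ K, p i = ∑ i ∈ K', p i := by rw [← hKK]; abel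
  refine ⟨∑ i ∈ K, p i, Main3.sum_pj K p hp ho, ?_, ?_⟩
  · show (∑ i ∈ K, p i) * g = ∑ i ∈ K, p i
    rw [Finset.sum_mul]
    exact Finset.sum_congr rfl (fun i _ => hpg i)
  · rw [hgK]
    have e1 : (1 / 2 : ℂ) • (∑ i ∈ K, p i - ∑ i ∈ K', p i) = ∑ i, (s i : ℂ) • p i := by
      rw [← Finset.sum_filter_add_sum_filter_not Finset.univ (fun i => 0 ≤ l i), smul_sub,
        Finset.smul_sum, Finset.smul_sum, sub_eq_add_neg, ← Finset.sum_neg_distrib]
      congr 1
      · refine Finset.sum_congr rfl (fun i hi => ?_)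
        have : 0 ≤ l i := (Finset.mem_filter.mp hi).2
        simp [s, this]
      · refine Finset.sum_congr rfl (fun i hi => ?_)
        have : ¬ 0 ≤ l i := (Finset.mem_filter.mp hi).2
        simp [s, this]
    rw [e1]
    have e2 : x - ∑ i, (s i : ℂ) • p i = (x - b) + ∑ i, ((l i - s i : ℝ) : ℂ) • p i := by
      have : ∑ i, ((l i - s i : ℝ) : ℂ) • p i = b - ∑ i, (s i : ℂ) • p i := by
        rw [hb, ← Finset.sum_sub_distrib]
        refine Finset.sum_congr rfl (fun i _ => ?_)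
        rw [← sub_smul]; congr 1; push_cast; ring
      rw [this]; abel
    rw [e2]
    have e3 : ∑ i, ((l i - s i : ℝ) : ℂ) • p i
        = ∑ i ∈ Finset.univ.filter (fun i => p i ≠ 0), ((l i - s i : ℝ) : ℂ) • p i := by
      rw [Finset.sum_filter]
      refine Finset.sum_congr rfl (fun i _ => ?_)
      split_ifs with h
      · rfl
      · push Not at h
        rw [h, smul_zero]
    have h3 : ‖∑ i, ((l i - s i : ℝ) : ℂ) • p i‖ ≤ 7 / 12 := by
      rw [e3]
      refine Main3.comb_norm _ p hp ho (fun i => l i - s i) (7 / 12) (by norm_num) ?_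
      intro i hi
      have hne : p i ≠ 0 := (Finset.mem_filter.mp hi).2
      have hpos : 0 < ‖p i‖ := norm_pos_iff.2 hne
      have h4 : |l i| * ‖p i‖ ≤ 1 * ‖p i‖ + 1 / 12 * ‖p i‖ := by
        have h5 : (l i : ℂ) • p i = x * p i - (x - b) * p i := by
          rw [sub_mul, hbp]; abel
        have h6 : ‖(l i : ℂ) • p i‖ = |l i| * ‖p i‖ := by
          rw [norm_smul, Complex.norm_real, Real.norm_eq_abs]
        rw [← h6, h5]
        refine (norm_sub_le _ _).trans (add_le_add ?_ ?_)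
        · exact (norm_mul_le _ _).trans (mul_le_mul_of_nonneg_right hn (norm_nonneg _))
        · exact (norm_mul_le _ _).trans (mul_le_mul_of_nonneg_right hd (norm_nonneg _))
      have h7 : |l i| ≤ 13 / 12 := by
        by_contra hc
        push Not at hc
        nlinarith
      rw [abs_le] at h7 ⊢
      by_cases h8 : 0 ≤ l i
      · simp only [s, h8, if_true]
        constructor <;> linarith [h7.1, h7.2]
      · simp only [s, h8, if_false]
        push Not at h8
        constructor <;> linarith [h7.1, h7.2]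
    calc ‖(x - b) + ∑ i, ((l i - s i : ℝ) : ℂ) • p i‖ ≤ 1 / 12 + 7 / 12 :=
          (norm_add_le _ _).trans (add_le_add hd h3)
      _ = 2 / 3 := by norm_num

/-- expansion of a self-adjoint contraction by symmetries -/
lemma expand (hsa : PSa A) {g x : A} (hg : PJ g) (hx : star x = x) (hxg : x * g = x)
    (hn : ‖x‖ ≤ 1) : ∃ p : ℕ → A, (∀ n, PJ (p n) ∧ Le (p n) g) ∧
      ∀ N, ‖x - ∑ n ∈ Finset.range N, ((1 / 2 : ℂ) * (2 / 3) ^ n) • (p n - (g - p n))‖
        ≤ (2 / 3) ^ N := by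
  classical
  let S := {y : A // star y = y ∧ y * g = y ∧ ‖y‖ ≤ 1}
  have hstep : ∀ y : S, ∃ p : A, PJ p ∧ Le p g ∧ ‖y.1 - (1 / 2 : ℂ) • (p - (g - p))‖ ≤ 2 / 3 :=
    fun y => step hsa hg y.2.1 y.2.2.1 y.2.2.2
  choose P hP1 hP2 hP3 using hstep
  have hnext : ∀ y : S, (star ((3 / 2 : ℂ) • (y.1 - (1 / 2 : ℂ) • (P y - (g - P y))))
      = (3 / 2 : ℂ) • (y.1 - (1 / 2 : ℂ) • (P y - (g - P y)))) ∧
      ((3 / 2 : ℂ) • (y.1 - (1 / 2 : ℂ) • (P y - (g - P y)))) * g
        = (3 / 2 : ℂ) • (y.1 - (1 / 2 : ℂ) • (P y - (g - P y))) ∧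
      ‖(3 / 2 : ℂ) • (y.1 - (1 / 2 : ℂ) • (P y - (g - P y)))‖ ≤ 1 := by
    intro y
    refine ⟨?_, ?_, ?_⟩
    · have h1 : star (3 / 2 : ℂ) = 3 / 2 := by
        simp
      have h2 : star (1 / 2 : ℂ) = 1 / 2 := by
        simp
      rw [star_smul, star_sub, star_smul, star_sub, star_sub, h1, h2, y.2.1, PJ.star (hP1 y),
        PJ.star hg]
    · have h1 : P y * g = P y := hP2 y
      rw [smul_mul_assoc, sub_mul, smul_mul_assoc, sub_mul, sub_mul, y.2.2.1, h1, PJ.mul_self hg]
    · rw [norm_smul]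
      have : ‖(3 / 2 : ℂ)‖ = 3 / 2 := by norm_num
      rw [this]
      linarith [hP3 y]
  let nxt : S → S := fun y => ⟨_, hnext y⟩
  let seq : ℕ → S := fun n => Nat.rec ⟨x, hx, hxg, hn⟩ (fun _ y => nxt y) n
  have hs0 : (seq 0).1 = x := rfl
  have hss : ∀ n, (seq (n + 1)).1
      = (3 / 2 : ℂ) • ((seq n).1 - (1 / 2 : ℂ) • (P (seq n) - (g - P (seq n)))) := fun n => rfl
  refine ⟨fun n => P (seq n), fun n => ⟨hP1 _, hP2 _⟩, fun N => ?_⟩
  have key : ∀ N, x - ∑ n ∈ Finset.range N, ((1 / 2 : ℂ) * (2 / 3) ^ n) • (P (seq n) - (g - P (seq n)))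
      = ((2 / 3 : ℂ) ^ N) • (seq N).1 := by
    intro N
    induction N with
    | zero => simp [hs0]
    | succ N ih =>
      have e1 : (2 / 3 : ℂ) ^ (N + 1) * (3 / 2) = (2 / 3 : ℂ) ^ N := by
        rw [pow_succ]; ring
      have e2 : (2 / 3 : ℂ) ^ N * (1 / 2) = 1 / 2 * (2 / 3) ^ N := by ring
      rw [Finset.sum_range_succ, ← sub_sub, ih, hss, smul_smul, e1, ← e2, ← smul_smul, ← smul_sub]
  rw [key N, norm_smul, norm_pow]
  have h1 : ‖(2 / 3 : ℂ)‖ = 2 / 3 := by norm_num
  rw [h1]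
  exact mul_le_of_le_one_right (by positivity) (seq N).2.2.2

lemma sup_unit {ι : Type*} {q r : ι → A} {P : A} (hq : ∀ i, PJ (q i))
    (ho : ∀ i j, i ≠ j → q i * q j = 0) (hr : ∀ i, PJ (r i)) (hrq : ∀ i, r i * q i = r i)
    (hP : IsSup r P) (i : ι) : q i * P = r i ∧ P * q i = r i := by
  have hqr : ∀ i, q i * r i = r i := fun i => Le.rev (hr i) (hq i) (hrq i)
  have h1 : (q i - r i) * P = 0 := by
    refine hP.2.2 _ (fun j => ?_)
    by_cases h : j = i
    · subst h
      rw [sub_mul, hqr, PJ.mul_self (hr j), sub_self]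
    · have h2 : q i * r j = 0 := by
        rw [← hqr j, ← mul_assoc, ho i j (Ne.symm h), zero_mul]
      have h3 : r i * r j = 0 := by
        rw [← hrq i, mul_assoc, h2, mul_zero]
      rw [sub_mul, h2, h3, sub_self]
  have h2 : q i * P = r i := by
    rw [sub_mul, sub_eq_zero] at h1
    rw [h1, hP.2.1 i]
  refine ⟨h2, ?_⟩
  have := congrArg star h2
  rwa [star_mul, PJ.star (hq i), PJ.star hP.1, PJ.star (hr i)] at this

/-- self-adjoint case -/
lemma diag_sa (hsa : PSa A) (hsup : PSupO A) {ι : Type u} {q : ι → A} {E : A}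
    (hq : ∀ i, PJ (q i)) (ho : ∀ i j, i ≠ j → q i * q j = 0) (hE : IsSup q E) {x : ι → A}
    (hx : ∀ i, star (x i) = x i) (h2 : ∀ i, x i * q i = x i) (hM : ∀ i, ‖x i‖ ≤ 1) :
    ∃ X : A, star X = X ∧ X * E = X ∧ ∀ i, X * q i = x i := by
  choose p hp1 hp2 using fun i => expand hsa (hq i) (hx i) (h2 i) (hM i)
  have hpo : ∀ n i j, i ≠ j → p i n * p j n = 0 := by
    intro n i j hij
    have e1 : p i n * q i = p i n := (hp1 i n).2
    have e2 : q j * p j n = p j n := Le.rev (hp1 j n).1 (hq j) (hp1 j n).2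
    rw [← e1, ← e2, mul_assoc, ← mul_assoc (q i), ho i j hij, zero_mul, mul_zero]
  have hPex : ∀ n, ∃ P : A, IsSup (fun i => p i n) P := fun n =>
    hsup ι (fun i => p i n) (fun i => (hp1 i n).1) (hpo n)
  choose P hP using hPex
  have hPq : ∀ n i, P n * q i = p i n := fun n i =>
    (sup_unit hq ho (fun i => (hp1 i n).1) (fun i => (hp1 i n).2) (hP n) i).2
  have hPE : ∀ n, P n * E = P n := fun n => Inf2.sup_le (fun i => (hp1 i n).1) (hP n) hE.1
    (fun i => by
      have e1 : p i n * q i = p i n := (hp1 i n).2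
      show p i n * E = p i n
      rw [← e1, mul_assoc, hE.2.1 i])
  have hEq : ∀ i, E * q i = q i := fun i => Le.rev (hq i) hE.1 (hE.2.1 i)
  let a : ℕ → A := fun n => ((1 / 2 : ℂ) * (2 / 3) ^ n) • (P n - (E - P n))
  have hsum : Summable a := by
    refine Summable.of_norm_bounded (g := fun n : ℕ => (3 / 2 : ℝ) * (2 / 3) ^ n) ?_ ?_
    · exact (summable_geometric_of_lt_one (by norm_num) (by norm_num)).mul_left _
    · intro n
      have e1 : ‖P n - (E - P n)‖ ≤ 3 := by
        have h1 := pj_norm_le (hP n).1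
        have h2 := pj_norm_le hE.1
        calc ‖P n - (E - P n)‖ ≤ ‖P n‖ + ‖E - P n‖ := norm_sub_le _ _
          _ ≤ ‖P n‖ + (‖E‖ + ‖P n‖) := by gcongr; exact norm_sub_le _ _
          _ ≤ 3 := by linarith
      have e2 : ‖(1 / 2 : ℂ) * (2 / 3) ^ n‖ = (1 / 2) * (2 / 3) ^ n := by
        rw [norm_mul, norm_pow]; norm_num
      show ‖((1 / 2 : ℂ) * (2 / 3) ^ n) • (P n - (E - P n))‖ ≤ _
      rw [norm_smul, e2]
      have h3 : (0 : ℝ) < (2 / 3) ^ n := by positivity
      nlinarith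
  have hs : HasSum a (∑' n, a n) := hsum.hasSum
  refine ⟨∑' n, a n, ?_, ?_, ?_⟩
  · rw [tsum_star]
    congr 1
    funext n
    have h1 : star ((1 / 2 : ℂ) * (2 / 3) ^ n) = (1 / 2 : ℂ) * (2 / 3) ^ n := by
      simp
    show star (((1 / 2 : ℂ) * (2 / 3) ^ n) • (P n - (E - P n))) = _
    rw [star_smul, h1, star_sub, star_sub, PJ.star (hP n).1, PJ.star hE.1]
  · rw [← hsum.tsum_mul_right]
    congr 1
    funext n
    show ((1 / 2 : ℂ) * (2 / 3) ^ n) • (P n - (E - P n)) * E = _
    rw [smul_mul_assoc, sub_mul, sub_mul, hPE, PJ.mul_self hE.1]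
  · intro i
    have h1 : HasSum (fun n => a n * q i) ((∑' n, a n) * q i) := hs.mul_right _
    have h3 := h1.tendsto_sum_nat
    have h4 : Filter.Tendsto (fun N => ∑ n ∈ Finset.range N, a n * q i) Filter.atTop
        (nhds (x i)) := by
      rw [tendsto_iff_norm_sub_tendsto_zero]
      have h5 : Filter.Tendsto (fun N : ℕ => ((2 : ℝ) / 3) ^ N) Filter.atTop (nhds 0) :=
        tendsto_pow_atTop_nhds_zero_of_lt_one (by norm_num) (by norm_num)
      refine squeeze_zero (fun _ => norm_nonneg _) (fun N => ?_) h5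
      have e1 : ∑ n ∈ Finset.range N, a n * q i
          = ∑ n ∈ Finset.range N, ((1 / 2 : ℂ) * (2 / 3) ^ n) • (p i n - (q i - p i n)) := by
        refine Finset.sum_congr rfl (fun n _ => ?_)
        show ((1 / 2 : ℂ) * (2 / 3) ^ n) • (P n - (E - P n)) * q i = _
        rw [smul_mul_assoc, sub_mul, sub_mul, hPq, hEq]
      rw [e1, norm_sub_rev]
      exact hp2 i N
    exact tendsto_nhds_unique h3 h4

/-- **Sums along an orthogonal family.** -/
theorem diag_sum (hsa : PSa A) (hsup : PSupO A) {ι : Type u} {q : ι → A} {E : A}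
    (hq : ∀ i, PJ (q i)) (ho : ∀ i j, i ≠ j → q i * q j = 0) (hE : IsSup q E) {x : ι → A} {M : ℝ}
    (h1 : ∀ i, q i * x i = x i) (h2 : ∀ i, x i * q i = x i) (hM : ∀ i, ‖x i‖ ≤ M) :
    ∃ X : A, E * X = X ∧ X * E = X ∧ (∀ i, q i * X = x i) ∧ ∀ i, X * q i = x i := by
  obtain ⟨m, hm⟩ : ∃ m : ℝ, m = max M 1 := ⟨_, rfl⟩
  have hm0 : 0 < m := by rw [hm]; exact lt_of_lt_of_le one_pos (le_max_right _ _)
  have hMm : ∀ i, ‖x i‖ ≤ m := fun i => (hM i).trans (by rw [hm]; exact le_max_left _ _)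
  have hq1 : ∀ i, star (x i) * q i = star (x i) := fun i => star_absorb_left (hq i) (h1 i)
  have hc : ((m : ℝ) : ℂ) ≠ 0 := by exact_mod_cast hm0.ne'
  let c : ℂ := ((2 * m : ℝ) : ℂ)⁻¹
  have hcs : star c = c := by
    show star (((2 * m : ℝ) : ℂ)⁻¹) = ((2 * m : ℝ) : ℂ)⁻¹
    rw [star_inv₀]
    congr 1
    exact Complex.conj_ofReal _
  have hcn : ‖c‖ = (2 * m)⁻¹ := by
    show ‖((2 * m : ℝ) : ℂ)⁻¹‖ = _
    rw [norm_inv, Complex.norm_real, Real.norm_of_nonneg (by positivity)]
  have hc2 : ((2 * m : ℝ) : ℂ) * c = 1 := by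
    show ((2 * m : ℝ) : ℂ) * ((2 * m : ℝ) : ℂ)⁻¹ = 1
    refine mul_inv_cancel₀ ?_
    exact_mod_cast (by positivity : (2 * m : ℝ) ≠ 0)
  obtain ⟨X1, hX1, hX1E, hX1q⟩ := diag_sa hsa hsup hq ho hE
    (x := fun i => c • (x i + star (x i)))
    (fun i => by rw [star_smul, star_add, star_star, hcs, add_comm])
    (fun i => by rw [smul_mul_assoc, add_mul, h2, hq1])
    (fun i => by
      rw [norm_smul, hcn, inv_mul_le_iff₀ (by positivity)]
      have := norm_add_le (x i) (star (x i))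
      rw [norm_star] at this
      linarith [hMm i])
  obtain ⟨X2, hX2, hX2E, hX2q⟩ := diag_sa hsa hsup hq ho hE
    (x := fun i => (-(Complex.I * c)) • (x i - star (x i)))
    (fun i => by
      have : star (-(Complex.I * c)) = Complex.I * c := by
        have hI : star Complex.I = -Complex.I := Complex.conj_I
        rw [star_neg, star_mul, hcs, hI]; ring
      rw [star_smul, star_sub, star_star, this, neg_smul, ← smul_neg]
      congr 1
      abel)
    (fun i => by rw [smul_mul_assoc, sub_mul, h2, hq1])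
    (fun i => by
      rw [norm_smul, norm_neg, norm_mul, Complex.norm_I, one_mul, hcn, inv_mul_le_iff₀ (by positivity)]
      have := norm_sub_le (x i) (star (x i))
      rw [norm_star] at this
      linarith [hMm i])
  have hXE : (((m : ℝ) : ℂ) • (X1 + Complex.I • X2)) * E = ((m : ℝ) : ℂ) • (X1 + Complex.I • X2) := by
    rw [smul_mul_assoc, add_mul, smul_mul_assoc, hX1E, hX2E]
  have hEX1 : E * X1 = X1 := by
    have := star_absorb_right hE.1 hX1E
    rwa [hX1] at this
  have hEX2 : E * X2 = X2 := by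
    have := star_absorb_right hE.1 hX2E
    rwa [hX2] at this
  have hEX : E * (((m : ℝ) : ℂ) • (X1 + Complex.I • X2)) = ((m : ℝ) : ℂ) • (X1 + Complex.I • X2) := by
    rw [mul_smul_comm, mul_add, mul_smul_comm, hEX1, hEX2]
  have hval : ∀ i, ((m : ℝ) : ℂ) • (c • (x i + star (x i))
      + Complex.I • ((-(Complex.I * c)) • (x i - star (x i)))) = x i := by
    intro i
    have e1 : Complex.I * -(Complex.I * c) = c := by
      have := Complex.I_mul_I
      linear_combination (-c) * this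
    rw [smul_smul Complex.I, e1, ← smul_add]
    have e2 : x i + star (x i) + (x i - star (x i)) = (2 : ℂ) • x i := by
      rw [two_smul]; abel
    rw [e2, smul_smul, smul_smul]
    have e3 : ((m : ℝ) : ℂ) * c * 2 = 1 := by
      have := hc2
      push_cast at this
      linear_combination this
    rw [e3, one_smul]
  refine ⟨((m : ℝ) : ℂ) • (X1 + Complex.I • X2), hEX, hXE, fun i => ?_, fun i => ?_⟩
  · have e1 : q i * X1 = c • (x i + star (x i)) := by
      have := congrArg star (hX1q i)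
      rw [star_mul, hX1, PJ.star (hq i), star_smul, star_add, star_star, hcs] at this
      rw [this, add_comm]
    have e2 : q i * X2 = (-(Complex.I * c)) • (x i - star (x i)) := by
      have := congrArg star (hX2q i)
      rw [star_mul, hX2, PJ.star (hq i), star_smul, star_sub, star_star] at this
      have h3 : star (-(Complex.I * c)) = Complex.I * c := by
        have hI : star Complex.I = -Complex.I := Complex.conj_I
        rw [star_neg, star_mul, hcs, hI]; ring
      rw [h3] at this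
      rw [this, neg_smul, ← smul_neg]
      congr 1
      abel
    rw [mul_smul_comm, mul_add, mul_smul_comm, e1, e2]
    exact hval i
  · rw [smul_mul_assoc, add_mul, smul_mul_assoc, hX1q, hX2q]
    exact hval i

/-- two elements under `E` which agree on the family are equal. -/
theorem diag_ext {ι : Type*} {q : ι → A} {E : A} (hE : IsSup q E) {x y : A} (hx : x * E = x)
    (hy : y * E = y) (h : ∀ i, x * q i = y * q i) : x = y := by
  have h1 : (x - y) * E = 0 := hE.2.2 _ (fun i => by rw [sub_mul, h i, sub_self])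
  rw [sub_mul, hx, hy, sub_eq_zero] at h1
  exact h1

end Pool.Agent.K1H31.AW
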