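import Pool.Agent.K1H31.AW.Halv
import Pool.Agent.R456.CL.Fin

/-!
# AW*-algebras: finite / properly infinite decomposition, finite projections are clean
-/

set_option autoImplicit false

namespace Pool.Agent.K1H31.AW

open Pool.Agent.R456.CL

universe u

variable {A : Type u} [CStarAlgebra A]

/-- the supremum of a family of central projections is central -/
lemma cen_sup {ι : Type*} {z : ι → A} {Y : A} (hz : ∀ i, Cen (z i)) (hY : IsSup z Y) : Cen Y := by
  refine ⟨hY.1, fun x => ?_⟩
  have key : ∀ y : A, Y * y * Y = y * Y := by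
    intro y
    have h : ((1 - Y) * y) * Y = 0 := by
      refine hY.2.2 _ (fun i => ?_)
      have hYi : Y * z i = z i := Le.rev (hz i).1 hY.1 (hY.2.1 i)
      calc (1 - Y) * y * z i = (1 - Y) * (z i * y) := by rw [mul_assoc, (hz i).2 y]
        _ = 0 := by rw [← mul_assoc, sub_mul, one_mul, hYi, sub_self, zero_mul]
    rw [sub_mul, one_mul, sub_mul, sub_eq_zero] at h
    exact h.symm
  have h1 := key x
  have h2 := congrArg star (key (star x))
  simp only [star_mul, star_star, PJ.star hY.1] at h2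
  rw [← h1, mul_assoc, h2]

lemma isSup_cen {ι : Type*} {z : ι → A} {Y g : A} (hz : ∀ i, Cen (z i)) (hY : IsSup z Y)
    (hg : PJ g) : IsSup (fun i => z i * g) (Y * g) := by
  have hYc := cen_sup hz hY
  refine ⟨hYc.pj hg, fun i => ?_, fun x hx => ?_⟩
  · show z i * g * (Y * g) = z i * g
    calc z i * g * (Y * g) = z i * (g * Y) * g := by simp only [mul_assoc]
      _ = z i * (Y * g) * g := by rw [hYc.2 g]
      _ = (z i * Y) * (g * g) := by simp only [mul_assoc]
      _ = z i * g := by rw [hY.2.1 i, PJ.mul_self hg]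
  · have h := hY.2.2 (x * g) (fun i => by
      rw [mul_assoc, ← (hz i).2 g]; exact hx i)
    rw [hYc.2 g, ← mul_assoc]
    exact h

/-- **finite / properly infinite decomposition** -/
theorem dec (hA : Good A) {g : A} (hg : PJ g) : ∃ z : A, Cen z ∧ ¬ Infin (z * g) ∧
    Halv ((1 - z) * g) := by
  classical
  let C : Set (Set A) := {S | (∀ z ∈ S, Cen z ∧ Halv (z * g)) ∧
    ∀ z ∈ S, ∀ y ∈ S, z ≠ y → z * y = 0}
  obtain ⟨S, hS⟩ : ∃ S, Maximal (· ∈ C) S := by
    refine zorn_subset C ?_
    intro c hc hchain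
    refine ⟨⋃₀ c, ⟨?_, ?_⟩, fun s hs => Set.subset_sUnion_of_mem hs⟩
    · rintro p ⟨s, hs, hps⟩
      exact (hc hs).1 p hps
    · rintro p ⟨s, hs, hps⟩ q ⟨t, ht, hqt⟩ hpq
      rcases hchain.total hs ht with h | h
      · exact (hc ht).2 p (h hps) q hqt hpq
      · exact (hc hs).2 p hps q (h hqt) hpq
  have hSC : S ∈ C := hS.1
  have hz : ∀ i : S, Cen (i : A) := fun i => (hSC.1 i i.2).1
  obtain ⟨Y, hY⟩ := hA.sup S (fun i => (i : A)) (fun i => (hz i).1)
  have hYc := cen_sup hz hY
  have hHY : Halv (Y * g) := by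
    refine Halv.sum hA (g := fun i : S => (i : A) * g) (fun i => (hz i).pj hg) ?_
      (isSup_cen hz hY hg) (fun i => (hSC.1 i i.2).2)
    intro i j hij
    have h0 := hSC.2 i i.2 j j.2 (fun h => hij (Subtype.ext h))
    calc (i : A) * g * ((j : A) * g) = (i : A) * (g * (j : A)) * g := by simp only [mul_assoc]
      _ = (i : A) * ((j : A) * g) * g := by rw [(hz j).2 g]
      _ = ((i : A) * (j : A)) * g * g := by simp only [mul_assoc]
      _ = 0 := by rw [h0]; simp
  refine ⟨1 - Y, hYc.compl, ?_, by rw [sub_sub_cancel]; exact hHY⟩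
  intro hinf
  obtain ⟨z, hz1, hz2, hz3⟩ := inf_piece hA (hYc.compl.pj hg) hinf
  rw [← mul_assoc] at hz2 hz3
  have hzY : z * (1 - Y) * Y = 0 := by
    rw [mul_assoc, sub_mul, one_mul, hYc.zz, sub_self, mul_zero]
  have hc : Cen (z * (1 - Y)) := hz1.mul hYc.compl
  have hci : ∀ i : S, z * (1 - Y) * (i : A) = 0 := by
    intro i
    have h1 : (i : A) = Y * (i : A) := (Le.rev (hz i).1 hY.1 (hY.2.1 i)).symm
    rw [h1, ← mul_assoc, hzY, zero_mul]
  have hins : insert (z * (1 - Y)) S ∈ C := by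
    refine ⟨?_, ?_⟩
    · rintro p (rfl | hp')
      · exact ⟨hc, hz3⟩
      · exact hSC.1 p hp'
    · rintro p (rfl | hp') q (rfl | hq') hpq
      · exact absurd rfl hpq
      · exact hci ⟨q, hq'⟩
      · rw [← hc.2]; exact hci ⟨p, hp'⟩
      · exact hSC.2 p hp' q hq' hpq
  have hmem : z * (1 - Y) ∈ S := hS.2 hins (Set.subset_insert _ _) (Set.mem_insert _ _)
  have h0 : z * (1 - Y) = 0 := by
    have := hci ⟨_, hmem⟩
    rw [← hc.zz]; exact this
  exact hz2 (by rw [h0, zero_mul])

lemma eqv_add {a b c d : A} (ha : PJ a) (hb : PJ b) (hc : PJ c) (hd : PJ d) (hac : a * c = 0)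
    (hbd : b * d = 0) (h1 : Eqv a b) (h2 : Eqv c d) : Eqv (a + c) (b + d) := by
  obtain ⟨v, v1, v2⟩ := h1
  obtain ⟨w, w1, w2⟩ := h2
  have bv : b * v = v := pi_left ha v1 v2
  have va : v * a = v := pi_right ha v1
  have dw : d * w = w := pi_left hc w1 w2
  have wc : w * c = w := pi_right hc w1
  have e1 : star v * w = 0 := by
    rw [← star_absorb_left hb bv, ← dw, mul_assoc, ← mul_assoc b, hbd, zero_mul, mul_zero]
  have e2 : star w * v = 0 := by
    have := congrArg star e1
    rwa [star_mul, star_star, star_zero] at this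
  have e3 : v * star w = 0 := by
    rw [← va, ← star_absorb_right hc wc, mul_assoc, ← mul_assoc a, hac, zero_mul, mul_zero]
  have e4 : w * star v = 0 := by
    have := congrArg star e3
    rwa [star_mul, star_star, star_zero] at this
  refine ⟨v + w, ?_, ?_⟩
  · rw [star_add, add_mul, mul_add, mul_add, v1, w1, e1, e2]; abel
  · rw [star_add, add_mul, mul_add, mul_add, v2, w2, e3, e4]; abel

lemma fin_compl1 {g k h v : A} (hg : PJ g) (hk : PJ k) (hh : PJ h)
    (hkg : Le k g) (hhg : Le h g) (hfin : ¬ Infin g) (hv1 : star v * v = k)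
    (hv2 : v * star v = h) (hs : Sub (g - k) (g - h)) : Eqv (g - k) (g - h) := by
  have hpe : PJ (g - k) := pj_sub hk hg hkg
  have hpf : PJ (g - h) := pj_sub hh hg hhg
  obtain ⟨o1, o2⟩ : k * (g - k) = 0 ∧ (g - k) * k = 0 := by
    constructor
    · rw [mul_sub, hkg, PJ.mul_self hk, sub_self]
    · rw [sub_mul, hkg.rev hk hg, PJ.mul_self hk, sub_self]
  obtain ⟨o3, o4⟩ : h * (g - h) = 0 ∧ (g - h) * h = 0 := by
    constructor
    · rw [mul_sub, hhg, PJ.mul_self hh, sub_self]
    · rw [sub_mul, hhg.rev hh hg, PJ.mul_self hh, sub_self]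
  have hhv : h * v = v := pi_left hk hv1 hv2
  have hvk : v * k = v := pi_right hk hv1
  have hsvh : star v * h = star v := star_absorb_left hh hhv
  have hksv : k * star v = star v := star_absorb_right hk hvk
  have hekg : (g - k) * g = g - k := by rw [sub_mul, PJ.mul_self hg, hkg]
  have hehg : (g - h) * g = g - h := by rw [sub_mul, PJ.mul_self hg, hhg]
  obtain ⟨u, hu1, hu2⟩ := hs
  have hfu : (g - h) * u = u := pi_le hpe hpf hu1 hu2
  have hue : u * (g - k) = u := pi_right hpe hu1
  have hsuf : star u * (g - h) = star u := star_absorb_left hpf hfu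
  have hesu : (g - k) * star u = star u := star_absorb_right hpe hue
  have c1 : star v * u = 0 := by
    rw [← hsvh, ← hfu, mul_assoc, ← mul_assoc h, o3, zero_mul, mul_zero]
  have c2 : star u * v = 0 := by
    rw [← hsuf, ← hhv, mul_assoc, ← mul_assoc (g - h), o4, zero_mul, mul_zero]
  have c3 : v * star u = 0 := by
    rw [← hvk, ← hesu, mul_assoc, ← mul_assoc k, o1, zero_mul, mul_zero]
  have c4 : u * star v = 0 := by
    rw [← hue, ← hksv, mul_assoc, ← mul_assoc (g - k), o2, zero_mul, mul_zero]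
  have z1 : star (v + u) * (v + u) = g := by
    rw [star_add, add_mul, mul_add, mul_add, hv1, c1, c2, hu1]; abel
  have z2 : (v + u) * star (v + u) = h + u * star u := by
    rw [star_add, add_mul, mul_add, mul_add, hv2, c3, c4]; abel
  by_cases hne : h + u * star u = g
  · exact ⟨u, hu1, by rw [← hne]; abel⟩
  · exfalso
    apply hfin
    refine ⟨v + u, z1, ?_, by rw [z2]; exact hne⟩
    rw [z2, add_mul, hhg, ← hu2, mul_assoc, hehg, hu2]

lemma fin_compl' (hA : Good A) {g k h v : A} (hg : PJ g) (hk : PJ k) (hh : PJ h)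
    (hkg : Le k g) (hhg : Le h g) (hfin : ¬ Infin g) (hv1 : star v * v = k)
    (hv2 : v * star v = h) : Eqv (g - k) (g - h) := by
  have hpe : PJ (g - k) := pj_sub hk hg hkg
  have hpf : PJ (g - h) := pj_sub hh hg hhg
  obtain ⟨z, hz, h1, h2⟩ := GC hA hpe hpf
  have one : ∀ y : A, Cen y → ¬ Infin (y * g) := fun y hy =>
    not_infin_sub hg (hy.pj hg) (hy.le_self hg) hfin
  have e1 : Eqv (z * (g - k)) (z * (g - h)) := by
    rw [mul_sub, mul_sub] at *
    exact fin_compl1 (v := z * v) (hz.pj hg) (hz.pj hk) (hz.pj hh) (hz.le hkg) (hz.le hhg)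
      (one z hz) (by rw [hz.star_mul, hz.mul_mul, hv1]) (by rw [hz.star_mul, hz.mul_mul, hv2]) h1
  have hz' := hz.compl
  have e2 : Eqv ((1 - z) * (g - h)) ((1 - z) * (g - k)) := by
    rw [mul_sub (1 - z) g h, mul_sub (1 - z) g k] at *
    exact fin_compl1 (v := (1 - z) * star v) (hz'.pj hg) (hz'.pj hh) (hz'.pj hk) (hz'.le hhg)
      (hz'.le hkg) (one _ hz') (by rw [hz'.star_mul, hz'.mul_mul, star_star, hv2])
      (by rw [hz'.star_mul, hz'.mul_mul, star_star, hv1]) h2
  have := eqv_add (hz.pj hpe) (hz.pj hpf) (hz'.pj hpe) (hz'.pj hpf) (hz.orth _ _) (hz.orth _ _) e1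
    (eqv_symm e2)
  rwa [Cen.compl_split, Cen.compl_split] at this

/-- finite projections are clean -/
theorem fin' (hA : Good A) {g T : A} (hg : PJ g) (hfin : ¬ Infin g) (hgT : g * T = T)
    (hTg : T * g = T) : CleanIn g T := by
  -- first cut
  obtain ⟨k, w, c, hk, hkg, hw, hwg, hwT, hkc, hcw, hcT, hTc, hTn⟩ :=
    cut_pack hA.cut hg hg hTg hgT (ε := 1 / 4) (by norm_num)
  have hh : PJ (w * star w) := pi_final hk hw
  obtain ⟨h, hhdef⟩ : ∃ h, h = w * star w := ⟨_, rfl⟩
  rw [← hhdef] at hwg hwT hcw hTc hh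
  have hgg := PJ.mul_self hg
  have hkk := PJ.mul_self hk
  have hhh := PJ.mul_self hh
  have he : PJ (g - k) := pj_sub hk hg hkg
  have hf : PJ (g - h) := pj_sub hh hg hwg
  obtain ⟨oke, oek⟩ := le_sub_orth hk hg hkg
  obtain ⟨ohf, ofh⟩ := le_sub_orth hh hg hwg
  have hEq : Eqv (g - k) (g - h) := fin_compl' hA hg hk hh hkg hwg hfin hw hhdef.symm
  obtain ⟨e, hedef⟩ : ∃ e, e = g - k := ⟨_, rfl⟩
  obtain ⟨f, hfdef⟩ : ∃ f, f = g - h := ⟨_, rfl⟩
  rw [← hedef] at he oke oek hEq hTn
  rw [← hfdef] at hf ohf ofh hEq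
  have hee := PJ.mul_self he
  have hff := PJ.mul_self hf
  have heg : Le e g := by show e * g = e; rw [hedef, sub_mul, hgg, hkg]
  have hfg : Le f g := by show f * g = f; rw [hfdef, sub_mul, hgg, hwg]
  have hge : g * e = e := heg.rev he hg
  have hgf : g * f = f := hfg.rev hf hg
  have hke : k + e = g := by rw [hedef]; abel
  have hhf : h + f = g := by rw [hfdef]; abel
  have hfine : ¬ Infin e := not_infin_sub hg he heg hfin
  -- h T e = 0, f T e = T e
  have hhTe : h * T * e = 0 := by rw [hwT, mul_assoc, oke, mul_zero]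
  have hfTe : f * (T * e) = T * e := by
    have : (h + f) * (T * e) = T * e := by rw [hhf, ← mul_assoc, hgT]
    rw [add_mul, ← mul_assoc, hhTe, zero_add] at this
    exact this
  have hnTe : ‖T * e‖ ≤ 1 / 4 := hTn
  -- second cut
  obtain ⟨x, hx⟩ : ∃ x, x = f * e - T * e := ⟨_, rfl⟩
  have hxe : x * e = x := by rw [hx, sub_mul, mul_assoc, hee, mul_assoc, hee]
  have hfx : f * x = x := by rw [hx, mul_sub, ← mul_assoc, hff, hfTe]
  obtain ⟨k', w', c', hk', hk'e, hw', hw'f, hw'x, hk'c', hc'w', hc'x, hxc', hxn⟩ :=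
    cut_pack hA.cut he hf hxe hfx (ε := 1 / 4) (by norm_num)
  have hh' : PJ (w' * star w') := pi_final hk' hw'
  obtain ⟨h', hh'def⟩ : ∃ h', h' = w' * star w' := ⟨_, rfl⟩
  rw [← hh'def] at hw'f hw'x hc'w' hxc' hh'
  have hkk' := PJ.mul_self hk'
  have hhh' := PJ.mul_self hh'
  have he2 : PJ (e - k') := pj_sub hk' he hk'e
  have hf2 : PJ (f - h') := pj_sub hh' hf hw'f
  obtain ⟨ok1, ok2⟩ := le_sub_orth hk' he hk'e
  obtain ⟨oh1, oh2⟩ := le_sub_orth hh' hf hw'f
  -- e'' ~ f''
  obtain ⟨v, hv1, hv2⟩ := hEq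
  have hfv : f * v = v := pi_left he hv1 hv2
  have hve : v * e = v := pi_right he hv1
  have hsvf : star v * f = star v := star_absorb_left hf hfv
  have hesv : e * star v = star v := star_absorb_right he hve
  have hEq2 : Eqv (e - k') (f - h') := by
    obtain ⟨m, hm⟩ : ∃ m, m = star v * h' * v := ⟨_, rfl⟩
    have hfh' : f * h' = h' := hw'f.rev hh' hf
    have hmm : star (h' * v) * (h' * v) = m := by
      rw [star_mul, PJ.star hh', hm]
      calc star v * h' * (h' * v) = star v * (h' * h') * v := by simp only [mul_assoc]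
        _ = _ := by rw [hhh']
    have hmPJ : PJ m := by
      refine ⟨?_, ?_⟩
      · unfold IsIdempotentElem
        rw [hm]
        calc star v * h' * v * (star v * h' * v) = star v * h' * (v * star v) * h' * v := by
              simp only [mul_assoc]
          _ = star v * (h' * f) * h' * v := by rw [hv2]; simp only [mul_assoc]
          _ = star v * h' * v := by rw [hw'f, mul_assoc (star v), hhh']
      · unfold IsSelfAdjoint
        rw [hm, star_mul, star_mul, star_star, PJ.star hh', mul_assoc]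
    have hme : Le m e := by show m * e = m; rw [hm, mul_assoc, hve]
    have i1 : star (star v * w') * (star v * w') = k' := by
      rw [star_mul, star_star]
      calc star w' * v * (star v * w') = star w' * (v * star v) * w' := by simp only [mul_assoc]
        _ = star w' * (f * w') := by rw [hv2, mul_assoc]
        _ = k' := by rw [pi_le hk' hf hw' (by rw [← hh'def]; exact hw'f), hw']
    have i2 : (star v * w') * star (star v * w') = m := by
      rw [star_mul, star_star, hm, hh'def]; simp only [mul_assoc]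
    have j1 : Eqv (e - k') (e - m) :=
      fin_compl' hA he hk' hmPJ hk'e hme hfine i1 i2
    have j2 : Eqv (e - m) (f - h') := by
      refine ⟨v * (e - m), ?_, ?_⟩
      · have hem : PJ (e - m) := pj_sub hmPJ he hme
        rw [star_mul, PJ.star hem]
        calc (e - m) * star v * (v * (e - m)) = (e - m) * (star v * v) * (e - m) := by
              simp only [mul_assoc]
          _ = (e - m) * (e * (e - m)) := by rw [hv1, mul_assoc]
          _ = e - m := by
            rw [mul_sub e e m, hee, hme.rev hmPJ he, PJ.mul_self hem]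
      · have hem : PJ (e - m) := pj_sub hmPJ he hme
        rw [star_mul, PJ.star hem]
        calc v * (e - m) * ((e - m) * star v) = v * ((e - m) * (e - m)) * star v := by
              simp only [mul_assoc]
          _ = v * e * star v - v * m * star v := by rw [PJ.mul_self hem, mul_sub, sub_mul]
          _ = f - h' := by
            have h5 : v * m * star v = (v * star v) * h' * (v * star v) := by
              rw [hm]; simp only [mul_assoc]
            rw [hve, h5, hv2, hfh', hw'f]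
    exact eqv_trans he2 (pj_sub hmPJ he hme) j1 j2
  obtain ⟨e2, he2def⟩ : ∃ e2, e2 = e - k' := ⟨_, rfl⟩
  obtain ⟨f2, hf2def⟩ : ∃ f2, f2 = f - h' := ⟨_, rfl⟩
  rw [← he2def] at he2 ok1 ok2 hEq2 hxn
  rw [← hf2def] at hf2 oh1 oh2 hEq2
  have hk'e2 : k' + e2 = e := by rw [he2def]; abel
  have hh'f2 : h' + f2 = f := by rw [hf2def]; abel
  have hee2 := PJ.mul_self he2
  have hff2 := PJ.mul_self hf2
  have he2e : e2 * e = e2 := by rw [he2def, sub_mul, hee, hk'e]
  have hee2' : e * e2 = e2 := Le.rev he2 he he2e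
  have hf2f : f2 * f = f2 := by rw [hf2def, sub_mul, hff, hw'f]
  have hff2' : f * f2 = f2 := Le.rev hf2 hf hf2f
  obtain ⟨v2, hv21, hv22⟩ := hEq2
  have hf2v2 : f2 * v2 = v2 := pi_left he2 hv21 hv22
  have hv2e2 : v2 * e2 = v2 := pi_right he2 hv21
  have hfv2 : f * v2 = v2 := by rw [← hf2v2, ← mul_assoc, hff2']
  -- y0
  have hfe2n : ‖f * e2‖ ≤ 1 / 2 := by
    have h1 : f * e2 = x * e2 + T * e * e2 := by
      rw [hx, sub_mul, mul_assoc f, hee2']; abel
    rw [h1]
    have h2 : ‖T * e * e2‖ ≤ 1 / 4 * 1 :=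
      (norm_mul_le _ _).trans (mul_le_mul hnTe (pj_norm_le he2) (norm_nonneg _) (by norm_num))
    linarith [norm_add_le (x * e2) (T * e * e2)]
  have hIe2 : Iso e2 e2 (e2 + (- (e2 * f * e2))) := by
    refine iso_neumann he2 ?_ ?_ ?_
    · rw [mul_neg, ← mul_assoc, ← mul_assoc, hee2]
    · rw [neg_mul, mul_assoc, hee2]
    · rw [norm_neg, mul_assoc]
      have : ‖e2 * (f * e2)‖ ≤ 1 * (1 / 2) :=
        (norm_mul_le _ _).trans (mul_le_mul (pj_norm_le he2) hfe2n (norm_nonneg _) (by norm_num))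
      linarith
  obtain ⟨_, _, i0, hi1, hi2, hi3, hi4⟩ := hIe2
  obtain ⟨y0, hy0⟩ : ∃ y0, y0 = i0 * (e2 * h) := ⟨_, rfl⟩
  have hy0h : y0 * h = y0 := by rw [hy0, mul_assoc, mul_assoc, hhh]
  have hy0f : y0 * f = 0 := by rw [← hy0h, mul_assoc, ohf, mul_zero]
  have hy0g : y0 * g = y0 := by rw [← hhf, mul_add, hy0h, hy0f, add_zero]
  have hge2 : g * e2 = e2 := by rw [← hee2', ← mul_assoc, hge]
  have he2y0 : e2 * y0 = y0 := by rw [hy0, ← mul_assoc, hi1]
  have hy0e2 : y0 * e2 = e2 := by
    have h1 : e2 * h * e2 = e2 + (-(e2 * f * e2)) := by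
      have : h = g - f := by rw [← hhf]; abel
      rw [this, mul_sub, sub_mul, mul_assoc e2 g, hge2, hee2]; abel
    rw [hy0, mul_assoc, h1, hi3]
  -- q
  obtain ⟨q, hq⟩ : ∃ q, q = f + v2 * y0 := ⟨_, rfl⟩
  have hy0v2 : y0 * v2 = 0 := by rw [← hfv2, ← mul_assoc, hy0f, zero_mul]
  have hqq : q * q = q := by
    rw [hq, mul_add, add_mul, add_mul, hff, ← mul_assoc f, hfv2]
    have h1 : v2 * y0 * f = 0 := by rw [mul_assoc, hy0f, mul_zero]
    have h2 : v2 * y0 * (v2 * y0) = 0 := by
      calc v2 * y0 * (v2 * y0) = v2 * (y0 * v2) * y0 := by simp only [mul_assoc]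
        _ = 0 := by rw [hy0v2]; simp
    rw [h1, h2]; abel
  have hfq : f * q = q := by rw [hq, mul_add, hff, ← mul_assoc, hfv2]
  have hgq : g * q = q := by rw [← hfq, ← mul_assoc, hgf]
  have hqg : q * g = q := by rw [hq, add_mul, hfg, mul_assoc, hy0g]
  have hhq : h * q = 0 := by rw [← hfq, ← mul_assoc, ohf, zero_mul]
  -- m is an isomorphism from e to f
  obtain ⟨m, hm⟩ : ∃ m, m = x + v2 * y0 * e := ⟨_, rfl⟩
  have hfm : f * m = m := by
    rw [hm, mul_add, hfx, ← mul_assoc, ← mul_assoc, hfv2]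
  have hme : m * e = m := by
    rw [hm, add_mul, hxe, mul_assoc (v2 * y0), hee]
  have hh'v2 : h' * v2 = 0 := by rw [← hf2v2, ← mul_assoc, oh1, zero_mul]
  have hh'm : h' * m = x * k' := by
    rw [hm, mul_add, hw'x, ← mul_assoc, ← mul_assoc, hh'v2]; simp
  have hmIso : Iso e f m := by
    rw [← hk'e2, ← hh'f2]
    have p11 : h' * m * k' = x * k' := by rw [hh'm, mul_assoc, hkk']
    have p12 : h' * m * e2 = 0 := by rw [hh'm, mul_assoc, ok1, mul_zero]
    refine schur (c := c') hkk' hee2 ok1 ok2 hhh' hff2 oh1 oh2 ?_ ?_ hk'c' hc'w' ?_ ?_ ?_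
    · rw [hh'f2]; exact hfm
    · rw [hk'e2]; exact hme
    · rw [p11]; exact hc'x
    · rw [p11]; exact hxc'
    · rw [p12, mul_zero, sub_zero]
      have p22 : f2 * m * e2 = v2 * (e2 + star v2 * (f2 * x * e2)) := by
        have h1 : v2 * (star v2 * (f2 * x * e2)) = f2 * x * e2 := by
          rw [← mul_assoc, hv22, ← mul_assoc, ← mul_assoc, hff2]
        rw [mul_add, h1, hm, mul_add, add_mul, hv2e2]
        have h2 : f2 * (v2 * y0 * e) * e2 = v2 := by
          calc f2 * (v2 * y0 * e) * e2 = (f2 * v2) * (y0 * (e * e2)) := by simp only [mul_assoc]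
            _ = v2 := by rw [hf2v2, hee2', hy0e2, hv2e2]
        rw [h2]; abel
      rw [p22]
      refine iso_mul (f := e2) (iso_neumann he2 ?_ ?_ ?_) ?_
      · rw [← mul_assoc, star_absorb_right he2 hv2e2]
      · simp only [mul_assoc, hee2]
      · have n1 : ‖f2 * x * e2‖ ≤ 1 * (1 / 4) := by
          rw [mul_assoc]
          exact (norm_mul_le _ _).trans (mul_le_mul (pj_norm_le hf2) hxn (norm_nonneg _)
            (by norm_num))
        have n2 : ‖star v2‖ ≤ 1 := by rw [norm_star]; exact pi_norm_le he2 hv21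
        have n3 : ‖star v2 * (f2 * x * e2)‖ ≤ 1 * (1 * (1 / 4)) :=
          (norm_mul_le _ _).trans (mul_le_mul n2 n1 (norm_nonneg _) (by norm_num))
        linarith
      · exact ⟨hf2v2, hv2e2, star v2, star_absorb_right he2 hv2e2, star_absorb_left hf2 hf2v2,
          hv21, hv22⟩
  -- conclusion
  refine ⟨q, hgq, hqg, hqq, ?_⟩
  have q11 : h * (T - q) * k = T * k := by
    rw [mul_sub, hhq, sub_zero, hwT, mul_assoc, hkk]
  have q12 : h * (T - q) * e = 0 := by
    rw [mul_sub, hhq, sub_zero, hhTe]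
  have key : Iso (k + e) (h + f) (T - q) := by
    refine schur (c := c) hkk hee oke oek hhh hff ohf ofh ?_ ?_ hkc hcw ?_ ?_ ?_
    · rw [hhf, mul_sub, hgT, hgq]
    · rw [hke, sub_mul, hTg, hqg]
    · rw [q11]; exact hcT
    · rw [q11]; exact hTc
    · rw [q12, mul_zero, sub_zero]
      have : f * (T - q) * e = (-1 : ℂ) • m := by
        rw [mul_sub, sub_mul, mul_assoc f T e, hfTe, hfq, hq, hm, hx, add_mul]
        rw [neg_smul, one_smul]; abel
      rw [this]
      exact iso_smul (by norm_num) hmIso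
  rwa [hke, hhf] at key


end Pool.Agent.K1H31.AW
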