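import Pool.Agent.K1H31.AW.DS
import Pool.Agent.R456.CL.LR
import Pool.Agent.R456.CL.CmpO

/-!
# AW*-algebras: support projections, the parallelogram law, generalized comparability
-/

set_option autoImplicit false

namespace Pool.Agent.K1H31.AW

open Pool.Agent.R456.CL

universe u

variable {A : Type u} [CStarAlgebra A]

/-- left support -/
def IsLP (x l : A) : Prop := PJ l ∧ l * x = x ∧ ∀ y : A, y * x = 0 → y * l = 0

/-- right support -/
def IsRP (x r : A) : Prop := PJ r ∧ x * r = x ∧ ∀ y : A, x * y = 0 → r * y = 0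

open LR in
/-- supports of an element, with a spectral family. -/
theorem lr_family (hcut : PCut A) (hsup : PSup A) (x : A) : ∃ (K : Type u) (k s : K → A) (r l : A),
    (∀ i, PJ (k i)) ∧ (∀ i j, i ≠ j → k i * k j = 0) ∧
    (∀ i, k i * (star x * x) = (star x * x) * k i) ∧
    (∀ i, k i * s i = s i ∧ s i * k i = s i ∧ star (s i) = s i ∧ s i * s i * (star x * x) = k i ∧
      (star x * x) * (s i * s i) = k i ∧ s i * (star x * x) * s i = k i) ∧
    IsSup k r ∧ IsSup (fun i => x * s i * star (x * s i)) l ∧ IsRP x r ∧ IsLP x l := by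
  obtain ⟨a, ha⟩ : ∃ a : A, a = star x * x := ⟨_, rfl⟩
  rw [← ha]
  have hsa : star a = a := by rw [ha, star_mul, star_star]
  obtain ⟨K, hK⟩ := fam_max a
  have hKm : K ∈ Fam a := hK.prop
  have hgood : ∀ i : K, Good a i.1 := fun i => hKm.1 i.1 i.2
  choose s hs1 hs2 hs3 hs4 hs5 hs6 using fun i : K => (hgood i).2.2.2
  have hp : ∀ i : K, IsStarProjection i.1 := fun i => (hgood i).1
  have hcomm : ∀ i : K, i.1 * a = a * i.1 := fun i => (hgood i).2.2.1
  have horth : ∀ i j : K, i ≠ j → i.1 * j.1 = 0 := fun i j hij =>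
    hKm.2 i.1 i.2 j.1 j.2 fun h => hij (Subtype.ext h)
  obtain ⟨r, hr⟩ := hsup K (fun i => i.1) hp
  have hrp : IsStarProjection r := hr.1
  have hrs : star r = r := hrp.isSelfAdjoint
  have hrr : r * r = r := hrp.isIdempotentElem
  have hkr : ∀ i : K, i.1 * r = i.1 := hr.2.1
  have hks : ∀ i : K, star i.1 = i.1 := fun i => (hp i).isSelfAdjoint
  have hrk : ∀ i : K, r * i.1 = i.1 := by
    intro i
    have h := congrArg star (hkr i)
    rwa [star_mul, hrs, hks] at h
  -- `r` commutes with `a`
  have h1 : (1 - r) * a * r = 0 := by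
    refine hr.2.2 _ fun i => ?_
    rw [mul_assoc, ← hcomm i, ← mul_assoc, sub_mul, one_mul, hrk i, sub_self, zero_mul]
  have h2 : a * r = r * a * r := by
    rw [sub_mul, sub_mul, one_mul, sub_eq_zero] at h1
    exact h1
  have h3 : r * a = r * a * r := by
    have h := congrArg star h2
    rw [star_mul, star_mul, star_mul, hrs, hsa, ← mul_assoc] at h
    exact h
  have hra : r * a = a * r := h3.trans h2.symm
  -- `x r = x`
  have hxr : x * r = x := by
    by_contra hne
    set y : A := x * (1 - r) with hy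
    have hy0 : y ≠ 0 := by
      intro h
      rw [hy, mul_sub, mul_one, sub_eq_zero] at h
      exact hne h.symm
    have hc1 : a * (1 - r) = (1 - r) * a := by
      rw [mul_sub, sub_mul, one_mul, mul_one, hra]
    have hc2 : (1 - r) * (1 - r) = 1 - r := by
      rw [mul_sub, mul_one, sub_mul, one_mul, hrr, sub_self, sub_zero]
    have hc3 : r * (1 - r) = 0 := by rw [mul_sub, mul_one, hrr, sub_self]
    have hyy : star y * y = (1 - r) * a := by
      rw [hy, star_mul, star_sub, star_one, hrs]
      calc (1 - r) * star x * (x * (1 - r)) = (1 - r) * (a * (1 - r)) := by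
            rw [ha]; simp only [mul_assoc]
        _ = (1 - r) * (1 - r) * a := by rw [hc1, mul_assoc]
        _ = (1 - r) * a := by rw [hc2]
    have hyy' : star y * y = a * (1 - r) := by
      rw [hyy, hc1]
    obtain ⟨k0, s0, hk0, t1, t2, t3, t4, t5, t6, t7, t8⟩ := hcut y (‖y‖ / 2)
      (by have := norm_pos_iff.2 hy0; linarith)
    have hk00 : k0 ≠ 0 := by
      rintro rfl
      rw [sub_zero, mul_one] at t8
      have := norm_pos_iff.2 hy0
      linarith
    have hrk0 : r * k0 = 0 := by
      calc r * k0 = r * ((1 - r) * a * (s0 * s0)) := by rw [← hyy, t6]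
        _ = r * (1 - r) * (a * (s0 * s0)) := by simp only [mul_assoc]
        _ = 0 := by rw [hc3, zero_mul]
    have hk0s : star k0 = k0 := hk0.isSelfAdjoint
    have hk0r : k0 * r = 0 := by
      have h := congrArg star hrk0
      rwa [star_mul, hrs, hk0s, star_zero] at h
    have hk1 : (1 - r) * k0 = k0 := by rw [sub_mul, one_mul, hrk0, sub_zero]
    have hk2 : k0 * (1 - r) = k0 := by rw [mul_sub, mul_one, hk0r, sub_zero]
    have hs1' : (1 - r) * s0 = s0 := by rw [← t1, ← mul_assoc, hk1]
    have hs2' : s0 * (1 - r) = s0 := by rw [← t2, mul_assoc, hk2]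
    have hg : Good a k0 := by
      refine ⟨hk0, hk00, ?_, s0, t1, t2, t3, ?_, ?_, ?_⟩
      · calc k0 * a = k0 * ((1 - r) * a) := by rw [← mul_assoc, hk2]
          _ = star y * y * k0 := by rw [← hyy, t4]
          _ = a * k0 := by rw [hyy', mul_assoc, hk1]
      · calc s0 * s0 * a = s0 * (s0 * (1 - r)) * a := by rw [hs2']
          _ = s0 * s0 * ((1 - r) * a) := by simp only [mul_assoc]
          _ = k0 := by rw [← hyy, t5]
      · calc a * (s0 * s0) = a * (((1 - r) * s0) * s0) := by rw [hs1']
          _ = a * (1 - r) * (s0 * s0) := by simp only [mul_assoc]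
          _ = k0 := by rw [← hyy', t6]
      · calc s0 * a * s0 = s0 * (1 - r) * a * s0 := by rw [hs2']
          _ = s0 * ((1 - r) * a) * s0 := by simp only [mul_assoc]
          _ = k0 := by rw [← hyy, t7]
    have hfam : insert k0 K ∈ Fam a := by
      refine ⟨?_, ?_⟩
      · rintro k (rfl | hk)
        · exact hg
        · exact hKm.1 k hk
      · rintro k (rfl | hk) k' (rfl | hk') hne'
        · exact absurd rfl hne'
        · have h := hrk ⟨k', hk'⟩
          simp only at h
          rw [← h, ← mul_assoc, hk0r, zero_mul]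
        · have h := hkr ⟨k, hk⟩
          simp only at h
          rw [← h, mul_assoc, hrk0, mul_zero]
        · exact hKm.2 k hk k' hk' hne'
    have hmem : k0 ∈ K := hK.2 hfam (Set.subset_insert k0 K) (Set.mem_insert k0 K)
    have := hkr ⟨k0, hmem⟩
    simp only at this
    rw [hk0r] at this
    exact hk00 this.symm
  -- the partial isometries
  have hww : ∀ i : K, star (x * s i) * (x * s i) = i.1 := by
    intro i
    rw [star_mul, hs3 i]
    calc s i * star x * (x * s i) = s i * a * s i := by rw [ha]; noncomm_ring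
      _ = i.1 := hs6 i
  have hwk : ∀ i : K, x * s i * i.1 = x * s i := by
    intro i
    rw [mul_assoc, hs2 i]
  have hcross : ∀ i j : K, i ≠ j → star (x * s i) * (x * s j) = 0 := by
    intro i j hij
    rw [star_mul, hs3 i]
    calc s i * star x * (x * s j) = s i * a * s j := by rw [ha]; noncomm_ring
      _ = (s i * i.1) * a * (j.1 * s j) := by rw [hs2 i, hs1 j]
      _ = s i * (i.1 * a) * (j.1 * s j) := by simp only [mul_assoc]
      _ = s i * a * (i.1 * j.1) * s j := by rw [hcomm i]; simp only [mul_assoc]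
      _ = 0 := by rw [horth i j hij, mul_zero, zero_mul]
  have hfp : ∀ i : K, IsStarProjection (x * s i * star (x * s i)) := by
    intro i
    refine ⟨?_, ?_⟩
    · change x * s i * star (x * s i) * (x * s i * star (x * s i)) = x * s i * star (x * s i)
      calc x * s i * star (x * s i) * (x * s i * star (x * s i))
          = x * s i * (star (x * s i) * (x * s i)) * star (x * s i) := by simp only [mul_assoc]
        _ = x * s i * star (x * s i) := by rw [hww i, hwk i]
    · change star (x * s i * star (x * s i)) = x * s i * star (x * s i)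
      rw [star_mul, star_star]
  obtain ⟨l, hl⟩ := hsup K (fun i => x * s i * star (x * s i)) hfp
  have hlp : IsStarProjection l := hl.1
  have hls : star l = l := hlp.isSelfAdjoint
  have hlw : ∀ i : K, l * (x * s i) = x * s i := by
    intro i
    have h := congrArg star (hl.2.1 i)
    simp only at h
    rw [star_mul, hls, star_mul, star_star] at h
    calc l * (x * s i) = l * (x * s i * (star (x * s i) * (x * s i))) := by rw [hww i, hwk i]
      _ = l * (x * s i * star (x * s i)) * (x * s i) := by simp only [mul_assoc]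
      _ = x * s i * star (x * s i) * (x * s i) := by rw [h]
      _ = x * s i * (star (x * s i) * (x * s i)) := by simp only [mul_assoc]
      _ = x * s i := by rw [hww i, hwk i]
  refine ⟨K, fun i => i.1, s, r, l, hp, horth, hcomm, fun i => ⟨hs1 i, hs2 i, hs3 i, hs4 i, hs5 i, hs6 i⟩, hr, hl, ⟨hrp, hxr, ?_⟩, ⟨hlp, ?_, ?_⟩⟩
  · intro y hxy
    have hky : ∀ i : K, i.1 * y = 0 := by
      intro i
      calc i.1 * y = s i * s i * a * y := by rw [hs4 i]
        _ = s i * s i * star x * (x * y) := by rw [ha]; simp only [mul_assoc]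
        _ = 0 := by rw [hxy, mul_zero]
    have h := hr.2.2 (star y) fun i => by
      have h' := congrArg star (hky i)
      rwa [star_mul, star_zero, hks] at h'
    have h' := congrArg star h
    rwa [star_mul, star_star, hrs, star_zero] at h'
  · have h : (1 - l) * x * r = 0 := by
      refine hr.2.2 _ fun i => ?_
      calc (1 - l) * x * i.1 = (1 - l) * x * (s i * s i * a) := by rw [hs4 i]
        _ = (1 - l) * (x * s i) * (s i * a) := by simp only [mul_assoc]
        _ = 0 := by rw [sub_mul, one_mul, hlw i, sub_self, zero_mul]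
    rw [mul_assoc, hxr, sub_mul, one_mul, sub_eq_zero] at h
    exact h.symm
  · intro y hyx
    refine hl.2.2 y fun i => ?_
    calc y * (x * s i * star (x * s i)) = y * x * (s i * star (x * s i)) := by
          simp only [mul_assoc]
      _ = 0 := by rw [hyx, zero_mul]


/-! ### the parallelogram law -/

lemma sup_pair (hsup : PSup A) {p q : A} (hp : PJ p) (hq : PJ q) :
    ∃ m : A, PJ m ∧ p * m = p ∧ q * m = q ∧ ∀ x : A, x * p = 0 → x * q = 0 → x * m = 0 := by
  obtain ⟨m, hm⟩ := hsup (ULift.{u} Bool) (fun b => if b.down then p else q)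
    (fun b => by
      cases b with
      | up b => cases b <;> simp [hp, hq])
  refine ⟨m, hm.1, ?_, ?_, ?_⟩
  · simpa using hm.2.1 ⟨true⟩
  · simpa using hm.2.1 ⟨false⟩
  · intro x h1 h2
    refine hm.2.2 x (fun b => ?_)
    cases b with
    | up b => cases b <;> simp [h1, h2]

/-- the support projections of `f * e` are equivalent. -/
theorem par (hsa : PSa A) (hsupO : PSupO A) (hcut : PCut A) (hsup : PSup A) {e f : A} (he : PJ e)
    (hf : PJ f) : ∃ w r l : A, IsRP (f * e) r ∧ IsLP (f * e) l ∧ star w * w = r ∧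
      w * star w = l := by
  obtain ⟨K, k, s, r, l, hk, hko, hka, hs, hr, hl, hR, hL⟩ := lr_family hcut hsup (f * e)
  have ha : star (f * e) * (f * e) = e * f * e := by
    rw [star_mul, PJ.star he, PJ.star hf]
    calc e * f * (f * e) = e * (f * f) * e := by simp only [mul_assoc]
      _ = _ := by rw [PJ.mul_self hf]
  rw [ha] at hka hs
  choose hs1 hs2 hs3 hs4 hs5 hs6 using hs
  have hke : ∀ i, k i * e = k i := fun i => by
    rw [← hs4 i]
    simp only [mul_assoc, PJ.mul_self he]
  have hes : ∀ i, e * s i = s i := fun i => by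
    rw [← hs1 i, ← mul_assoc, Le.rev (hk i) he (hke i)]
  obtain ⟨w, hw⟩ : ∃ w : K → A, ∀ i, w i = f * e * s i := ⟨_, fun i => rfl⟩
  have hww : ∀ i, star (w i) * w i = k i := by
    intro i
    rw [hw i, star_mul, hs3 i]
    calc s i * star (f * e) * (f * e * s i) = s i * (star (f * e) * (f * e)) * s i := by
          simp only [mul_assoc]
      _ = k i := by rw [ha, hs6 i]
  have hwk : ∀ i, w i * k i = w i := fun i => by rw [hw i, mul_assoc, hs2 i]
  have hh : ∀ i, PJ (w i * star (w i)) := fun i => pi_final (hk i) (hww i)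
  have hkw : ∀ i j, i ≠ j → k i * w j = 0 := by
    intro i j hij
    rw [hw j]
    calc k i * (f * e * s j) = (k i * e) * f * (e * s j) := by rw [hke i]; simp only [mul_assoc]
      _ = k i * (e * f * e) * s j := by simp only [mul_assoc]
      _ = (e * f * e) * (k i * s j) := by rw [hka i]; simp only [mul_assoc]
      _ = (e * f * e) * (k i * k j * s j) := by rw [mul_assoc (k i), hs1 j]
      _ = 0 := by rw [hko i j hij]; simp
  have hcross : ∀ i j, i ≠ j → star (w i) * w j = 0 := by
    intro i j hij
    rw [hw i, hw j, star_mul, hs3 i]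
    calc s i * star (f * e) * (f * e * s j) = s i * (star (f * e) * (f * e)) * s j := by
          simp only [mul_assoc]
      _ = s i * k i * (e * f * e) * s j := by rw [ha, hs2 i]
      _ = s i * (k i * (e * f * e)) * s j := by simp only [mul_assoc]
      _ = s i * (e * f * e) * (k i * s j) := by rw [hka i]; simp only [mul_assoc]
      _ = s i * (e * f * e) * (k i * k j * s j) := by rw [mul_assoc (k i), hs1 j]
      _ = 0 := by rw [hko i j hij]; simp
  choose m hm1 hm2 hm3 hm4 using fun i => sup_pair hsup (hk i) (hh i)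
  have hmk : ∀ i, m i * k i = k i := fun i => Le.rev (hk i) (hm1 i) (hm2 i)
  have hmh : ∀ i, m i * (w i * star (w i)) = w i * star (w i) := fun i =>
    Le.rev (hh i) (hm1 i) (hm3 i)
  have hmo : ∀ i j, i ≠ j → m i * m j = 0 := by
    intro i j hij
    refine hm4 j _ ?_ ?_
    · have h1 : k j * m i = 0 := hm4 i _ (hko j i (Ne.symm hij)) (by
        rw [← mul_assoc, hkw j i (Ne.symm hij), zero_mul])
      exact orth_comm (hk j) (hm1 i) h1
    · have h1 : (w j * star (w j)) * m i = 0 := hm4 i _ (by
        have h2 := congrArg star (hkw i j hij)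
        rw [star_mul, star_zero, PJ.star (hk i)] at h2
        rw [mul_assoc, h2, mul_zero]) (by
        calc w j * star (w j) * (w i * star (w i)) = w j * (star (w j) * w i) * star (w i) := by
              simp only [mul_assoc]
          _ = 0 := by rw [hcross j i (Ne.symm hij)]; simp)
      exact orth_comm (hh j) (hm1 i) h1
  obtain ⟨M, hM⟩ := hsup K m hm1
  have hmw : ∀ i, m i * w i = w i := fun i => by
    calc m i * w i = m i * (w i * (star (w i) * w i)) := by rw [hww i, hwk i]
      _ = (m i * (w i * star (w i))) * w i := by simp only [mul_assoc]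
      _ = w i := by rw [hmh i, mul_assoc, hww i, hwk i]
  have hwm : ∀ i, w i * m i = w i := fun i => by
    rw [← hwk i, mul_assoc, hm2 i]
  obtain ⟨W, hMW, hWM, hmW, hWm⟩ := diag_sum hsa hsupO hm1 hmo hM hmw hwm
    (M := 1) (fun i => pi_norm_le (hk i) (hww i))
  have hkM : ∀ i, k i * M = k i := fun i => by rw [← hm2 i, mul_assoc, hM.2.1 i]
  have hhM : ∀ i, w i * star (w i) * M = w i * star (w i) := fun i => by
    rw [← hm3 i, mul_assoc, hM.2.1 i]
  have hl' : IsSup (fun i => w i * star (w i)) l := by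
    have : (fun i => w i * star (w i)) = fun i => f * e * s i * star (f * e * s i) := by
      funext i
      rw [hw i]
    rw [this]; exact hl
  have hrm : ∀ i, r * m i = k i := by
    intro i
    have h1 : (m i - k i) * r = 0 := by
      refine hr.2.2 _ (fun j => ?_)
      by_cases h : j = i
      · subst h
        rw [sub_mul, hmk, PJ.mul_self (hk j), sub_self]
      · have h2 : m i * k j = 0 := by
          rw [← hmk j, ← mul_assoc, hmo i j (Ne.symm h), zero_mul]
        rw [sub_mul, h2, hko i j (Ne.symm h), sub_self]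
    rw [sub_mul, sub_eq_zero, hr.2.1 i] at h1
    have h2 := congrArg star h1
    rwa [star_mul, PJ.star (hm1 i), PJ.star hr.1, PJ.star (hk i)] at h2
  have hlm : ∀ i, l * m i = w i * star (w i) := by
    intro i
    have h1 : (m i - w i * star (w i)) * l = 0 := by
      refine hl'.2.2 _ (fun j => ?_)
      by_cases h : j = i
      · subst h
        rw [sub_mul, hmh, PJ.mul_self (hh j), sub_self]
      · have h2 : m i * (w j * star (w j)) = 0 := by
          rw [← hmh j, ← mul_assoc, hmo i j (Ne.symm h), zero_mul]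
        have h3 : w i * star (w i) * (w j * star (w j)) = 0 := by
          calc w i * star (w i) * (w j * star (w j)) = w i * (star (w i) * w j) * star (w j) := by
                simp only [mul_assoc]
            _ = 0 := by rw [hcross i j (Ne.symm h)]; simp
        rw [sub_mul, h2, h3, sub_self]
    rw [sub_mul, sub_eq_zero, hl'.2.1 i] at h1
    have h2 := congrArg star h1
    rwa [star_mul, PJ.star (hm1 i), PJ.star hl.1, PJ.star (hh i)] at h2
  have hrM : r * M = r := Inf2.sup_le hk hr hM.1 hkM
  have hlM : l * M = l := Inf2.sup_le hh hl' hM.1 hhM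
  refine ⟨W, r, l, hR, hL, ?_, ?_⟩
  · refine diag_ext hM (by rw [mul_assoc, hWM]) hrM (fun i => ?_)
    rw [hrm i, mul_assoc, hWm i]
    have h1 : star W * m i = star (w i) := by
      have := congrArg star (hmW i)
      rwa [star_mul, PJ.star (hm1 i)] at this
    rw [← hmw i, ← mul_assoc, h1, hww i]
  · have h0 : star W * M = star W := star_absorb_left hM.1 hMW
    refine diag_ext hM (by rw [mul_assoc, h0]) hlM (fun i => ?_)
    rw [hlm i]
    have h1 : star W * m i = star (w i) := by
      have := congrArg star (hmW i)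
      rwa [star_mul, PJ.star (hm1 i)] at this
    have h2 : m i * star (w i) = star (w i) := star_absorb_right (hm1 i) (hwm i)
    rw [mul_assoc, h1, ← h2, ← mul_assoc, hWm i, h2]

/-! ### central projections -/

/-- central projection -/
def Cen (z : A) : Prop := PJ z ∧ ∀ x : A, z * x = x * z

lemma Cen.one : Cen (1 : A) := ⟨pj_one', fun x => by simp⟩

lemma Cen.compl {z : A} (h : Cen z) : Cen (1 - z) :=
  ⟨h.1.one_sub, fun x => by rw [sub_mul, mul_sub, h.2]; simp⟩

lemma Cen.mul {y z : A} (hy : Cen y) (hz : Cen z) : Cen (y * z) := by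
  refine ⟨pj_comm_mul hy.1 hz.1 (hy.2 z), fun x => ?_⟩
  rw [mul_assoc, hz.2, ← mul_assoc, hy.2, mul_assoc]

lemma Cen.zz {z : A} (h : Cen z) : z * z = z := PJ.mul_self h.1

lemma Cen.pj {z p : A} (h : Cen z) (hp : PJ p) : PJ (z * p) := pj_comm_mul h.1 hp (h.2 p)

lemma Cen.zzx {z : A} (h : Cen z) (x : A) : z * (z * x) = z * x := by rw [← mul_assoc, h.zz]

lemma Cen.mul_mul {z : A} (h : Cen z) (x y : A) : (z * x) * (z * y) = z * (x * y) := by
  calc (z * x) * (z * y) = z * (x * z) * y := by simp only [mul_assoc]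
    _ = z * (z * x) * y := by rw [h.2 x]
    _ = z * (x * y) := by rw [h.zzx, mul_assoc]

lemma Cen.star_mul {z : A} (h : Cen z) (x : A) : star (z * x) = z * star x := by
  rw [StarMul.star_mul, PJ.star h.1, h.2]

lemma Cen.sub {z p q : A} (h : Cen z) (hs : Sub p q) : Sub (z * p) (z * q) := by
  obtain ⟨v, h1, h2⟩ := hs
  refine ⟨z * v, ?_, ?_⟩
  · rw [h.star_mul, h.mul_mul, h1]
  · rw [h.star_mul, h.mul_mul, h.mul_mul, h2]

lemma Cen.eqv {z p q : A} (h : Cen z) (hs : Eqv p q) : Eqv (z * p) (z * q) := by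
  obtain ⟨v, h1, h2⟩ := hs
  refine ⟨z * v, ?_, ?_⟩
  · rw [h.star_mul, h.mul_mul, h1]
  · rw [h.star_mul, h.mul_mul, h2]

lemma Cen.le {z p q : A} (h : Cen z) (hs : Le p q) : Le (z * p) (z * q) := by
  show z * p * (z * q) = z * p
  rw [h.mul_mul, hs]

lemma Cen.le_self {z p : A} (h : Cen z) (hp : PJ p) : Le (z * p) p := by
  show z * p * p = z * p
  rw [mul_assoc, PJ.mul_self hp]

lemma sub_refl {p : A} (hp : PJ p) : Sub p p :=
  ⟨p, by rw [PJ.star hp, PJ.mul_self hp], by rw [PJ.star hp, PJ.mul_self hp, PJ.mul_self hp]⟩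

lemma eqv_refl {p : A} (hp : PJ p) : Eqv p p :=
  ⟨p, by rw [PJ.star hp, PJ.mul_self hp], by rw [PJ.star hp, PJ.mul_self hp]⟩

lemma sub_of_le {p q : A} (hp : PJ p) (h : Le p q) : Sub p q :=
  ⟨p, by rw [PJ.star hp, PJ.mul_self hp], by rw [PJ.star hp, PJ.mul_self hp]; exact h⟩

lemma eqv_zero {p : A} (h : Eqv p 0) : p = 0 := by
  obtain ⟨v, h1, h2⟩ := h
  have := (CStarRing.mul_star_self_eq_zero_iff _).1 h2
  rw [← h1, this, mul_zero]

lemma sub_zero_eq {p : A} (h : Sub p 0) : p = 0 := by
  obtain ⟨v, h1, h2⟩ := h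
  rw [mul_zero] at h2
  have := (CStarRing.mul_star_self_eq_zero_iff _).1 h2.symm
  rw [← h1, this, mul_zero]

lemma le_trans' {p q r : A} (h1 : Le p q) (h2 : Le q r) : Le p r := by
  show p * r = p
  rw [← show p * q = p from h1, mul_assoc, show q * r = q from h2]

lemma Cen.compl_split {z : A} (x : A) : z * x + (1 - z) * x = x := by
  rw [← add_mul]; simp

lemma Cen.orth {z : A} (h : Cen z) (x y : A) : (z * x) * ((1 - z) * y) = 0 := by
  calc (z * x) * ((1 - z) * y) = (x * z) * ((1 - z) * y) := by rw [h.2 x]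
    _ = x * (z * (1 - z)) * y := by simp only [mul_assoc]
    _ = 0 := by rw [mul_sub, mul_one, h.zz, sub_self]; simp

/-- separation of two centrally orthogonal projections -/
theorem sep (hC : PCut A) (hS : PSup A) {e f : A} (he : PJ e) (hf : PJ f)
    (hef : ∀ x, e * x * f = 0) : ∃ z : A, Cen z ∧ z * e = e ∧ z * f = 0 := by
  obtain ⟨c, hc⟩ := hS {p : A // PJ p ∧ ∀ x : A, p * x * f = 0} (fun p => (p : A))
    (fun p => p.2.1)
  have hfc : f * c = 0 := hc.2.2 f fun p => by
    have h1 := p.2.2 1
    rw [mul_one] at h1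
    exact Sup.pj_zero_comm p.2.1 hf h1
  have hec : e * c = e := hc.2.1 ⟨e, he, hef⟩
  have hcp : ∀ p : {p : A // PJ p ∧ ∀ x : A, p * x * f = 0}, c * (p : A) = p := fun p =>
    Sup.le_right p.2.1 hc.1 (hc.2.1 p)
  have hcen : ∀ x : A, (1 - c) * x * c = 0 := by
    intro x
    refine hc.2.2 _ fun p => ?_
    by_contra hne
    have hne' : star ((1 - c) * x * (p : A)) ≠ 0 := fun h => hne (star_eq_zero.1 h)
    obtain ⟨k, s, hk0, hk, hs, h1, h2⟩ := Sup.cut_ne hC hne'
    rw [star_star] at h1 h2
    have h3 : c * k = 0 := by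
      rw [← h2]
      simp only [← mul_assoc, mul_sub, mul_one, Sup.mul_self hc.1, sub_self, zero_mul]
    have h4 : ∀ z : A, k * z * f = 0 := by
      intro z
      have h5 := p.2.2 (star x * (1 - c) * z)
      rw [← h1, StarMul.star_mul, StarMul.star_mul, Sup.star_eq p.2.1, Sup.star_eq hc.1.one_sub]
      have h6 : s * s * ((1 - c) * x * (p : A) * ((p : A) * (star x * (1 - c)))) * z * f =
          s * s * ((1 - c) * x * (p : A)) * ((p : A) * (star x * (1 - c) * z) * f) := by
        simp only [mul_assoc]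
      rw [h6, h5, mul_zero]
    have h5 := hcp ⟨k, hk, h4⟩
    exact hk0 (h5.symm.trans h3)
  have hcen' : ∀ x : A, c * x * (1 - c) = 0 := by
    intro x
    have h1 := congrArg star (hcen (star x))
    rw [StarMul.star_mul, StarMul.star_mul, star_star, Sup.star_eq hc.1, Sup.star_eq hc.1.one_sub, star_zero,
      ← mul_assoc] at h1
    exact h1
  refine ⟨c, ⟨hc.1, fun x => ?_⟩, ?_, ?_⟩
  · have h1 := hcen x
    have h2 := hcen' x
    rw [sub_mul, sub_mul, one_mul, sub_eq_zero] at h1
    rw [mul_sub, mul_one, sub_eq_zero] at h2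
    rw [h2, ← h1]
  · exact Le.rev he hc.1 hec
  · exact orth_comm hf hc.1 hfc


open CmpO in
/-- a maximal pair of equivalent subprojections of two orthogonal projections -/
theorem max_pair (hCut : PCut A) (hSup : PSupO A) (hAdd : PAddO A) {e f : A} (he : PJ e)
    (hf : PJ f) (hef : e * f = 0) : ∃ E F v : A, PJ E ∧ PJ F ∧ Le E e ∧ Le F f ∧
      star v * v = E ∧ v * star v = F ∧ ∀ x : A, (f - F) * x * (e - E) = 0 := by
  have hfe : f * e = 0 := by
    have := congrArg star hef
    rwa [star_mul, he.isSelfAdjoint.star_eq, hf.isSelfAdjoint.star_eq, star_zero] at this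
  obtain ⟨W, hW⟩ := exists_max e f
  have hG := hW.1
  -- the two suprema
  have hinj : ∀ i j : W, i ≠ j → (i : A) ≠ (j : A) := fun i j h h' => h (Subtype.ext h')
  have hPi : ∀ i : W, IsStarProjection (star (i : A) * (i : A)) := fun i => (hG.1 i i.2).2.1
  have hPf : ∀ i : W, IsStarProjection ((i : A) * star (i : A)) := fun i => final_proj (hPi i)
  obtain ⟨E, hE⟩ := hSup W (fun i => star (i : A) * (i : A)) hPi
    (fun i j h => (hG.2 i i.2 j j.2 (hinj i j h)).1)
  obtain ⟨F, hF⟩ := hSup W (fun i => (i : A) * star (i : A)) hPf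
    (fun i j h => (hG.2 i i.2 j j.2 (hinj i j h)).2)
  have hEP : IsStarProjection E := hE.1
  have hFP : IsStarProjection F := hF.1
  -- E ≤ e, F ≤ f
  have heE : e * E = E := by
    have h1 : (1 - e) * E = 0 := by
      apply hE.2.2
      intro i
      have h2 : e * (star (i : A) * (i : A)) = star (i : A) * (i : A) :=
        star_eq_of (hPi i) he (hG.1 i i.2).2.2.1
      rw [sub_mul, one_mul, h2, sub_self]
    rw [sub_mul, one_mul, sub_eq_zero] at h1
    exact h1.symm
  have hfF : f * F = F := by
    have h1 : (1 - f) * F = 0 := by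
      apply hF.2.2
      intro i
      have h2 : f * ((i : A) * star (i : A)) = (i : A) * star (i : A) :=
        star_eq_of (hPf i) hf (hG.1 i i.2).2.2.2
      rw [sub_mul, one_mul, h2, sub_self]
    rw [sub_mul, one_mul, sub_eq_zero] at h1
    exact h1.symm
  have hEe : E * e = E := by
    have := congrArg star heE
    rwa [star_mul, he.isSelfAdjoint.star_eq, hEP.isSelfAdjoint.star_eq] at this
  have hFf : F * f = F := by
    have := congrArg star hfF
    rwa [star_mul, hf.isSelfAdjoint.star_eq, hFP.isSelfAdjoint.star_eq] at this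
  have hEF : E * F = 0 := by
    rw [← hEe, ← hfF, mul_assoc, ← mul_assoc e f F, hef, zero_mul, mul_zero]
  obtain ⟨v, hv1, hv2, -⟩ := hAdd W (fun i => (i : A)) E F hPi
    (fun i j h => (hG.2 i i.2 j j.2 (hinj i j h)).1)
    (fun i j h => (hG.2 i i.2 j j.2 (hinj i j h)).2) hE hF hEF
  have hPfF : IsStarProjection (f - F) := sub_proj hFP hf hFf
  have hPeE : IsStarProjection (e - E) := sub_proj hEP he hEe
  refine ⟨E, F, v, hEP, hFP, hEe, hFf, hv1, hv2, ?_⟩
  by_contra hx
  push Not at hx
  obtain ⟨x, hx⟩ := hx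
  set y := (f - F) * x * (e - E) with hy
  have hye : y * (e - E) = y := by
    rw [hy, mul_assoc, hPeE.isIdempotentElem]
  have hfy : (f - F) * y = y := by
    rw [hy, ← mul_assoc, ← mul_assoc, hPfF.isIdempotentElem]
  have hypos : 0 < ‖y‖ := norm_pos_iff.2 hx
  obtain ⟨k, s, hk, hks, hsk, hss, hcomm, hssy, hyss, hsys, hnorm⟩ :=
    hCut y (‖y‖ / 2) (by linarith)
  have hk0 : k ≠ 0 := by
    intro h
    rw [h, sub_zero, mul_one] at hnorm
    linarith
  have hkeE : k * (e - E) = k := by
    calc k * (e - E) = s * s * (star y * (y * (e - E))) := by rw [← hssy]; noncomm_ring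
      _ = k := by rw [hye, hssy]
  have hke : k * e = k := by
    have h1 : (e - E) * e = e - E := by
      rw [sub_mul, hEe, show e * e = e from he.isIdempotentElem]
    rw [← hkeE, mul_assoc, h1]
  have hkE : k * E = 0 := by
    have h1 : (e - E) * E = 0 := by
      rw [sub_mul, heE, show E * E = E from hEP.isIdempotentElem, sub_self]
    rw [← hkeE, mul_assoc, h1, mul_zero]
  -- the new element
  set w := y * s with hw
  have hww : star w * w = k := by
    rw [hw, star_mul, hss, ← hsys]
    noncomm_ring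
  have hwP : IsStarProjection (star w * w) := by rw [hww]; exact hk
  have hwF : (f - F) * w = w := by rw [hw, ← mul_assoc, hfy]
  have hwwf : (w * star w) * (f - F) = w * star w := by
    have h1 : star w * (f - F) = star w := by
      have := congrArg star hwF
      rwa [star_mul, hPfF.isSelfAdjoint.star_eq] at this
    rw [mul_assoc, h1]
  have hwf : (w * star w) * f = w * star w := by
    have h1 : (f - F) * f = f - F := by
      rw [sub_mul, hFf, show f * f = f from hf.isIdempotentElem]
    rw [← hwwf, mul_assoc, h1]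
  have hwF0 : (w * star w) * F = 0 := by
    have h1 : (f - F) * F = 0 := by
      rw [sub_mul, hfF, show F * F = F from hFP.isIdempotentElem, sub_self]
    rw [← hwwf, mul_assoc, h1, mul_zero]
  have hw0 : w ≠ 0 := by
    intro h
    apply hk0
    rw [← hww, h, mul_zero]
  -- orthogonality with the members
  have ho1 : ∀ i ∈ W, (star w * w) * (star i * i) = 0 := by
    intro i hi
    have h1 : E * (star i * i) = star i * i :=
      star_eq_of (hPi ⟨i, hi⟩) hEP (hE.2.1 ⟨i, hi⟩)
    rw [hww, ← h1, ← mul_assoc, hkE, zero_mul]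
  have ho2 : ∀ i ∈ W, (w * star w) * (i * star i) = 0 := by
    intro i hi
    have h1 : F * (i * star i) = i * star i :=
      star_eq_of (hPf ⟨i, hi⟩) hFP (hF.2.1 ⟨i, hi⟩)
    rw [← h1, ← mul_assoc, hwF0, zero_mul]
  have ho1' : ∀ i ∈ W, (star i * i) * (star w * w) = 0 := by
    intro i hi
    have := congrArg star (ho1 i hi)
    simpa [mul_assoc] using this
  have ho2' : ∀ i ∈ W, (i * star i) * (w * star w) = 0 := by
    intro i hi
    have := congrArg star (ho2 i hi)
    simpa [mul_assoc] using this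
  have hwW : w ∉ W := by
    intro h
    have h1 := ho1 w h
    rw [hww, show k * k = k from hk.isIdempotentElem] at h1
    exact hk0 h1
  have hgood : Good e f (insert w W) := by
    refine ⟨?_, ?_⟩
    · rintro a (rfl | ha)
      · exact ⟨hw0, hwP, by rw [hww, hke], hwf⟩
      · exact hG.1 a ha
    · rintro a ha b hb hne
      rcases ha with rfl | ha <;> rcases hb with rfl | hb
      · exact absurd rfl hne
      · exact ⟨ho1 b hb, ho2 b hb⟩
      · exact ⟨ho1' a ha, ho2' a ha⟩
      · exact hG.2 a ha b hb hne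
  have := hW.2 hgood (Set.subset_insert w W)
  exact hwW (this (Set.mem_insert w W))

/-- **Generalized comparability**, orthogonal case -/
theorem orthGC (hCut : PCut A) (hSupO : PSupO A) (hSup : PSup A) (hAdd : PAddO A) {e f : A}
    (he : PJ e) (hf : PJ f) (hef : e * f = 0) :
    ∃ z : A, Cen z ∧ Sub (z * e) (z * f) ∧ Sub ((1 - z) * f) ((1 - z) * e) := by
  obtain ⟨E, F, v, hE, hF, hEe, hFf, hv1, hv2, hx⟩ := max_pair hCut hSupO hAdd he hf hef
  have hpE : PJ (e - E) := pj_sub hE he hEe
  have hpF : PJ (f - F) := pj_sub hF hf hFf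
  obtain ⟨z, hz, h1, h2⟩ := sep hCut hSup hpF hpE hx
  have hze : z * e = z * E := by
    rw [mul_sub, sub_eq_zero] at h2
    exact h2
  have hzf : (1 - z) * f = (1 - z) * F := by
    have : (1 - z) * (f - F) = 0 := by rw [sub_mul, one_mul, h1, sub_self]
    rw [mul_sub, sub_eq_zero] at this
    exact this
  refine ⟨z, hz, ?_, ?_⟩
  · rw [hze]
    have h3 : Sub E f := ⟨v, hv1, by rw [hv2]; exact hFf⟩
    exact hz.sub h3
  · rw [hzf]
    have h3 : Sub F e := ⟨star v, by rw [star_star, hv2], by rw [star_star, hv1]; exact hEe⟩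
    exact hz.compl.sub h3

/-- sums of orthogonal sub-equivalences -/
lemma sub_add2 {a b c d : A} (ha : PJ a) (hb : PJ b) (hc : PJ c) (hd : PJ d) (hac : a * c = 0)
    (hbd : b * d = 0) (h1 : Sub a b) (h2 : Sub c d) : Sub (a + c) (b + d) :=
  Inf2.Sub.add ha hb hc hd hac hbd h1 h2

/-- everything we need in a general AW*-algebra -/
structure Good (A : Type u) [CStarAlgebra A] : Prop where
  sa : PSa A
  cutB : PCutB A
  cut : PCut A
  supO : PSupO A
  sup : PSup A
  addO : PAddO A

theorem good_of (A : Type u) [CStarAlgebra A] (h : IsAWStar A) : Good A := by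
  have hsa : PSa A := sa456_ok A h
  have hcut : PCut A := cut456_ok A hsa
  have hsupO : PSupO A := Sup.supO_ok A h hcut
  exact ⟨hsa, cutB_ok A hsa, hcut, hsupO, Sup.sup_ok A hsupO hcut, AddO.addO_ok A hsupO⟩

/-- **Generalized comparability** -/
theorem GC (hA : Good A) {e f : A} (he : PJ e) (hf : PJ f) :
    ∃ z : A, Cen z ∧ Sub (z * e) (z * f) ∧ Sub ((1 - z) * f) ((1 - z) * e) := by
  obtain ⟨w, r, l, hR, hL, hw1, hw2⟩ := par hA.sa hA.supO hA.cut hA.sup he hf
  obtain ⟨hr, hr1, hr2⟩ := hR
  obtain ⟨hl, hl1, hl2⟩ := hL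
  -- r ≤ e, l ≤ f
  have hre : r * e = r := by
    have h1 : r * (1 - e) = 0 := hr2 _ (by rw [mul_assoc, mul_sub, mul_one, PJ.mul_self he, sub_self, mul_zero])
    rw [mul_sub, mul_one, sub_eq_zero] at h1
    exact h1.symm
  have hlf : l * f = l := by
    have h1 : (1 - f) * l = 0 := hl2 _ (by rw [← mul_assoc, sub_mul, one_mul, PJ.mul_self hf, sub_self, zero_mul])
    rw [sub_mul, one_mul, sub_eq_zero] at h1
    have h2 := congrArg star h1
    rwa [star_mul, PJ.star hl, PJ.star hf, eq_comm] at h2
  have hpe : PJ (e - r) := pj_sub hr he hre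
  have hpf : PJ (f - l) := pj_sub hl hf hlf
  have her : e * r = r := Le.rev hr he hre
  have hfl : f * l = l := Le.rev hl hf hlf
  -- (f - l) * (e - r) = 0
  have hfe : f * (e - r) = 0 := by
    calc f * (e - r) = f * e - f * e * r := by rw [mul_sub, mul_assoc, her]
      _ = 0 := by rw [hr1, sub_self]
  have h0 : (f - l) * (e - r) = 0 := by
    have h1 : (f - l) * f = f - l := by rw [sub_mul, PJ.mul_self hf, hlf]
    rw [← h1, mul_assoc, hfe, mul_zero]
  have h0' : (e - r) * (f - l) = 0 := orth_comm hpf hpe h0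
  obtain ⟨z, hz, h1, h2⟩ := orthGC hA.cut hA.supO hA.sup hA.addO hpe hpf h0'
  have hrE : r * (e - r) = 0 := by rw [mul_sub, hre, PJ.mul_self hr, sub_self]
  have hlF : l * (f - l) = 0 := by rw [mul_sub, hlf, PJ.mul_self hl, sub_self]
  refine ⟨z, hz, ?_, ?_⟩
  · have h3 : Sub (z * r) (z * l) := hz.sub ⟨w, hw1, by rw [hw2, PJ.mul_self hl]⟩
    have h4 := sub_add2 (hz.pj hr) (hz.pj hl) (hz.pj hpe) (hz.pj hpf)
      (by rw [hz.mul_mul, hrE, mul_zero]) (by rw [hz.mul_mul, hlF, mul_zero]) h3 h1
    rwa [← mul_add, ← mul_add, add_sub_cancel, add_sub_cancel] at h4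
  · have h3 : Sub ((1 - z) * l) ((1 - z) * r) := hz.compl.sub
      ⟨star w, by rw [star_star, hw2], by rw [star_star, hw1, PJ.mul_self hr]⟩
    have h4 := sub_add2 (hz.compl.pj hl) (hz.compl.pj hr) (hz.compl.pj hpf) (hz.compl.pj hpe)
      (by rw [hz.compl.mul_mul, hlF, mul_zero]) (by rw [hz.compl.mul_mul, hrE, mul_zero]) h3 h2
    rwa [← mul_add, ← mul_add, add_sub_cancel, add_sub_cancel] at h4

end Pool.Agent.K1H31.AW
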