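import Pool.Agent.K1H31.AW.GC
import Pool.Agent.R456.CL.Inf1
import Pool.Agent.R456.CL.Inf2
import Pool.Agent.R456.CL.W1

/-!
# AW*-algebras: properly infinite projections
-/

set_option autoImplicit false

namespace Pool.Agent.K1H31.AW

open Pool.Agent.R456.CL

universe u

variable {A : Type u} [CStarAlgebra A]

/-- `g` contains two orthogonal copies of itself (`0` or properly infinite). -/
def Halv (g : A) : Prop := ∃ v1 v2 : A, star v1 * v1 = g ∧ star v2 * v2 = g ∧ star v1 * v2 = 0 ∧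
  g * v1 = v1 ∧ g * v2 = v2

lemma Halv.of_two {g g1 g2 : A} (hg : PJ g) (h1 : PJ g1) (h2 : PJ g2) (h12 : g1 * g2 = 0)
    (hl1 : Le g1 g) (hl2 : Le g2 g) (he1 : Eqv g g1) (he2 : Eqv g g2) : Halv g := by
  obtain ⟨v1, a1, a2⟩ := he1
  obtain ⟨v2, b1, b2⟩ := he2
  have e1 : g1 * v1 = v1 := pi_left hg a1 a2
  have e2 : g2 * v2 = v2 := pi_left hg b1 b2
  refine ⟨v1, v2, a1, b1, ?_, ?_, ?_⟩
  · rw [← star_absorb_left h1 e1, ← e2, mul_assoc, ← mul_assoc g1, h12, zero_mul, mul_zero]
  · rw [← e1, ← mul_assoc, Le.rev h1 hg hl1]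
  · rw [← e2, ← mul_assoc, Le.rev h2 hg hl2]

lemma Halv.two {g : A} (hg : PJ g) (h : Halv g) : ∃ g1 g2 : A, PJ g1 ∧ PJ g2 ∧ g1 * g2 = 0 ∧
    Le g1 g ∧ Le g2 g ∧ Eqv g g1 ∧ Eqv g g2 := by
  obtain ⟨v1, v2, a1, b1, h12, e1, e2⟩ := h
  refine ⟨v1 * star v1, v2 * star v2, pi_final hg a1, pi_final hg b1, ?_, ?_, ?_, ⟨v1, a1, rfl⟩,
    ⟨v2, b1, rfl⟩⟩
  · calc v1 * star v1 * (v2 * star v2) = v1 * (star v1 * v2) * star v2 := by simp only [mul_assoc]
      _ = 0 := by rw [h12]; simp
  · show v1 * star v1 * g = v1 * star v1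
    rw [mul_assoc, star_absorb_left hg e1]
  · show v2 * star v2 * g = v2 * star v2
    rw [mul_assoc, star_absorb_left hg e2]

lemma Halv.zero : Halv (0 : A) := ⟨0, 0, by simp, by simp, by simp, by simp, by simp⟩

lemma Halv.cen {z g : A} (hz : Cen z) (h : Halv g) : Halv (z * g) := by
  obtain ⟨v1, v2, a1, b1, h12, e1, e2⟩ := h
  refine ⟨z * v1, z * v2, ?_, ?_, ?_, ?_, ?_⟩
  · rw [hz.star_mul, hz.mul_mul, a1]
  · rw [hz.star_mul, hz.mul_mul, b1]
  · rw [hz.star_mul, hz.mul_mul, h12, mul_zero]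
  · rw [hz.mul_mul, e1]
  · rw [hz.mul_mul, e2]

lemma Halv.eqv {g h : A} (hg : PJ g) (_hh : PJ h) (hgh : Eqv g h) (H : Halv g) : Halv h := by
  obtain ⟨v, hv1, hv2⟩ := hgh
  obtain ⟨v1, v2, a1, b1, h12, e1, e2⟩ := H
  have hvg : v * g = v := pi_right hg hv1
  have hgv : g * star v = star v := star_absorb_right hg hvg
  have hhv : h * v = v := pi_left hg hv1 hv2
  have key : ∀ x y : A, g * y = y → star (v * x * star v) * (v * y * star v)
      = v * (star x * y) * star v := by
    intro x y hy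
    rw [star_mul, star_mul, star_star]
    calc v * (star x * star v) * (v * y * star v) = v * star x * ((star v * v) * y) * star v := by
          simp only [mul_assoc]
      _ = v * (star x * y) * star v := by rw [hv1, hy]; simp only [mul_assoc]
  refine ⟨v * v1 * star v, v * v2 * star v, ?_, ?_, ?_, ?_, ?_⟩
  · rw [key _ _ e1, a1, hvg, hv2]
  · rw [key _ _ e2, b1, hvg, hv2]
  · rw [key _ _ e2, h12]; simp
  · rw [← mul_assoc, ← mul_assoc, hhv]
  · rw [← mul_assoc, ← mul_assoc, hhv]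

lemma Halv.zero_of_fin {g : A} (hg : PJ g) (h : Halv g) (hf : ¬ Infin g) : g = 0 := by
  obtain ⟨g1, g2, h1, h2, h12, hl1, hl2, ⟨v1, a1, a2⟩, ⟨v2, b1, b2⟩⟩ := h.two hg
  have e1 : g1 = g := by
    by_contra hne
    exact hf ⟨v1, a1, by rw [a2]; exact hl1, by rw [a2]; exact hne⟩
  have e2 : g2 = g := by
    by_contra hne
    exact hf ⟨v2, b1, by rw [b2]; exact hl2, by rw [b2]; exact hne⟩
  rw [e1, e2, PJ.mul_self hg] at h12
  exact h12

lemma Halv.sub_add {g a b : A} (hg : PJ g) (h : Halv g) (ha : PJ a) (hb : PJ b)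
    (hab : a * b = 0) (h1 : Sub a g) (h2 : Sub b g) : Sub (a + b) g := by
  obtain ⟨v1, v2, a1, b1, h12, e1, e2⟩ := h
  obtain ⟨u1, c1, c2⟩ := h1
  obtain ⟨u2, d1, d2⟩ := h2
  have gu1 : g * u1 = u1 := pi_le ha hg c1 c2
  have gu2 : g * u2 = u2 := pi_le hb hg d1 d2
  have h21 : star v2 * v1 = 0 := by
    have := congrArg star h12
    rwa [star_mul, star_star, star_zero] at this
  refine ⟨v1 * u1 + v2 * u2, ?_, ?_⟩
  · calc star (v1 * u1 + v2 * u2) * (v1 * u1 + v2 * u2)
        = star u1 * ((star v1 * v1) * u1) + star u1 * (star v1 * v2) * u2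
          + star u2 * (star v2 * v1) * u1 + star u2 * ((star v2 * v2) * u2) := by
            rw [star_add, star_mul, star_mul]; noncomm_ring
      _ = a + b := by rw [a1, b1, h12, h21, gu1, gu2, c1, d1]; simp
  · have : star (v1 * u1 + v2 * u2) * g = star (v1 * u1 + v2 * u2) := by
      apply star_absorb_left hg
      rw [mul_add, ← mul_assoc, ← mul_assoc, e1, e2]
    rw [mul_assoc, this]

lemma Cen.isSup {z : A} (hz : Cen z) {ι : Type*} {q : ι → A} {E : A} (h : IsSup q E) :
    IsSup (fun i => z * q i) (z * E) := by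
  refine ⟨hz.pj h.1, fun i => ?_, fun x hx => ?_⟩
  · rw [hz.mul_mul, h.2.1 i]
  · have h1 : (x * z) * E = 0 := h.2.2 _ (fun i => by rw [mul_assoc]; exact hx i)
    rw [← mul_assoc]; exact h1

theorem Halv.sum (hA : Good A) {ι : Type u} {g : ι → A} {E : A} (hg : ∀ i, PJ (g i))
    (ho : ∀ i j, i ≠ j → g i * g j = 0) (hE : IsSup g E) (hh : ∀ i, Halv (g i)) : Halv E := by
  choose v1 v2 a1 b1 h12 e1 e2 using hh
  have f1 : ∀ i, v1 i * g i = v1 i := fun i => pi_right (hg i) (a1 i)
  have f2 : ∀ i, v2 i * g i = v2 i := fun i => pi_right (hg i) (b1 i)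
  obtain ⟨V1, c1, c2, c3, c4⟩ := diag_sum hA.sa hA.supO hg ho hE e1 f1 (M := 1)
    (fun i => pi_norm_le (hg i) (a1 i))
  obtain ⟨V2, d1, d2, d3, d4⟩ := diag_sum hA.sa hA.supO hg ho hE e2 f2 (M := 1)
    (fun i => pi_norm_le (hg i) (b1 i))
  have hEg : ∀ i, E * g i = g i := fun i => Le.rev (hg i) hE.1 (hE.2.1 i)
  have key : ∀ (X Y : A) (x y : ι → A), (∀ i, g i * X = x i) → (∀ i, Y * g i = y i) →
      (∀ i, g i * y i = y i) → ∀ i, star X * Y * g i = star (x i) * y i := by
    intro X Y x y hX hY hy i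
    rw [mul_assoc, hY, ← hX i, star_mul, PJ.star (hg i), mul_assoc, hy]
  refine ⟨V1, V2, ?_, ?_, ?_, c1, d1⟩
  · refine diag_ext hE (by rw [mul_assoc, c2]) (PJ.mul_self hE.1) (fun i => ?_)
    rw [key V1 V1 v1 v1 c3 c4 e1 i, a1, hEg]
  · refine diag_ext hE (by rw [mul_assoc, d2]) (PJ.mul_self hE.1) (fun i => ?_)
    rw [key V2 V2 v2 v2 d3 d4 e2 i, b1, hEg]
  · refine diag_ext hE (by rw [mul_assoc, d2]) (zero_mul E) (fun i => ?_)
    rw [key V1 V2 v1 v2 c3 d4 e2 i, h12, zero_mul]

open Inf2 in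
/-- halving from an infinite family -/
theorem halv_of_family (hP : PSup A) (hA : PAddO A) {g : A} (hg : PJ g) {ι : Type u} {q : ι → A}
    {E : A} (hι : Infinite ι) (hq : ∀ i, PJ (q i)) (ho : ∀ i j, i ≠ j → q i * q j = 0)
    (hle : ∀ i, Le (q i) g) (heqv : ∀ i j, Eqv (q i) (q j)) (hE : IsSup q E)
    (hsub : ∀ i, Sub (g - E) (q i)) : ∃ g1 g2 : A, PJ g1 ∧ PJ g2 ∧ g1 * g2 = 0 ∧ Le g1 g ∧
      Le g2 g ∧ Eqv g g1 ∧ Eqv g g2 := by
  obtain ⟨e⟩ : Nonempty (ι ⊕ ι ≃ ι) := by
    rw [← Cardinal.eq, Cardinal.mk_sum, Cardinal.lift_id]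
    exact Cardinal.add_eq_self (Cardinal.aleph0_le_mk ι)
  obtain ⟨e1⟩ : Nonempty (PUnit.{u + 1} ⊕ ι ≃ ι) := by
    rw [← Cardinal.eq, Cardinal.mk_sum, Cardinal.lift_id, Cardinal.lift_id, Cardinal.mk_punit]
    exact Cardinal.add_eq_right (Cardinal.aleph0_le_mk ι)
      (Cardinal.one_lt_aleph0.le.trans (Cardinal.aleph0_le_mk ι))
  have hEg : E * g = E := sup_le hq hE hg hle
  have hgE := le_symm hE.1 hg hEg
  have hr : PJ (g - E) := by
    refine mk ?_ (by rw [star_sub, sa hg, sa hE.1])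
    rw [sub_mul, mul_sub, mul_sub, idem hg, idem hE.1, hEg, hgE]
    abel
  have hrE : (g - E) * E = 0 := by rw [sub_mul, hgE, idem hE.1, sub_self]
  -- the four injections
  let f4 : Fin 4 → ι → ι := ![fun i => e (Sum.inl (e (Sum.inl i))),
    fun i => e (Sum.inl (e (Sum.inr i))), fun i => e (Sum.inr (e (Sum.inl i))),
    fun i => e (Sum.inr (e (Sum.inr i)))]
  have hinj : ∀ c, Function.Injective (f4 c) := by
    intro c i j h
    fin_cases c <;> simpa [f4] using h
  have hdisj : ∀ c d i j, c ≠ d → f4 c i ≠ f4 d j := by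
    intro c d i j hcd h
    fin_cases c <;> fin_cases d <;> simp [f4] at h hcd
  let Q : Fin 4 → ι → A := fun c i => q (f4 c i)
  have hQ : ∀ c i, PJ (Q c i) := fun c i => hq _
  choose G hG using fun c => hP ι (Q c) (hQ c)
  have hQo : ∀ c i j, i ≠ j → Q c i * Q c j = 0 := fun c i j hij =>
    ho _ _ (fun h => hij (hinj c h))
  have hQo2 : ∀ c d i j, c ≠ d → Q c i * Q d j = 0 := fun c d i j hcd =>
    ho _ _ (hdisj c d i j hcd)
  have hrq : ∀ i, (g - E) * q i = 0 := by
    intro i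
    rw [← le_symm (hq i) hE.1 (hE.2.1 i), ← mul_assoc, hrE, zero_mul]
  have heq' : ∀ i j, Sub (q i) (q j) := by
    intro i j
    obtain ⟨v, hv1, hv2⟩ := heqv i j
    exact ⟨v, hv1, by rw [hv2, idem (hq j)]⟩
  have hGo : ∀ x y, x ≠ y → G x * G y = 0 := fun x y hxy =>
    sup_orth (hQ x) (hQ y) (hG x) (hG y) (fun i j => hQo2 x y i j hxy)
  -- total sup
  have hsum : G 0 + G 1 + (G 2 + G 3) = E := by
    have h1 := sup_sum (sup_sum (hG 0) (hG 1) (hGo 0 1 (by decide)))
      (sup_sum (hG 2) (hG 3) (hGo 2 3 (by decide))) (by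
        rw [add_mul, mul_add, mul_add, hGo 0 2 (by decide), hGo 0 3 (by decide),
          hGo 1 2 (by decide), hGo 1 3 (by decide)]
        simp)
    have h2 := sup_comp (((Equiv.sumCongr e e).trans e)) hE
    refine sup_unique (e := fun k => q (((Equiv.sumCongr e e).trans e) k)) (fun k => hq _) ?_ h2
    convert h1 using 1
    funext k
    rcases k with (k | k) | (k | k) <;> rfl
  have hg4 : g = (g - E) + (G 2 + G 3) + (G 0 + G 1) := by
    rw [← hsum]; abel
  have hg4' : g = (g - E) + (G 0 + G 1) + (G 2 + G 3) := by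
    rw [← hsum]; abel
  have k1 := key hP hA e e1 Q G (g - E) hr hQ hQo hQo2 (fun c i => hrq _) hG
    (fun c d i j => heq' _ _) (fun c i => hsub _) 0 1 2 3 (by decide) (by decide) (by decide)
    (by decide) (by decide) (by decide)
  have k2 := key hP hA e e1 Q G (g - E) hr hQ hQo hQo2 (fun c i => hrq _) hG
    (fun c d i j => heq' _ _) (fun c i => hsub _) 2 3 0 1 (by decide) (by decide) (by decide)
    (by decide) (by decide) (by decide)
  rw [← hg4] at k1
  rw [← hg4'] at k2
  obtain ⟨v, hv1, hv2⟩ := k1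
  obtain ⟨w, hw1, hw2⟩ := k2
  have hP01 := Inf2.pj_add (hG 0).1 (hG 1).1 (hGo 0 1 (by decide))
  have hP23 := Inf2.pj_add (hG 2).1 (hG 3).1 (hGo 2 3 (by decide))
  have hGg : ∀ c, G c * g = G c := fun c => sup_le (hQ c) (hG c) hg (fun i => hle _)
  have h01g : (G 0 + G 1) * g = G 0 + G 1 := by rw [add_mul, hGg, hGg]
  have h23g : (G 2 + G 3) * g = G 2 + G 3 := by rw [add_mul, hGg, hGg]
  have h0123 : (G 0 + G 1) * (G 2 + G 3) = 0 := by
    rw [add_mul, mul_add, mul_add, hGo 0 2 (by decide), hGo 0 3 (by decide),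
      hGo 1 2 (by decide), hGo 1 3 (by decide)]
    simp
  have hpv := final_pj hg hv1
  have hpw := final_pj hg hw1
  refine ⟨v * star v, w * star w, hpv, hpw, ?_, ?_, ?_, ⟨v, hv1, rfl⟩, ⟨w, hw1, rfl⟩⟩
  · calc v * star v * (w * star w)
        = (v * star v * (G 0 + G 1)) * ((G 2 + G 3) * (w * star w)) := by
          rw [hv2, le_symm hpw hP23 hw2]
      _ = v * star v * ((G 0 + G 1) * (G 2 + G 3)) * (w * star w) := by noncomm_ring
      _ = 0 := by rw [h0123]; simp
  · change v * star v * g = v * star v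
    rw [← hv2, mul_assoc, h01g]
  · change w * star w * g = w * star w
    rw [← hw2, mul_assoc, h23g]



open Inf1 in
/-- an infinite projection has a properly infinite central piece. -/
theorem inf_piece (hA : Good A) {g : A} (hg : PJ g) (hinf : Infin g) :
    ∃ z : A, Cen z ∧ z * g ≠ 0 ∧ Halv (z * g) := by
  classical
  have hSup := hA.sup
  obtain ⟨v, hv1, hv2, hv3⟩ := hinf
  have hvg : v * g = v := init hg hv1
  have hgv : g * v = v := fin_le hg hv2
  have hgv' : star v * g = star v := by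
    have := congrArg star hgv
    rwa [star_mul, pj_star hg] at this
  have hvg' : g * star v = star v := by
    have := congrArg star hvg
    rwa [star_mul, pj_star hg] at this
  have hvv : PJ (v * star v) := final hg hv1
  have hvvv : v * star v * v = v := final_mul hg hv1
  set s : ℕ → A := seq g v with hs
  have s0 : s 0 = g - v * star v := rfl
  have ss : ∀ n, s (n + 1) = v * s n * star v := fun n => rfl
  -- projections below g
  have hle : ∀ n, s n * g = s n := by
    intro n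
    cases n with
    | zero =>
      rw [s0, sub_mul, pj_idem hg, hv2]
    | succ n =>
      rw [ss, mul_assoc, hgv']
  have hpj : ∀ n, PJ (s n) := by
    intro n
    induction n with
    | zero =>
      apply pj_mk
      · rw [s0]
        have e1 : (g - v * star v) * (g - v * star v) =
            g * g - (g * v) * star v - v * star v * g + v * star v * (v * star v) := by
          noncomm_ring
        rw [e1, pj_idem hg, hgv, hv2, pj_idem hvv]
        abel
      · rw [s0, star_sub, pj_star hg, pj_star hvv]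
    | succ n ih =>
      apply pj_mk
      · rw [ss]
        have e1 : v * s n * star v * (v * s n * star v) = v * (s n * (star v * v)) * s n * star v := by
          noncomm_ring
        rw [e1, hv1, hle, mul_assoc v (s n) (s n), pj_idem ih]
      · rw [ss, star_mul, star_mul, star_star, pj_star ih, mul_assoc]
  have h0v : s 0 * v = 0 := by
    rw [s0, sub_mul, hgv, hvvv, sub_self]
  have horth : ∀ m n, m < n → s m * s n = 0 := by
    intro m
    induction m with
    | zero =>
      intro n hn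
      obtain ⟨k, rfl⟩ : ∃ k, n = k + 1 := ⟨n - 1, by omega⟩
      rw [ss]
      have e1 : s 0 * (v * s k * star v) = (s 0 * v) * s k * star v := by noncomm_ring
      rw [e1, h0v, zero_mul, zero_mul]
    | succ m ih =>
      intro n hn
      obtain ⟨k, rfl⟩ : ∃ k, n = k + 1 := ⟨n - 1, by omega⟩
      rw [ss, ss]
      have e1 : v * s m * star v * (v * s k * star v) = v * (s m * (star v * v)) * s k * star v := by
        noncomm_ring
      rw [e1, hv1, hle, mul_assoc v (s m) (s k), ih k (by omega), mul_zero, zero_mul]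
  have horth' : ∀ m n, m ≠ n → s m * s n = 0 := by
    intro m n hmn
    rcases lt_or_gt_of_ne hmn with h | h
    · exact horth m n h
    · have h1 := congrArg star (horth n m h)
      rwa [star_mul, star_zero, pj_star (hpj m), pj_star (hpj n)] at h1
  have hp0 : s 0 ≠ 0 := by
    rw [s0]
    intro h
    exact hv3 (sub_eq_zero.1 h).symm
  have heqv : ∀ n, Eqv (s 0) (s n) := by
    intro n
    induction n with
    | zero =>
      refine ⟨s 0, ?_, ?_⟩
      · rw [pj_star (hpj 0), pj_idem (hpj 0)]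
      · rw [pj_star (hpj 0), pj_idem (hpj 0)]
    | succ n ih =>
      apply Inf1.eqv_trans (hpj 0) (hpj n) ih
      refine ⟨v * s n, ?_, ?_⟩
      · have e1 : star (v * s n) * (v * s n) = s n * (star v * v) * s n := by
          rw [star_mul, pj_star (hpj n)]; noncomm_ring
        rw [e1, hv1, hle, pj_idem (hpj n)]
      · have e1 : v * s n * star (v * s n) = v * (s n * s n) * star v := by
          rw [star_mul, pj_star (hpj n)]; noncomm_ring
        rw [e1, pj_idem (hpj n), ss]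
  set p : A := s 0 with hp
  have hpP : PJ p := hpj 0
  -- Zorn
  set Sset : Set (Set A) := {F : Set A | (∀ q ∈ F, PJ q ∧ Le q g ∧ Eqv p q) ∧
    ∀ q ∈ F, ∀ q' ∈ F, q ≠ q' → q * q' = 0} with hSset
  have hF0 : Set.range s ∈ Sset := by
    refine ⟨?_, ?_⟩
    · rintro q ⟨n, rfl⟩
      exact ⟨hpj n, hle n, heqv n⟩
    · rintro q ⟨n, rfl⟩ q' ⟨n', rfl⟩ hne
      apply horth'
      rintro rfl
      exact hne rfl
  obtain ⟨F, hsub, hFmax⟩ := zorn_subset_nonempty Sset (by
    intro c hc hchain _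
    refine ⟨⋃₀ c, ⟨?_, ?_⟩, fun t ht => Set.subset_sUnion_of_mem ht⟩
    · rintro q ⟨t, ht, hq⟩
      exact (hc ht).1 q hq
    · rintro q ⟨t, ht, hq⟩ q' ⟨t', ht', hq'⟩ hne
      rcases hchain.total ht ht' with h | h
      · exact (hc ht').2 q (h hq) q' hq' hne
      · exact (hc ht).2 q hq q' (h hq') hne) (Set.range s) hF0
  have hFS : F ∈ Sset := hFmax.prop
  obtain ⟨hF1, hF2⟩ := hFS
  have hpF : p ∈ F := hsub ⟨0, rfl⟩
  obtain ⟨E, hE⟩ := hSup (↥F) (fun i => i.1) (fun i => (hF1 i.1 i.2).1)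
  obtain ⟨hEP, hE1, hE2⟩ := hE
  have hqE : ∀ q ∈ F, q * E = q := fun q hq => hE1 ⟨q, hq⟩
  have hEq : ∀ q ∈ F, E * q = q := fun q hq => le_left (hF1 q hq).1 hEP (hqE q hq)
  have hgE : g * E = E := by
    have h1 := hE2 (1 - g) (fun i => by
      rw [sub_mul, one_mul, le_left (hF1 i.1 i.2).1 hg (hF1 i.1 i.2).2.1, sub_self])
    rw [sub_mul, one_mul, sub_eq_zero] at h1
    exact h1.symm
  have hEg : E * g = E := by
    have := congrArg star hgE
    rwa [star_mul, pj_star hg, pj_star hEP] at this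
  set r : A := g - E with hr
  have hrP : PJ r := by
    apply pj_mk
    · rw [hr]
      have e1 : (g - E) * (g - E) = g * g - g * E - E * g + E * E := by noncomm_ring
      rw [e1, pj_idem hg, hgE, hEg, pj_idem hEP]
      abel
    · rw [hr, star_sub, pj_star hg, pj_star hEP]
  have hrg : r * g = r := by
    rw [hr, sub_mul, pj_idem hg, hEg]
  have hrq : ∀ q ∈ F, r * q = 0 := by
    intro q hq
    rw [hr, sub_mul, le_left (hF1 q hq).1 hg (hF1 q hq).2.1, hEq q hq, sub_self]
  obtain ⟨z, hz, hz1, hz2⟩ := GC hA hrP hpP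
  have hzp : z * p ≠ 0 := by
    intro h0
    have h : Sub p r := by
      have e1 : (1 - z) * p = p := by rw [sub_mul, one_mul, h0, sub_zero]
      rw [e1] at hz2
      obtain ⟨w, w1, w2⟩ := hz2
      refine ⟨w, w1, ?_⟩
      have e2 : (1 - z) * r * r = (1 - z) * r := by rw [mul_assoc, pj_idem hrP]
      calc w * star w * r = (w * star w * ((1 - z) * r)) * r := by rw [w2]
        _ = w * star w * ((1 - z) * r) := by rw [mul_assoc, e2]
        _ = w * star w := w2
    obtain ⟨w, hw1, hw2⟩ := h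
    set p' : A := w * star w with hp'
    have hp'P : PJ p' := final hpP hw1
    have hp'q : ∀ q ∈ F, p' * q = 0 := by
      intro q hq
      rw [← hw2, mul_assoc, hrq q hq, mul_zero]
    have hqp' : ∀ q ∈ F, q * p' = 0 := by
      intro q hq
      have := congrArg star (hp'q q hq)
      rwa [star_mul, star_zero, pj_star hp'P, pj_star (hF1 q hq).1] at this
    have hpp' : Eqv p p' := ⟨w, hw1, rfl⟩
    have hp'0 : p' ≠ 0 := eqv_ne_zero hpp' hp0
    have hnot : p' ∉ F := by
      intro h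
      have := hp'q p' h
      rw [pj_idem hp'P] at this
      exact hp'0 this
    have hins : insert p' F ∈ Sset := by
      refine ⟨?_, ?_⟩
      · rintro q (rfl | hq)
        · refine ⟨hp'P, ?_, hpp'⟩
          show p' * g = p'
          rw [← hw2, mul_assoc, hrg]
        · exact hF1 q hq
      · rintro q (rfl | hq) q' (rfl | hq') hne
        · exact absurd rfl hne
        · exact hp'q q' hq'
        · exact hqp' q hq
        · exact hF2 q hq q' hq' hne
    exact hnot (hFmax.le_of_ge hins (Set.subset_insert _ _) (Set.mem_insert _ _))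

  have hq : ∀ i : ↥F, PJ (i : A) := fun i => (hF1 i.1 i.2).1
  have hinfF : Infinite ↥F := by
    apply Infinite.of_injective (fun n : ℕ => (⟨s n, hsub ⟨n, rfl⟩⟩ : ↥F))
    intro m n hmn
    by_contra hne
    have h1 : s m = s n := congrArg Subtype.val hmn
    have h2 := horth' m n hne
    rw [← h1, pj_idem (hpj m)] at h2
    exact eqv_ne_zero (heqv m) hp0 h2
  refine ⟨z, hz, ?_, ?_⟩
  · intro h0
    apply hzp
    have : g * p = p := le_left hpP hg (hF1 p hpF).2.1
    rw [← this, ← mul_assoc, h0, zero_mul]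
  · have hEz : IsSup (fun i : ↥F => z * (i : A)) (z * E) := hz.isSup ⟨hEP, hE1, hE2⟩
    obtain ⟨g1, g2, a1, a2, a3, a4, a5, a6, a7⟩ := halv_of_family hA.sup hA.addO (hz.pj hg)
      (q := fun i : ↥F => z * (i : A)) hinfF (fun i => hz.pj (hq i))
      (fun i j hij => by
        rw [hz.mul_mul, hF2 i.1 i.2 j.1 j.2 (fun h => hij (Subtype.ext h)), mul_zero])
      (fun i => hz.le (hF1 i.1 i.2).2.1)
      (fun i j => hz.eqv (Inf1.eqv_trans (hF1 i.1 i.2).1 hpP (Inf1.eqv_symm (hF1 i.1 i.2).2.2)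
        (hF1 j.1 j.2).2.2)) hEz
      (fun i => by
        have e1 : z * g - z * E = z * r := by rw [hr, mul_sub]
        rw [e1]
        exact Inf1.sub_eqv (hz.pj hpP) hz1 (hz.eqv (hF1 i.1 i.2).2.2))
    exact Halv.of_two (hz.pj hg) a1 a2 a3 a4 a5 a6 a7

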