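import Pool.Agent.K1H31.AW.WL

/-!
# AW*-algebras: the reducing hull of a properly infinite projection
-/

set_option autoImplicit false

namespace Pool.Agent.K1H31.AW

open Pool.Agent.R456.CL

universe u

variable {A : Type u} [CStarAlgebra A]

/-- words in `T` and `T*` -/
def wd (T : A) : List Bool → A
  | [] => 1
  | b :: l => (if b then T else star T) * wd T l

lemma wd_comm {T Z : A} (h : Z * T = T * Z) (h' : Z * star T = star T * Z) (l : List Bool) :
    Z * wd T l = wd T l * Z := by
  induction l with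
  | nil => simp [wd]
  | cons b l ih =>
    have hb : Z * (if b then T else star T) = (if b then T else star T) * Z := by
      cases b
      · simpa using h'
      · simpa using h
    rw [wd, ← mul_assoc, hb, mul_assoc, ih, mul_assoc]

theorem hull (hA : Good A) {Z k T : A} (hZ : PJ Z) (hHZ : Halv Z) (hk : PJ k) (hHk : Halv k)
    (hkZ : Le k Z) (hZT : Z * T = T * Z) : ∃ h : A, PJ h ∧ Le k h ∧ Le h Z ∧ h * T = T * h ∧
      Sub h k := by
  have hZT' : Z * star T = star T * Z := by
    have := congrArg star hZT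
    rw [star_mul, star_mul, PJ.star hZ] at this
    exact this.symm
  have hZk : Z * k = k := hkZ.rev hk hZ
  have hkk := PJ.mul_self hk
  have hp : ∀ i : List Bool × ℕ, ∃ k' w c : A, PJ k' ∧ Le k' k ∧ star w * w = k' ∧
      Le (w * star w) Z ∧ w * star w * (wd T i.1 * k) = wd T i.1 * k * k' ∧ k' * c = c ∧
      c * (w * star w) = c ∧ c * (wd T i.1 * k * k') = k' ∧ wd T i.1 * k * k' * c = w * star w ∧
      ‖wd T i.1 * k * (k - k')‖ ≤ 1 / ((i.2 : ℝ) + 1) := by
    intro i
    refine cut_pack hA.cut hk hZ (by rw [mul_assoc, hkk]) ?_ (by positivity)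
    rw [← mul_assoc, wd_comm hZT hZT', mul_assoc, hZk]
  choose k' w c p1 p2 p3 p4 p5 p6 p7 p8 p9 p10 using hp
  obtain ⟨φ, hφ⟩ := exists_surjective_nat (List Bool × ℕ)
  have q1 : ∀ i, PJ (w i * star (w i)) := fun i => pi_final (p1 i) (p3 i)
  obtain ⟨H, hH, hHZ', hHk'⟩ := cjoin hA hZ hHZ hk hHk hkZ (fun n => w (φ n) * star (w (φ n)))
    (fun n => q1 _) (fun n => p4 _) (fun n => by
      refine sub_trans' (q1 _) (p1 _) hk (sub_of_eqv (p1 _) (eqv_symm ⟨w (φ n), p3 _, rfl⟩)) ?_
      exact sub_of_le (p1 _) (p2 _))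
  have hle : ∀ i, (1 - H) * (w i * star (w i)) = 0 := by
    intro i
    obtain ⟨n, rfl⟩ := hφ i
    have h1 : (w (φ n) * star (w (φ n))) * H = w (φ n) * star (w (φ n)) := hH.2.1 n
    rw [sub_mul, one_mul, Le.rev (q1 _) hH.1 h1, sub_self]
  have h1H : ‖1 - H‖ ≤ 1 := pj_norm_le hH.1.one_sub
  have key : ∀ l : List Bool, (1 - H) * (wd T l * k) = 0 := by
    intro l
    have hn : ∀ n : ℕ, ‖(1 - H) * (wd T l * k)‖ ≤ 1 / ((n : ℝ) + 1) := by
      intro n
      have h1 : (1 - H) * (wd T l * k) = (1 - H) * (wd T l * k * (k - k' (l, n))) := by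
        have h2 : (1 - H) * (wd T l * k * k' (l, n)) = 0 := by
          rw [← p5 (l, n), ← mul_assoc, hle, zero_mul]
        have h3 : wd T l * k * (k - k' (l, n)) = wd T l * k - wd T l * k * k' (l, n) := by
          rw [mul_sub, mul_assoc _ k k, hkk]
        rw [h3, mul_sub, h2, sub_zero]
      rw [h1]
      refine (norm_mul_le _ _).trans ?_
      calc ‖1 - H‖ * ‖wd T l * k * (k - k' (l, n))‖ ≤ 1 * (1 / ((n : ℝ) + 1)) :=
            mul_le_mul h1H (p10 (l, n)) (norm_nonneg _) zero_le_one
        _ = _ := one_mul _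
    have h0 : ‖(1 - H) * (wd T l * k)‖ ≤ 0 := by
      refine ge_of_tendsto' tendsto_one_div_add_atTop_nhds_zero_nat hn
    exact norm_le_zero_iff.1 h0
  have keyT : ∀ b : Bool, (1 - H) * (if b then T else star T) * H = 0 := by
    intro b
    refine hH.2.2 _ (fun n => ?_)
    obtain ⟨i, hi⟩ : ∃ i, i = φ n := ⟨_, rfl⟩
    show (1 - H) * (if b then T else star T) * (w (φ n) * star (w (φ n))) = 0
    rw [← hi, ← p9 i]
    have h1 := key (b :: i.1)
    rw [wd] at h1
    calc (1 - H) * (if b then T else star T) * (wd T i.1 * k * k' i * c i)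
        = ((1 - H) * ((if b then T else star T) * wd T i.1 * k)) * (k' i * c i) := by
          simp only [mul_assoc]
      _ = 0 := by rw [h1, zero_mul]
  have e1 : T * H = H * T * H := by
    have := keyT true
    simp only [if_true] at this
    rw [sub_mul, one_mul, sub_mul, sub_eq_zero] at this
    exact this
  have e2 : star T * H = H * star T * H := by
    have := keyT false
    simp only [Bool.false_eq_true, if_false] at this
    rw [sub_mul, one_mul, sub_mul, sub_eq_zero] at this
    exact this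
  have e3 : H * T = H * T * H := by
    have := congrArg star e2
    simp only [star_mul, star_star, PJ.star hH.1] at this
    rw [mul_assoc]; exact this
  refine ⟨H, hH.1, ?_, hHZ', by rw [e3, e1], hHk'⟩
  have h1 := key []
  rw [wd, one_mul, sub_mul, one_mul, sub_eq_zero] at h1
  have h2 := congrArg star h1
  rw [star_mul, PJ.star hH.1, PJ.star hk] at h2
  exact h2.symm

end Pool.Agent.K1H31.AW
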