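import Pool.Agent.K1H31.AW.Hull

/-!
# AW*-algebras: every reducing projection contains a nice one
-/

set_option autoImplicit false

namespace Pool.Agent.K1H31.AW

open Pool.Agent.R456.CL

universe u

variable {A : Type u} [CStarAlgebra A]

/-- nice reducing projections -/
def Nice (q T : A) : Prop := DataA q T ∨ ∃ (k : A) (c : ℂ), PJ k ∧ Le k q ∧ ¬ Infin k ∧
  ‖(q - k) * (T - c • q) * (q - k)‖ ≤ 1 / 4

lemma DataA.corner {g G T : A} (hG : Le g G) (h : DataA g (G * T)) : DataA g T := by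
  obtain ⟨e, f, c, he, hf, heg, hfg, hef, hge, hgf, h1, h2, h3, h4, h5⟩ := h
  have key : f * (G * T) * e = f * T * e := by
    rw [← mul_assoc f, show f * G = f from le_trans' hfg hG]
  rw [key] at h3 h4
  exact ⟨e, f, c, he, hf, heg, hfg, hef, hge, hgf, h1, h2, h3, h4, h5⟩

lemma not_infin_zero : ¬ Infin (0 : A) := by
  rintro ⟨v, h1, h2, h3⟩
  exact h3 (by rw [mul_zero] at h2; exact h2.symm)

lemma pj_zero'' : PJ (0 : A) := ⟨by simp [IsIdempotentElem], by simp [IsSelfAdjoint]⟩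

theorem local_nice (hA : Good A) {g T : A} (hg : PJ g) (hg0 : g ≠ 0) (hgT : g * T = T * g) :
    ∃ q : A, PJ q ∧ Le q g ∧ q ≠ 0 ∧ q * T = T * q ∧ Nice q T := by
  by_contra hcon
  have H : ∀ q : A, PJ q → Le q g → q ≠ 0 → q * T = T * q → ¬ Nice q T := by
    intro q h1 h2 h3 h4 h5
    exact hcon ⟨q, h1, h2, h3, h4, h5⟩
  have zT : ∀ z q : A, Cen z → q * T = T * q → z * q * T = T * (z * q) := by
    intro z q hz hq
    rw [mul_assoc, hq, ← mul_assoc, hz.2 T, mul_assoc]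
  -- all reducing projections are properly infinite
  have hall : ∀ q : A, PJ q → Le q g → q * T = T * q → Halv q := by
    intro q hq hqg hqT
    obtain ⟨z, hz, hz1, hz2⟩ := dec hA hq
    have h0 : z * q = 0 := by
      by_contra hne
      refine H (z * q) (hz.pj hq) (le_trans' (hz.le_self hq) hqg) hne (zT z q hz hqT)
        (Or.inr ⟨z * q, 0, hz.pj hq, PJ.mul_self (hz.pj hq), hz1, ?_⟩)
      rw [sub_self, zero_mul, zero_mul, norm_zero]; norm_num
    have e1 : (1 - z) * q = q := by rw [sub_mul, one_mul, h0, sub_zero]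
    rwa [e1] at hz2
  -- one step
  have step : ∀ x : {q : A // PJ q ∧ Le q g ∧ q ≠ 0 ∧ q * T = T * q},
      ∃ (y : {q : A // PJ q ∧ Le q g ∧ q ≠ 0 ∧ q * T = T * q}) (z : A), Cen z ∧
        Le y.1 (z * x.1) ∧ Small (z * x.1) y.1 ∧ ∃ (ι : Type u) (p : ι → A) (E : A),
          Fam (z * x.1) y.1 ι p E := by
    rintro ⟨q, hq, hqg, hq0, hqT⟩
    have hqq := PJ.mul_self hq
    have hHq := hall q hq hqg hqT
    obtain ⟨z0, hz0, hz00, k, c, hk, hkq, hks, hkn⟩ := main' hA (T := q * T) hq hHq hq0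
      (by rw [← mul_assoc, hqq]) (by rw [mul_assoc, ← hqT, ← mul_assoc, hqq])
      (fun z hz hne hD => H (z * q) (hz.pj hq) (le_trans' (hz.le_self hq) hqg) hne
        (zT z q hz hqT) (Or.inl (hD.corner (hz.le_self hq))))
    obtain ⟨Q0, hQ0⟩ : ∃ Q0, Q0 = z0 * q := ⟨_, rfl⟩
    have hQp : PJ Q0 := by rw [hQ0]; exact hz0.pj hq
    have hQT : Q0 * T = T * Q0 := by rw [hQ0]; exact zT z0 q hz0 hqT
    have hQq : Le Q0 q := by rw [hQ0]; exact hz0.le_self hq
    have hQg : Le Q0 g := le_trans' hQq hqg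
    rw [← hQ0] at hz00 hkq hks hkn
    have hdp : PJ (Q0 - k) := pj_sub hk hQp hkq
    have hdQ : (Q0 - k) * Q0 = Q0 - k := by rw [sub_mul, PJ.mul_self hQp, hkq]
    have hdq : (Q0 - k) * q = Q0 - k := by
      rw [← hdQ, mul_assoc, hQq]
    have hn : ‖(Q0 - k) * (T - c • Q0) * (Q0 - k)‖ ≤ 1 / 4 := by
      have e1 : (Q0 - k) * (T - c • Q0) = (Q0 - k) * T - c • (Q0 - k) := by
        rw [mul_sub (Q0 - k) T, mul_smul_comm, hdQ]
      have e2 : (Q0 - k) * (q * T - c • q) = (Q0 - k) * T - c • (Q0 - k) := by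
        rw [mul_sub (Q0 - k) (q * T), mul_smul_comm, hdq, ← mul_assoc, hdq]
      rw [e1, ← e2]; exact hkn
    -- `k` is properly infinite
    obtain ⟨z1, hz1, hz11, hz12⟩ := dec hA hk
    have hz1Q : z1 * Q0 = 0 := by
      by_contra hne
      refine H (z1 * Q0) (hz1.pj hQp) (le_trans' (hz1.le_self hQp) hQg) hne (zT z1 Q0 hz1 hQT)
        (Or.inr ⟨z1 * k, c, hz1.pj hk, hz1.le hkq, hz11, ?_⟩)
      have e1 : (z1 * Q0 - z1 * k) * (T - c • (z1 * Q0)) * (z1 * Q0 - z1 * k)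
          = z1 * ((Q0 - k) * (T - c • Q0) * (Q0 - k)) := by
        rw [← mul_sub]
        have e2 : z1 * (Q0 - k) * (T - c • (z1 * Q0)) = z1 * ((Q0 - k) * (T - c • Q0)) := by
          rw [mul_sub (z1 * (Q0 - k)) T, mul_sub (Q0 - k) T, mul_smul_comm, mul_smul_comm,
            hz1.mul_mul, mul_sub z1 ((Q0 - k) * T), mul_smul_comm, mul_assoc]
        rw [e2, hz1.mul_mul]
      rw [e1]
      refine (norm_mul_le _ _).trans ?_
      calc ‖z1‖ * ‖(Q0 - k) * (T - c • Q0) * (Q0 - k)‖ ≤ 1 * (1 / 4) :=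
            mul_le_mul (pj_norm_le hz1.1) hn (norm_nonneg _) zero_le_one
        _ = _ := one_mul _
    have hz1k : z1 * k = 0 := by
      rw [← show k * Q0 = k from hkq, ← mul_assoc, hz1.2 k, mul_assoc, hz1Q, mul_zero]
    have hHk : Halv k := by
      have e1 : (1 - z1) * k = k := by rw [sub_mul, one_mul, hz1k, sub_zero]
      rwa [e1] at hz12
    have hk0 : k ≠ 0 := by
      intro h0
      refine H Q0 hQp hQg hz00 hQT (Or.inr ⟨0, c, pj_zero'', ?_, not_infin_zero, ?_⟩)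
      · show 0 * Q0 = 0
        exact zero_mul _
      · rw [h0] at hn; exact hn
    -- the hull
    obtain ⟨h, hh, hkh, hhQ, hhT, hhk⟩ := hull hA hQp (hall Q0 hQp hQg hQT) hk hHk hkq hQT
    have hh0 : h ≠ 0 := by
      intro h0
      apply hk0
      rw [← show k * h = k from hkh, h0, mul_zero]
    have hhs : Small Q0 h := Small.mono hQp hk hh hks hhk
    have hhg : Le h g := le_trans' hhQ hQg
    obtain ⟨z2, hz2, hz20, ι, p, E, hF⟩ := wfam hA hQp hh hhQ (hall h hh hhg hhT) hh0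
    refine ⟨⟨z2 * h, hz2.pj hh, le_trans' (hz2.le_self hh) hhg, hz20, zT z2 h hz2 hhT⟩, z2 * z0,
      hz2.mul hz0, ?_, ?_, ι, p, E, ?_⟩
    · show Le (z2 * h) (z2 * z0 * q)
      rw [mul_assoc, ← hQ0]; exact hz2.le hhQ
    · show Small (z2 * z0 * q) (z2 * h)
      rw [mul_assoc, ← hQ0]; exact hhs.cen hz2
    · show Fam (z2 * z0 * q) (z2 * h) ι p E
      rw [mul_assoc, ← hQ0]; exact hF
  choose G Zf hG1 hG2 hG3 hG4 using step
  obtain ⟨s, hs⟩ : ∃ s : ℕ → {q : A // PJ q ∧ Le q g ∧ q ≠ 0 ∧ q * T = T * q},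
      ∀ n, s (n + 1) = G (s n) :=
    ⟨fun n => Nat.rec ⟨g, hg, PJ.mul_self hg, hg0, hgT⟩ (fun _ x => G x) n, fun n => rfl⟩
  refine no_chain hA hg (hall g hg (PJ.mul_self hg) hgT) (fun n => (s n).1) (fun n => Zf (s n))
    (fun n => (s n).2.1) (fun n => (s n).2.2.1) (fun n => (s n).2.2.2.1) (fun n => hG1 _) ?_ ?_ ?_
  · intro n
    show Le (s (n + 1)).1 _
    rw [hs]; exact hG2 _
  · intro n
    show Small _ (s (n + 1)).1
    rw [hs]; exact hG3 _
  · intro n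
    show ∃ (ι : Type u) (p : ι → A) (E : A), Fam (Zf (s n) * (s n).1) (s (n + 1)).1 ι p E
    rw [hs]; exact hG4 _

end Pool.Agent.K1H31.AW
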