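import Pool.Agent.K1H31.AW.Small
import Pool.Agent.R456.CL.Main1

/-!
# AW*-algebras: the main dichotomy, local form
-/

set_option autoImplicit false

namespace Pool.Agent.K1H31.AW

open Pool.Agent.R456.CL

universe u

variable {A : Type u} [CStarAlgebra A]

/-- alternative (A), with a bound for the inverse -/
def DataA (g T : A) : Prop := ∃ e f c : A, PJ e ∧ PJ f ∧ Le e g ∧ Le f g ∧ e * f = 0 ∧ Eqv g e ∧
  Eqv g f ∧ e * c = c ∧ c * f = c ∧ c * (f * T * e) = e ∧ (f * T * e) * c = f ∧ ‖c‖ ≤ 320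

def NoA (g T : A) : Prop := ∀ z : A, Cen z → z * g ≠ 0 → ¬ DataA (z * g) T

lemma NoA.cen {g T y : A} (hg : PJ g) (hy : Cen y) (h : NoA g T) : NoA (y * g) (y * T) := by
  intro z hz hne hD
  rw [← mul_assoc] at hne hD
  refine h _ (hz.mul hy) hne ?_
  obtain ⟨e, f, c, he, hf, heg, hfg, hef, hge, hgf, h1, h2, h3, h4, h5⟩ := hD
  have key : f * (y * T) * e = f * T * e := by
    have hye : y * e = e := by
      have h6 : (z * y * g) * e = e := heg.rev he ((hz.mul hy).pj hg)
      calc y * e = y * ((z * y * g) * e) := by rw [h6]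
        _ = (y * (z * y)) * g * e := by simp only [mul_assoc]
        _ = (z * (y * y)) * g * e := by rw [hy.2 (z * y), mul_assoc z]
        _ = e := by rw [hy.zz, h6]
    calc f * (y * T) * e = f * (T * y) * e := by rw [hy.2 T]
      _ = f * T * (y * e) := by simp only [mul_assoc]
      _ = f * T * e := by rw [hye]
  rw [key] at h3 h4
  exact ⟨e, f, c, he, hf, heg, hfg, hef, hge, hgf, h1, h2, h3, h4, h5⟩

/-- the cut projection is small -/
lemma cut_small (hcut : PCut A) {g T : A} (hg : PJ g) (hN : NoA g T) {e : A} (he : PJ e)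
    (heg : Le e g) {k s : A} (hk : PJ k) (hss : star s = s)
    (hsxs : s * (star ((g - e) * T * e) * ((g - e) * T * e)) * s = k)
    (hssx : s * s * (star ((g - e) * T * e) * ((g - e) * T * e)) = k) (hn : ‖s‖ ≤ 320) :
    Le k e ∧ Small g k := by
  obtain ⟨x, hx⟩ : ∃ x, x = (g - e) * T * e := ⟨_, rfl⟩
  rw [← hx] at hssx hsxs
  have hge : g * e = e := heg.rev he hg
  have hpge : PJ (g - e) := pj_sub he hg heg
  have hee := PJ.mul_self he
  have hxe : x * e = x := by rw [hx, mul_assoc _ e e, hee]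
  have hgx : (g - e) * x = x := by
    rw [hx, ← mul_assoc, ← mul_assoc, PJ.mul_self hpge]
  have hke : k * e = k := by
    rw [← hssx, mul_assoc, mul_assoc (star x) x e, hxe]
  refine ⟨hke, ?_⟩
  rintro z hz ⟨v, hv1, hv2⟩
  by_contra hne
  apply hN z hz hne
  have hzg := hz.pj hg
  obtain ⟨e1, he1⟩ : ∃ e1, e1 = v * star v := ⟨_, rfl⟩
  rw [← he1] at hv2
  have hpe1 : PJ e1 := by rw [he1]; exact pi_final hzg hv1
  have he11 := PJ.mul_self hpe1
  have he1k : e1 * k = e1 := by
    calc e1 * k = e1 * (z * k) * k := by rw [hv2]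
      _ = e1 * (z * (k * k)) := by simp only [mul_assoc]
      _ = e1 := by rw [PJ.mul_self hk, hv2]
  have he1z : e1 * z = e1 := by
    calc e1 * z = e1 * (z * k) * z := by rw [hv2]
      _ = e1 * (z * (k * z)) := by simp only [mul_assoc]
      _ = e1 * (z * (z * k)) := by rw [hz.2 k]
      _ = e1 := by rw [hz.zzx, hv2]
  have hke1 : k * e1 = e1 := Le.rev hpe1 hk he1k
  have he1e : e1 * e = e1 := by rw [← he1k, mul_assoc, hke]
  have hee1 : e * e1 = e1 := Le.rev hpe1 he he1e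
  obtain ⟨y, hy⟩ : ∃ y, y = x * e1 := ⟨_, rfl⟩
  have hye1 : y * e1 = y := by rw [hy, mul_assoc, he11]
  -- left inverse of y
  obtain ⟨y0, hy0⟩ : ∃ y0, y0 = e1 * (s * star (x * s)) := ⟨_, rfl⟩
  have hy0' : y0 = e1 * s * s * star x := by
    rw [hy0, star_mul, hss]; simp only [mul_assoc]
  have hy0y : y0 * y = e1 := by
    have : y0 * y = e1 * (s * s * (star x * x)) * e1 := by
      rw [hy0', hy]; simp only [mul_assoc]
    rw [this, hssx, mul_assoc, hke1, he11]
  obtain ⟨k', s', hk', hks, hsk, hss', -, hssz, -, hszs, hnorm⟩ := hcut y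
    (1 / (2 * (‖y0‖ + 1))) (by positivity)
  have hk'e1 : k' * e1 = k' := by
    rw [← hssz, mul_assoc, mul_assoc (star y) y e1, hye1]
  have hkk : k' = e1 := by
    have hpd : PJ (e1 - k') := pj_sub hk' hpe1 hk'e1
    have h1 : e1 - k' = y0 * (y * (1 - k')) := by
      rw [← mul_assoc, hy0y, mul_sub, mul_one, Le.rev hk' hpe1 hk'e1]
    have h2 : ‖e1 - k'‖ < 1 := by
      rw [h1]
      refine (norm_mul_le _ _).trans_lt ?_
      have h3 : ‖y0‖ * ‖y * (1 - k')‖ ≤ ‖y0‖ * (1 / (2 * (‖y0‖ + 1))) := by gcongr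
      refine h3.trans_lt ?_
      have := norm_nonneg y0
      rw [mul_one_div, div_lt_one (by positivity)]
      linarith
    exact (sub_eq_zero.mp (Main1.pj_zero_of_norm hpd h2)).symm
  rw [hkk] at hks hsk hssz hszs
  obtain ⟨w, hw⟩ : ∃ w, w = y * s' := ⟨_, rfl⟩
  have hww : star w * w = e1 := by
    rw [hw, star_mul, hss', ← hszs]; simp only [mul_assoc]
  have hwe1 : w * e1 = w := by rw [hw, mul_assoc, hsk]
  obtain ⟨f1, hf1⟩ : ∃ f1, f1 = w * star w := ⟨_, rfl⟩
  have hpf1 : PJ f1 := by rw [hf1]; exact pi_final hpe1 hww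
  have hff1 := PJ.mul_self hpf1
  have hf1z : f1 = y * s' * s' * star y := by
    rw [hf1, hw, star_mul, hss']; simp only [mul_assoc]
  have hf1y : f1 * y = y := by
    calc f1 * y = y * (s' * s' * (star y * y)) := by rw [hf1z]; simp only [mul_assoc]
      _ = y := by rw [hssz, hye1]
  have hgef1 : (g - e) * f1 = f1 := by
    calc (g - e) * f1 = ((g - e) * x) * e1 * s' * s' * star y := by
          rw [hf1z, hy]; simp only [mul_assoc]
      _ = f1 := by rw [hgx, hf1z, hy]
  have hf1ge : f1 * (g - e) = f1 := by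
    have := congrArg star hgef1
    rwa [star_mul, PJ.star hpf1, PJ.star hpge] at this
  have hgeg : (g - e) * g = g - e := by rw [sub_mul, PJ.mul_self hg, heg]
  have hf1g : f1 * g = f1 := by rw [← hf1ge, mul_assoc, hgeg]
  have hyz : y * z = y := by rw [hy, mul_assoc, he1z]
  have hf1zz : f1 * z = f1 := by
    have h1 : z * f1 = f1 := by
      rw [hf1z]
      calc z * (y * s' * s' * star y) = (z * y) * s' * s' * star y := by simp only [mul_assoc]
        _ = y * s' * s' * star y := by rw [hz.2 y, hyz]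
    rw [← hz.2, h1]
  have he1g : e1 * g = e1 := by rw [← he1e, mul_assoc, heg]
  have he1f1 : e1 * f1 = 0 := by
    rw [← hgef1, ← mul_assoc, mul_sub, he1g, he1e, sub_self, zero_mul]
  have hf1T : f1 * T * e1 = y := by
    have h1 : f1 * T * e1 = f1 * ((g - e) * T * e) * e1 := by
      calc f1 * T * e1 = (f1 * (g - e)) * T * (e * e1) := by rw [hf1ge, hee1]
        _ = f1 * ((g - e) * T * e) * e1 := by simp only [mul_assoc]
    rw [h1, ← hx, mul_assoc, ← hy, hf1y]
  have he1y0 : e1 * y0 = y0 := by rw [hy0, ← mul_assoc, he11]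
  refine ⟨e1, f1, y0 * f1, hpe1, hpf1, ?_, ?_, he1f1, ⟨v, hv1, he1.symm⟩, ⟨w * v, ?_, ?_⟩, ?_, ?_,
    ?_, ?_, ?_⟩
  · show e1 * (z * g) = e1
    rw [← mul_assoc, he1z, he1g]
  · show f1 * (z * g) = f1
    rw [← mul_assoc, hf1zz, hf1g]
  · rw [star_mul]
    calc star v * star w * (w * v) = star v * (star w * w) * v := by simp only [mul_assoc]
      _ = (star v * v) * (star v * v) := by rw [hww, he1]; simp only [mul_assoc]
      _ = z * g := by rw [hv1, PJ.mul_self hzg]
  · rw [star_mul]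
    calc w * v * (star v * star w) = w * (v * star v) * star w := by simp only [mul_assoc]
      _ = f1 := by rw [← he1, hwe1, hf1]
  · rw [← mul_assoc, he1y0]
  · rw [mul_assoc, hff1]
  · rw [hf1T, mul_assoc, hf1y, hy0y]
  · rw [hf1T]
    calc y * (y0 * f1) = y * (y0 * y) * s' * s' * star y := by rw [hf1z]; simp only [mul_assoc]
      _ = f1 := by rw [hy0y, hye1, hf1z]
  · have n1 : ‖x * s‖ ≤ 1 := by
      refine pi_norm_le hk ?_
      rw [star_mul, hss, ← hsxs]; simp only [mul_assoc]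
    have n2 : ‖y0‖ ≤ 320 := by
      rw [hy0]
      have b1 : ‖s * star (x * s)‖ ≤ 320 * 1 := (norm_mul_le _ _).trans
        (mul_le_mul hn (by rw [norm_star]; exact n1) (norm_nonneg _) (by norm_num))
      have b2 : ‖e1 * (s * star (x * s))‖ ≤ 1 * (320 * 1) := (norm_mul_le _ _).trans
        (mul_le_mul (pj_norm_le hpe1) b1 (norm_nonneg _) (by norm_num))
      linarith
    have b3 : ‖y0 * f1‖ ≤ 320 * 1 := (norm_mul_le _ _).trans
      (mul_le_mul n2 (pj_norm_le hpf1) (norm_nonneg _) (by norm_num))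
    linarith

theorem main1' (hA : Good A) {g T : A} (hg : PJ g) (hH : Halv g) (hN : NoA g T) :
    ∀ e : A, PJ e → Le e g → ∃ c : A, PJ c ∧ Le c g ∧ Small g c ∧
      ‖(g - e) * T * e * (g - c)‖ ≤ 1 / 160 ∧ ‖(g - e) * star T * e * (g - c)‖ ≤ 1 / 160 := by
  intro e he heg
  have hpge : PJ (g - e) := pj_sub he hg heg
  have hge : g * e = e := heg.rev he hg
  obtain ⟨k, s, hk, hks, hsk, hss, hkx, hssx, hxss, hsxs, hnorm, hsn⟩ :=
    hA.cutB ((g - e) * T * e) (1 / 160) (by norm_num)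
  obtain ⟨hke, hksm⟩ := cut_small hA.cut hg hN he heg hk hss hsxs hssx (by norm_num at hsn; exact hsn)
  have hle' : Le (g - e) g := by
    show (g - e) * g = g - e
    rw [sub_mul, PJ.mul_self hg, heg]
  have hgge : g - (g - e) = e := by abel
  obtain ⟨k', s', hk', hks', hsk', hss', hkx', hssx', hxss', hsxs', hnorm', hsn'⟩ :=
    hA.cutB ((g - (g - e)) * T * (g - e)) (1 / 160) (by norm_num)
  obtain ⟨hke', hksm'⟩ := cut_small hA.cut hg hN hpge hle' hk' hss' hsxs' hssx'
    (by norm_num at hsn'; exact hsn')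
  rw [hgge] at hkx' hssx' hxss' hsxs' hnorm'
  obtain ⟨x', hx'⟩ : ∃ x', x' = e * T * (g - e) := ⟨_, rfl⟩
  rw [← hx'] at hkx' hssx' hxss' hsxs' hnorm'
  obtain ⟨w, hw⟩ : ∃ w, w = x' * s' := ⟨_, rfl⟩
  have hww : star w * w = k' := by
    rw [hw, star_mul, hss', ← hsxs']; simp only [mul_assoc]
  obtain ⟨l, hl⟩ : ∃ l, l = w * star w := ⟨_, rfl⟩
  have hpl : PJ l := by rw [hl]; exact pi_final hk' hww
  have hex' : e * x' = x' := by rw [hx', ← mul_assoc, ← mul_assoc, PJ.mul_self he]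
  have hew : e * w = w := by rw [hw, ← mul_assoc, hex']
  have hel : e * l = l := by rw [hl, ← mul_assoc, hew]
  have hle : l * e = l := by
    have := congrArg star hel
    rwa [star_mul, PJ.star hpl, PJ.star he] at this
  have hlg : l * g = l := by rw [← hle, mul_assoc, heg]
  have hlsm : Small g l := Small.mono hg hk' hpl hksm' (sub_of_eqv hk'
    (eqv_symm ⟨w, hww, hl.symm⟩))
  have hn2 : ‖(1 - l) * x'‖ ≤ 1 / 160 := by
    have h1 : (1 - l) * x' = (1 - l) * (x' * (1 - k')) := by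
      have h2 : l * (x' * k') = x' * k' := by
        have : l * (x' * k') = x' * (s' * s' * (star x' * x')) * k' := by
          rw [hl, hw, star_mul, hss']; simp only [mul_assoc]
        rw [this, hssx', mul_assoc, PJ.mul_self hk']
      have h3 : (1 - l) * (x' * (1 - k')) = (1 - l) * x' - (x' * k' - l * (x' * k')) := by
        noncomm_ring
      rw [h3, h2, sub_self, sub_zero]
    rw [h1]
    refine (norm_mul_le _ _).trans ?_
    calc ‖1 - l‖ * ‖x' * (1 - k')‖ ≤ 1 * (1 / 160) := by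
          gcongr
          exact pj_norm_le hpl.one_sub
      _ = 1 / 160 := one_mul _
  have hkg : Le k g := by
    show k * g = k
    rw [← hke, mul_assoc, heg]
  obtain ⟨c, hc, hkc, hlc, hcsm, hcle⟩ := Small.join hA hg hH hk hpl hksm hlsm
  have hcg : Le c g := hcle g hg hkg hlg
  refine ⟨c, hc, hcg, hcsm, ?_, ?_⟩
  · have h1 : (g - e) * T * e * (g - c) = ((g - e) * T * e * (1 - k)) * (g - c) := by
      have h2 : k * (g - c) = 0 := by rw [mul_sub, hkg, hkc, sub_self]
      have h3 : (g - e) * T * e * (1 - k) * (g - c)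
          = (g - e) * T * e * (g - c) - (g - e) * T * e * (k * (g - c)) := by noncomm_ring
      rw [h3, h2, mul_zero, sub_zero]
    rw [h1]
    refine (norm_mul_le _ _).trans ?_
    calc _ ≤ (1 / 160 : ℝ) * 1 := by
          gcongr
          exact pj_norm_le (pj_sub hc hg hcg)
      _ = 1 / 160 := mul_one _
  · have h0 : (g - e) * star T * e = star x' := by
      rw [hx', star_mul, star_mul, PJ.star he, PJ.star hpge]; simp only [mul_assoc]
    rw [h0]
    have h1 : star x' * (g - c) = (star ((1 - l) * x')) * (g - c) := by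
      have h2 : l * (g - c) = 0 := by rw [mul_sub, hlg, hlc, sub_self]
      have h3 : star ((1 - l) * x') * (g - c) = star x' * (g - c) - star x' * (l * (g - c)) := by
        rw [star_mul, star_sub, star_one, PJ.star hpl]; noncomm_ring
      rw [h3, h2, mul_zero, sub_zero]
    rw [h1]
    refine (norm_mul_le _ _).trans ?_
    calc _ ≤ (1 / 160 : ℝ) * 1 := by
          rw [norm_star]
          gcongr
          exact pj_norm_le (pj_sub hc hg hcg)
      _ = 1 / 160 := mul_one _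

/-- refinement by a central projection -/
lemma refine_z {g : A} (hg0 : g ≠ 0) {ι : Type*} (p : ι → A) (t : Finset ι) :
    ∃ z : A, Cen z ∧ z * g ≠ 0 ∧ ∀ i ∈ t, Sub (z * g) (z * p i) ∨ Small (z * g) (z * p i) := by
  classical
  induction t using Finset.induction_on with
  | empty => exact ⟨1, Cen.one, by rwa [one_mul], by simp⟩
  | insert i t hi ih =>
    obtain ⟨z, hz, hz0, hz1⟩ := ih
    by_cases h : Small (z * g) (z * p i)
    · refine ⟨z, hz, hz0, ?_⟩
      intro j hj
      rcases Finset.mem_insert.1 hj with rfl | hj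
      · exact Or.inr h
      · exact hz1 j hj
    · unfold Small at h
      push Not at h
      obtain ⟨y, hy, hy1, hy2⟩ := h
      refine ⟨y * z, hy.mul hz, by rw [mul_assoc]; exact hy2, ?_⟩
      intro j hj
      rcases Finset.mem_insert.1 hj with rfl | hj
      · left; rw [mul_assoc, mul_assoc]; exact hy1
      · rcases hz1 j hj with h' | h'
        · left; rw [mul_assoc, mul_assoc]; exact hy.sub h'
        · right; rw [mul_assoc, mul_assoc]; exact h'.cen hy

theorem main3' (hA : Good A) {g a : A} (hg : PJ g) (hH : Halv g) (hg0 : g ≠ 0) (hsa : star a = a)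
    (hag : a * g = a) (hsm : ∀ e : A, PJ e → Le e g → ∃ c : A, PJ c ∧ Le c g ∧ Small g c ∧
      ‖(g - e) * a * e * (g - c)‖ ≤ 1 / 160) :
    ∃ z : A, Cen z ∧ z * g ≠ 0 ∧ ∃ (s : A) (c : ℝ), PJ s ∧ Le s (z * g) ∧ Small (z * g) s ∧
      ‖(a - (c : ℂ) • g) * (z * g - s)‖ ≤ 1 / 32 := by
  classical
  obtain ⟨ι, _, p, l, hp, ho, hsum, hcomm, hn⟩ := hA.sa g a hg hsa hag (1 / 160) (by norm_num)
  obtain ⟨z, hz, hz0, hzd⟩ := refine_z hg0 p Finset.univ
  have hzd' : ∀ i, Sub (z * g) (z * p i) ∨ Small (z * g) (z * p i) :=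
    fun i => hzd i (Finset.mem_univ i)
  have hG : PJ (z * g) := hz.pj hg
  have hGH : Halv (z * g) := hH.cen hz
  have hpg : ∀ i, Le (p i) g := by
    intro i
    show p i * g = p i
    rw [← hsum, Finset.mul_sum, Finset.sum_eq_single i]
    · exact PJ.mul_self (hp i)
    · intro j _ hj
      exact ho i j (Ne.symm hj)
    · intro h; exact absurd (Finset.mem_univ i) h
  obtain ⟨P, hP⟩ : ∃ P : ι → A, ∀ i, P i = z * p i := ⟨_, fun i => rfl⟩
  have hPp : ∀ i, PJ (P i) := fun i => by rw [hP]; exact hz.pj (hp i)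
  have hPo : ∀ i j, i ≠ j → P i * P j = 0 := fun i j hij => by
    rw [hP, hP, hz.mul_mul, ho i j hij, mul_zero]
  have hPg : ∀ i, Le (P i) (z * g) := fun i => by rw [hP]; exact hz.le (hpg i)
  have hPsum : ∑ i, P i = z * g := by
    rw [← hsum, Finset.mul_sum]
    exact Finset.sum_congr rfl (fun i _ => hP i)
  have hzd'' : ∀ i, Sub (z * g) (P i) ∨ Small (z * g) (P i) := fun i => by rw [hP]; exact hzd' i
  have hnot : ∀ c : A, Small (z * g) c → ¬ Sub (z * g) c := by
    intro c hc hs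
    apply hz0
    have := hc 1 Cen.one (by rw [one_mul, one_mul]; exact hs)
    rwa [one_mul] at this
  have hL : ∃ i0, Sub (z * g) (P i0) := by
    by_contra hcon
    push Not at hcon
    have h1 := Small.sum hA hG hGH Finset.univ P hPp hPo
      (fun i _ => (hzd'' i).resolve_left (hcon i))
    rw [hPsum] at h1
    exact hz0 (Small.self hG h1)
  obtain ⟨i0, hi0⟩ := hL
  obtain ⟨a0, ha0⟩ : ∃ a0 : A, a0 = ∑ i, (l i : ℂ) • p i := ⟨_, rfl⟩
  rw [← ha0] at hn
  have ha0p : ∀ i, a0 * P i = (l i : ℂ) • P i := by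
    intro i
    have h1 : a0 * p i = (l i : ℂ) • p i := by
      rw [ha0, Finset.sum_mul, Finset.sum_eq_single i]
      · rw [smul_mul_assoc, PJ.mul_self (hp i)]
      · intro j _ hj
        rw [smul_mul_assoc, ho j i hj, smul_zero]
      · intro h; exact absurd (Finset.mem_univ i) h
    rw [hP, hz.2, ← mul_assoc, h1, smul_mul_assoc]
  have hpair : ∀ i, Sub (z * g) (P i) → |l i - l i0| ≤ 4 * (1 / 160) := by
    intro i hi
    by_cases h : i = i0
    · rw [h, sub_self, abs_zero]; norm_num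
    · refine Main3.pair_bound hG (hPp i) (hPp i0) (hPo i i0 h) (hPg i) (hPg i0) hi hi0 (ha0p i)
        (ha0p i0) (by norm_num) hn ?_
      intro e he heG
      have heg : Le e g := le_trans' heG (hz.le_self hg)
      obtain ⟨c, hc, hcg, hcs, hcn⟩ := hsm e he heg
      refine ⟨z * c, hz.pj hc, hz.le hcg, hnot _ (hcs.cen hz), ?_⟩
      have hze : z * e = e := by
        have h2 : (z * g) * e = e := heG.rev he hG
        rw [← h2, ← mul_assoc, hz.zzx]
      have h3 : (z * g - e) * a * e * (z * g - z * c) = (g - e) * a * e * (g - c) := by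
        have h4 : (z * g - e) * a * e = (g - e) * a * e := by
          rw [sub_mul, sub_mul, sub_mul, sub_mul]
          congr 1
          calc z * g * a * e = z * (g * a * e) := by simp only [mul_assoc]
            _ = g * a * (z * e) := by rw [hz.2]; rw [mul_assoc (g * a), ← hz.2 e]
            _ = g * a * e := by rw [hze]
        rw [h4, ← mul_sub]
        calc (g - e) * a * e * (z * (g - c)) = (g - e) * a * (e * z) * (g - c) := by
              simp only [mul_assoc]
          _ = (g - e) * a * e * (g - c) := by rw [← hz.2 e, hze]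
      rw [h3]
      exact hcn
  let t : Finset ι := Finset.univ.filter (fun i => Sub (z * g) (P i))
  let t' : Finset ι := Finset.univ.filter (fun i => ¬ Sub (z * g) (P i))
  have htt : ∑ i ∈ t, P i + ∑ i ∈ t', P i = z * g := by
    rw [← hPsum]
    exact Finset.sum_filter_add_sum_filter_not _ _ _
  have hPJs : PJ (∑ i ∈ t', P i) := Main3.sum_pj t' P hPp hPo
  have hgs : z * g - ∑ i ∈ t', P i = ∑ i ∈ t, P i := by rw [← htt]; abel
  have hLes : Le (∑ i ∈ t', P i) (z * g) := by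
    show (∑ i ∈ t', P i) * (z * g) = ∑ i ∈ t', P i
    rw [Finset.sum_mul]
    exact Finset.sum_congr rfl (fun i _ => hPg i)
  refine ⟨z, hz, hz0, ∑ i ∈ t', P i, l i0, hPJs, hLes, ?_, ?_⟩
  · apply Small.sum hA hG hGH t' P hPp hPo
    intro i hi
    exact (hzd'' i).resolve_left (Finset.mem_filter.mp hi).2
  · rw [hgs]
    have h1 : (a - ((l i0 : ℝ) : ℂ) • g) * (∑ i ∈ t, P i)
        = (a - a0) * (∑ i ∈ t, P i) + ∑ i ∈ t, ((l i - l i0 : ℝ) : ℂ) • P i := by
      have h2 : a0 * (∑ i ∈ t, P i) = ∑ i ∈ t, (l i : ℂ) • P i := by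
        rw [Finset.mul_sum]
        exact Finset.sum_congr rfl (fun i _ => ha0p i)
      have h3 : (((l i0 : ℝ) : ℂ) • g) * (∑ i ∈ t, P i) = ∑ i ∈ t, ((l i0 : ℝ) : ℂ) • P i := by
        rw [Finset.mul_sum]
        apply Finset.sum_congr rfl
        intro i _
        rw [smul_mul_assoc, Le.rev (hPp i) hg (le_trans' (hPg i) (hz.le_self hg))]
      have h4 : ∑ i ∈ t, ((l i - l i0 : ℝ) : ℂ) • P i
          = ∑ i ∈ t, (l i : ℂ) • P i - ∑ i ∈ t, ((l i0 : ℝ) : ℂ) • P i := by
        rw [← Finset.sum_sub_distrib]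
        apply Finset.sum_congr rfl
        intro i _
        rw [← sub_smul]; congr 1; push_cast; ring
      rw [h4, ← h2, ← h3]
      noncomm_ring
    rw [h1]
    have h5 : ‖(a - a0) * (∑ i ∈ t, P i)‖ ≤ 1 / 160 := by
      refine (norm_mul_le _ _).trans ?_
      exact (mul_le_of_le_one_right (norm_nonneg _)
        (pj_norm_le (Main3.sum_pj t P hPp hPo))).trans hn
    have h6 : ‖∑ i ∈ t, ((l i - l i0 : ℝ) : ℂ) • P i‖ ≤ 4 * (1 / 160) := by
      apply Main3.comb_norm t P hPp hPo (fun i => l i - l i0) (4 * (1 / 160)) (by norm_num)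
      intro i hi
      exact hpair i (Finset.mem_filter.mp hi).2
    refine (norm_add_le _ _).trans ?_
    linarith

lemma part' (hA : Good A) {g T : A} (hg : PJ g) (hH : Halv g) (hg0 : g ≠ 0) (hgT : g * T = T)
    (hTg : T * g = T) (hN : NoA g T) (c d : ℂ) (a : A) (hc : ‖c‖ = 1 / 2) (hd : ‖d‖ = 1)
    (ha : star a = a) (had : a = c • (T + d • star T)) :
    ∃ z : A, Cen z ∧ z * g ≠ 0 ∧ ∃ (s : A) (r : ℝ), PJ s ∧ Le s (z * g) ∧ Small (z * g) s ∧
      ‖(a - (r : ℂ) • g) * (z * g - s)‖ ≤ 1 / 32 := by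
  have hM1 := main1' hA hg hH hN
  have hsTg : star T * g = star T := star_absorb_left hg hgT
  refine main3' hA hg hH hg0 ha ?_ ?_
  · rw [had, smul_mul_assoc, add_mul, smul_mul_assoc, hTg, hsTg]
  · intro e he heg
    obtain ⟨k, hk1, hk2, hk3, hk4, hk5⟩ := hM1 e he heg
    refine ⟨k, hk1, hk2, hk3, ?_⟩
    have : (g - e) * a * e * (g - k)
        = c • ((g - e) * T * e * (g - k) + d • ((g - e) * star T * e * (g - k))) := by
      rw [had]
      simp only [mul_smul_comm, smul_mul_assoc, mul_add, add_mul]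
    rw [this, norm_smul, hc]
    have h2 : ‖(g - e) * T * e * (g - k) + d • ((g - e) * star T * e * (g - k))‖
        ≤ 1 / 160 + 1 / 160 := by
      refine (norm_add_le _ _).trans (add_le_add hk4 ?_)
      rw [norm_smul, hd, one_mul]; exact hk5
    linarith

theorem main' (hA : Good A) {g T : A} (hg : PJ g) (hH : Halv g) (hg0 : g ≠ 0) (hgT : g * T = T)
    (hTg : T * g = T) (hN : NoA g T) : ∃ z : A, Cen z ∧ z * g ≠ 0 ∧ ∃ (k : A) (c : ℂ), PJ k ∧
      Le k (z * g) ∧ Small (z * g) k ∧ ‖(z * g - k) * (T - c • g) * (z * g - k)‖ ≤ 1 / 4 := by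
  have hhalf : ‖(1 / 2 : ℂ)‖ = 1 / 2 := by norm_num
  have hsI : ∀ S : A, star ((-(Complex.I / 2) : ℂ) • (S + (-1 : ℂ) • star S))
      = (-(Complex.I / 2) : ℂ) • (S + (-1 : ℂ) • star S) := by
    intro S
    rw [star_smul, star_add, star_smul, star_star]
    have : star (-(Complex.I / 2)) = Complex.I / 2 := by
      simp [Complex.conj_I, neg_div]
    rw [this]
    simp only [star_neg, star_one, smul_add, smul_smul]
    rw [add_comm]
    congr 1
    · congr 1; ring
    · congr 1; ring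
  obtain ⟨z1, hz1, hz10, s1, c1, hs1, hs1g, hns1, hb1⟩ := part' hA hg hH hg0 hgT hTg hN (1 / 2) 1
    ((1 / 2 : ℂ) • (T + (1 : ℂ) • star T)) hhalf (by simp)
    (by rw [one_smul, star_smul, star_add, star_star, add_comm]; congr 1; simp) rfl
  have hG1 : PJ (z1 * g) := hz1.pj hg
  obtain ⟨z2, hz2, hz20, s2, c2, hs2, hs2g, hns2, hb2⟩ := part' hA hG1 (hH.cen hz1) hz10
    (T := z1 * T) (by rw [hz1.mul_mul, hgT]) (by rw [hz1.mul_mul, hTg]) (hN.cen hg hz1)
    (-(Complex.I / 2)) (-1) _ (by simp) (by simp) (hsI (z1 * T)) rfl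
  have hG : PJ (z2 * (z1 * g)) := hz2.pj hG1
  obtain ⟨G, hGdef⟩ : ∃ G, G = z2 * (z1 * g) := ⟨_, rfl⟩
  rw [← hGdef] at hG hz20 hs2g hns2 hb2
  have hns1' : Small G (z2 * s1) := by rw [hGdef]; exact hns1.cen hz2
  have hs1' : PJ (z2 * s1) := hz2.pj hs1
  have hs1G : Le (z2 * s1) G := by rw [hGdef]; exact hz2.le hs1g
  have hGH : Halv G := by rw [hGdef]; exact (hH.cen hz1).cen hz2
  obtain ⟨s, hs, hs1s, hs2s, hns, hsle⟩ := Small.join hA hG hGH hs1' hs2 hns1' hns2
  have hsG : Le s G := hsle G hG hs1G hs2g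
  refine ⟨z2 * z1, hz2.mul hz1, by rw [mul_assoc, ← hGdef]; exact hz20, s,
    (c1 : ℂ) + Complex.I * (c2 : ℂ), hs, by rw [mul_assoc, ← hGdef]; exact hsG,
    by rw [mul_assoc, ← hGdef]; exact hns, ?_⟩
  rw [mul_assoc z2 z1 g, ← hGdef]
  have hGs' : G * s = s := hsG.rev hs hG
  have hGG := PJ.mul_self hG
  have hss := PJ.mul_self hs
  have k1 : ∀ t : A, Le t G → Le t s → (G - t) * (G - s) = G - s := by
    intro t htg hts
    have e1 : t * G = t := htg
    have e2 : t * s = t := hts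
    rw [sub_mul, mul_sub, mul_sub, hGG, hGs', e1, e2]; abel
  have hGsn : ‖G - s‖ ≤ 1 := pj_norm_le (pj_sub hs hG hsG)
  obtain ⟨Q, hQ⟩ : ∃ Q, Q = G - s := ⟨_, rfl⟩
  have hz1G : z1 * G = G := by
    rw [hGdef, hz2.2 (z1 * g), ← mul_assoc, ← mul_assoc, hz1.zz]
  have hz2G : z2 * G = G := by rw [hGdef, hz2.zzx]
  have hsGr : G * s = s := hGs'
  have hz1Q : z1 * Q = Q := by
    rw [hQ, mul_sub, hz1G, ← hsGr, ← mul_assoc, hz1G]
  have hz2Q : z2 * Q = Q := by
    rw [hQ, mul_sub, hz2G, ← hsGr, ← mul_assoc, hz2G]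
  have hT : T - ((c1 : ℂ) + Complex.I * (c2 : ℂ)) • g
      = ((1 / 2 : ℂ) • (T + (1 : ℂ) • star T) - (c1 : ℂ) • g)
        + Complex.I • ((-(Complex.I / 2) : ℂ) • (T + (-1 : ℂ) • star T) - (c2 : ℂ) • g) := by
    have i1 : Complex.I * -(Complex.I / 2) = 1 / 2 := by
      have := Complex.I_mul_I
      linear_combination (-1 / 2 : ℂ) * this
    rw [smul_sub, smul_smul, smul_smul, i1, add_smul]
    simp only [smul_add, smul_smul]
    have : T = (1 / 2 : ℂ) • T + (1 / 2 : ℂ) • T := by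
      rw [← add_smul]; norm_num
    have h3 : (1 / 2 * -1 : ℂ) • star T = - ((1 / 2 : ℂ) • star T) := by
      rw [← neg_smul]; norm_num
    have h4 : (1 / 2 * 1 : ℂ) • star T = ((1 / 2 : ℂ) • star T) := by
      norm_num
    rw [h3, h4]
    conv_lhs => rw [this]
    abel
  have b1 : ‖((1 / 2 : ℂ) • (T + (1 : ℂ) • star T) - (c1 : ℂ) • g) * Q‖ ≤ 1 / 32 := by
    have h5 : ((1 / 2 : ℂ) • (T + (1 : ℂ) • star T) - (c1 : ℂ) • g) * Q
        = (((1 / 2 : ℂ) • (T + (1 : ℂ) • star T) - (c1 : ℂ) • g) * (z1 * g - s1)) * Q := by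
      have h6 : (z1 * g - s1) * Q = Q := by
        have h7 : (z1 * g - s1) * Q = (z2 * (z1 * g - s1)) * Q := by
          rw [hz2.2 (z1 * g - s1), mul_assoc, hz2Q]
        rw [h7, mul_sub, ← hGdef, hQ]
        exact k1 (z2 * s1) hs1G hs1s
      rw [mul_assoc, h6]
    rw [h5]
    refine (norm_mul_le _ _).trans ?_
    calc _ ≤ 1 / 32 * 1 := mul_le_mul hb1 (by rw [hQ]; exact hGsn) (norm_nonneg _) (by norm_num)
      _ = _ := by norm_num
  have b2 : ‖((-(Complex.I / 2) : ℂ) • (T + (-1 : ℂ) • star T) - (c2 : ℂ) • g) * Q‖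
      ≤ 1 / 32 := by
    have h5 : ((-(Complex.I / 2) : ℂ) • (T + (-1 : ℂ) • star T) - (c2 : ℂ) • g) * Q
        = (((-(Complex.I / 2) : ℂ) • (z1 * T + (-1 : ℂ) • star (z1 * T)) - (c2 : ℂ) • (z1 * g))
          * (G - s2)) * Q := by
      have h6 : (G - s2) * Q = Q := by rw [hQ]; exact k1 s2 hs2g hs2s
      rw [mul_assoc, h6, hz1.star_mul]
      have h7 : ∀ y : A, z1 * y * Q = y * Q := fun y => by
        rw [hz1.2 y, mul_assoc, hz1Q]
      simp only [sub_mul, add_mul, smul_mul_assoc, h7]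
    rw [h5]
    refine (norm_mul_le _ _).trans ?_
    calc _ ≤ 1 / 32 * 1 := mul_le_mul hb2 (by rw [hQ]; exact hGsn) (norm_nonneg _) (by norm_num)
      _ = _ := by norm_num
  have b3 : ‖(T - ((c1 : ℂ) + Complex.I * (c2 : ℂ)) • g) * Q‖ ≤ 1 / 16 := by
    rw [hT, add_mul, smul_mul_assoc]
    refine (norm_add_le _ _).trans ?_
    rw [norm_smul, Complex.norm_I, one_mul]
    linarith
  rw [← hQ, mul_assoc]
  refine (norm_mul_le _ _).trans ?_
  calc ‖Q‖ * ‖(T - ((c1 : ℂ) + Complex.I * (c2 : ℂ)) • g) * Q‖ ≤ 1 * (1 / 16) :=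
        mul_le_mul (by rw [hQ]; exact hGsn) b3 (norm_nonneg _) (by norm_num)
    _ ≤ 1 / 4 := by norm_num

end Pool.Agent.K1H31.AW
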