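import Pool.Agent.K1H31.AW.AddSub
import Pool.Agent.R456.CL.Main3

/-!
# AW*-algebras: centrally small projections
-/

set_option autoImplicit false

namespace Pool.Agent.K1H31.AW

open Pool.Agent.R456.CL

universe u

variable {A : Type u} [CStarAlgebra A]

lemma meet_part (hA : Good A) {p a b : A} (hp : PJ p) (ha : PJ a) (hb : PJ b)
    (hpab : Le p (a + b)) : ∃ x l : A, PJ x ∧ Le x p ∧ Le x a ∧ PJ l ∧ Le l b ∧ Eqv (p - x) l ∧
      ∀ y : A, y * b = y → y * p = 0 → y * l = 0 := by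
  obtain ⟨w, r, l, hR, hL, hw1, hw2⟩ := par hA.sa hA.supO hA.cut hA.sup hp hb
  obtain ⟨hr, hr1, hr2⟩ := hR
  obtain ⟨hl, hl1, hl2⟩ := hL
  have hpp := PJ.mul_self hp
  have hbb := PJ.mul_self hb
  have hrp : Le r p := by
    have := hr2 (1 - p) (by rw [mul_assoc, mul_sub, mul_one, hpp, sub_self, mul_zero])
    rw [mul_sub, mul_one, sub_eq_zero] at this
    exact this.symm
  have hpr : p * r = r := hrp.rev hr hp
  have hlb : Le l b := by
    have h1 := hl2 (1 - b) (by rw [← mul_assoc, sub_mul, one_mul, hbb, sub_self, zero_mul])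
    rw [sub_mul, one_mul, sub_eq_zero] at h1
    have := congrArg star h1
    rw [star_mul, PJ.star hl, PJ.star hb] at this
    exact this.symm
  have hx : PJ (p - r) := pj_sub hr hp hrp
  have hxp : Le (p - r) p := by
    show (p - r) * p = p - r
    rw [sub_mul, hpp, hrp]
  have hbx : b * (p - r) = 0 := by
    have h1 : b * p * (p - r) = 0 := by
      rw [mul_sub, hr1, mul_assoc, hpp, sub_self]
    rw [mul_assoc, mul_sub, hpp, hpr] at h1
    exact h1
  have hxb : (p - r) * b = 0 := orth_comm hb hx hbx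
  refine ⟨p - r, l, hx, hxp, ?_, hl, hlb, ⟨w, by rw [hw1]; abel, hw2⟩, ?_⟩
  · have h1 : (p - r) * (a + b) = p - r := le_trans' hxp hpab
    rw [mul_add, hxb, add_zero] at h1
    exact h1
  · intro y hyb hyp
    exact hl2 y (by rw [← mul_assoc, hyb, hyp])

/-- dichotomy -/
theorem dich (hA : Good A) {g a b : A} (hg : PJ g) (hH : Halv g) (ha : PJ a) (hb : PJ b)
    (hab : a * b = 0) (h : Sub g (a + b)) : ∃ z : A, Cen z ∧ Sub (z * g) (z * b) ∧
      Sub ((1 - z) * g) ((1 - z) * a) := by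
  obtain ⟨v, hv1, hv2⟩ := h
  have hG : PJ (v * star v) := pi_final hg hv1
  have hgG : Eqv g (v * star v) := ⟨v, hv1, rfl⟩
  obtain ⟨G1, G2, hG1, hG2, h12, hl1, hl2, he1, he2⟩ := (Halv.eqv hg hG hgG hH).two hG
  have hba : b * a = 0 := orth_comm ha hb hab
  have hgG1 : Eqv g G1 := eqv_trans hg hG hgG he1
  have hgG2 : Eqv g G2 := eqv_trans hg hG hgG he2
  obtain ⟨x1, l1, hx1, hx1G, hx1a, hl1p, hl1b, hel1, hor1⟩ := meet_part hA hG1 ha hb
    (le_trans' hl1 hv2)
  obtain ⟨x2, l2, hx2, hx2G, hx2b, hl2p, hl2a, hel2, hor2⟩ := meet_part hA hG2 hb ha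
    (le_trans' hl2 (by rw [add_comm]; exact hv2))
  obtain ⟨z, hz, hz1, hz2⟩ := GC hA hx1 hx2
  have h21 : G2 * G1 = 0 := orth_comm hG1 hG2 h12
  have o1 : x2 * l1 = 0 := hor1 x2 hx2b (by
    rw [← show x2 * G2 = x2 from hx2G, mul_assoc, h21, mul_zero])
  have o2 : x1 * l2 = 0 := hor2 x1 hx1a (by
    rw [← show x1 * G1 = x1 from hx1G, mul_assoc, h12, mul_zero])
  have hGx1 : G1 * x1 = x1 := hx1G.rev hx1 hG1
  have hGx2 : G2 * x2 = x2 := hx2G.rev hx2 hG2
  have hp1 : PJ (G1 - x1) := pj_sub hx1 hG1 hx1G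
  have hp2 : PJ (G2 - x2) := pj_sub hx2 hG2 hx2G
  have hz' := hz.compl
  have gen : ∀ (y G x x' l c : A), Cen y → PJ G → PJ x → PJ x' → PJ l → PJ c → Le x G →
      x' * l = 0 → Le x' c → Le l c → Eqv (G - x) l → Sub (y * x) (y * x') → Eqv g G →
      Sub (y * g) (y * c) := by
    intro y G x x' l c hy hGp hx hx' hl hc hxG ho hx'c hlc hel hsub hgG'
    have hpx : PJ (G - x) := pj_sub hx hGp hxG
    have s1 : Sub (y * x + y * (G - x)) (y * x' + y * l) := by
      refine sub_add2 (hy.pj hx) (hy.pj hx') (hy.pj hpx) (hy.pj hl) ?_ ?_ hsub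
        (hy.sub (sub_of_eqv hl hel))
      · rw [hy.mul_mul, mul_sub, hxG, PJ.mul_self hx, sub_self, mul_zero]
      · rw [hy.mul_mul, ho, mul_zero]
    have e1 : y * x + y * (G - x) = y * G := by rw [← mul_add]; congr 1; abel
    rw [e1, ← mul_add] at s1
    have hpl : PJ (x' + l) := pj_add hx' hl ho
    have s2 : Sub (y * (x' + l)) (y * c) := sub_of_le (hy.pj hpl) (hy.le (by
      show (x' + l) * c = x' + l
      rw [add_mul, hx'c, hlc]))
    have s3 : Sub (y * g) (y * G) := hy.sub (sub_of_eqv hGp hgG')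
    exact sub_trans' (hy.pj hg) (hy.pj hGp) (hy.pj hc) s3
      (sub_trans' (hy.pj hGp) (hy.pj hpl) (hy.pj hc) s1 s2)
  refine ⟨z, hz, ?_, ?_⟩
  · exact gen z G1 x1 x2 l1 b hz hG1 hx1 hx2 hl1p hb hx1G o1 hx2b hl1b hel1 hz1 hgG1
  · exact gen (1 - z) G2 x2 x1 l2 a hz' hG2 hx2 hx1 hl2p ha hx2G o2 hx1a hl2a hel2 hz2 hgG2

/-- `k` is small in `g`: no nonzero central piece of `g` embeds in `k` -/
def Small (g k : A) : Prop := ∀ z : A, Cen z → Sub (z * g) (z * k) → z * g = 0

lemma Small.zero (g : A) : Small g 0 := fun z _ h => sub_zero_eq (by rwa [mul_zero] at h)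

lemma Small.self {g : A} (hg : PJ g) (h : Small g g) : g = 0 := by
  have := h 1 Cen.one (by rw [one_mul]; exact sub_refl hg)
  rwa [one_mul] at this

lemma Small.cen {g k y : A} (hy : Cen y) (h : Small g k) : Small (y * g) (y * k) := by
  intro z hz hs
  rw [← mul_assoc] at hs ⊢
  rw [← mul_assoc] at hs
  exact h _ (hz.mul hy) hs

lemma Small.mono {g k k' : A} (hg : PJ g) (hk : PJ k) (hk' : PJ k') (h : Small g k)
    (hs : Sub k' k) : Small g k' := by
  intro z hz h1
  exact h z hz (sub_trans' (hz.pj hg) (hz.pj hk') (hz.pj hk) h1 (hz.sub hs))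

lemma Small.add (hA : Good A) {g s l t : A} (hg : PJ g) (hH : Halv g) (hs : PJ s) (hl : PJ l)
    (ht : PJ t) (hsl : s * l = 0) (hlt : Sub l t) (h1 : Small g s) (h2 : Small g t) :
    Small g (s + l) := by
  intro z hz hsub
  rw [mul_add] at hsub
  obtain ⟨y, hy, hy1, hy2⟩ := dich hA (hz.pj hg) (hH.cen hz) (hz.pj hs) (hz.pj hl)
    (by rw [hz.mul_mul, hsl, mul_zero]) hsub
  have e1 : y * z * g = 0 := by
    refine h2 _ (hy.mul hz) ?_
    rw [mul_assoc, mul_assoc]
    exact sub_trans' (hy.pj (hz.pj hg)) (hy.pj (hz.pj hl)) (hy.pj (hz.pj ht)) hy1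
      (hy.sub (hz.sub hlt))
  have e2 : (1 - y) * z * g = 0 := by
    refine h1 _ (hy.compl.mul hz) ?_
    rw [mul_assoc, mul_assoc]
    exact hy2
  rw [← Cen.compl_split (z := y) (z * g), ← mul_assoc, ← mul_assoc, e1, e2, add_zero]

/-- the join of two small projections is small -/
lemma Small.join (hA : Good A) {g s t : A} (hg : PJ g) (hH : Halv g) (hs : PJ s) (ht : PJ t)
    (h1 : Small g s) (h2 : Small g t) : ∃ c : A, PJ c ∧ Le s c ∧ Le t c ∧ Small g c ∧
      (∀ G : A, PJ G → Le s G → Le t G → Le c G) := by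
  obtain ⟨l, hl, hsl, hlt, htc, hann⟩ := join_add hA hs ht
  refine ⟨s + l, pj_add hs hl hsl, ?_, htc, Small.add hA hg hH hs hl ht hsl hlt h1 h2, ?_⟩
  · show s * (s + l) = s
    rw [mul_add, PJ.mul_self hs, hsl, add_zero]
  · intro G hG hsG htG
    have h3 := hann (1 - G) (by rw [sub_mul, one_mul, hsG.rev hs hG, sub_self])
      (by rw [sub_mul, one_mul, htG.rev ht hG, sub_self])
    rw [sub_mul, one_mul, sub_eq_zero] at h3
    have h4 := congrArg star h3
    rw [star_mul, PJ.star hl, PJ.star hG] at h4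
    show (s + l) * G = s + l
    rw [add_mul, hsG, ← h4]

lemma Small.sum (hA : Good A) {g : A} (hg : PJ g) (hH : Halv g) {ι : Type*} (t : Finset ι)
    (p : ι → A) (hp : ∀ i, PJ (p i)) (ho : ∀ i j, i ≠ j → p i * p j = 0)
    (hs : ∀ i ∈ t, Small g (p i)) : Small g (∑ i ∈ t, p i) := by
  classical
  induction t using Finset.induction_on with
  | empty => rw [Finset.sum_empty]; exact Small.zero g
  | insert i t hi ih =>
    rw [Finset.sum_insert hi]
    have h0 : p i * (∑ j ∈ t, p j) = 0 := by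
      rw [Finset.mul_sum]
      apply Finset.sum_eq_zero
      intro j hj
      exact ho i j (fun h => hi (h ▸ hj))
    have hS := Main3.sum_pj t p hp ho
    exact Small.add hA hg hH (hp i) hS hS h0 (sub_refl hS) (hs i (Finset.mem_insert_self i t))
      (ih (fun j hj => hs j (Finset.mem_insert_of_mem hj)))

end Pool.Agent.K1H31.AW
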