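import Pool.Agent.K1H31.AW.MainL
import Pool.Agent.R456.CL.W2

/-!
# AW*-algebras: there is no infinite chain of reducing projections
-/

set_option autoImplicit false

namespace Pool.Agent.K1H31.AW

open Pool.Agent.R456.CL

universe u

variable {A : Type u} [CStarAlgebra A]

/-- `g` is filled by an infinite orthogonal family of copies of `g'` -/
def Fam (g g' : A) (ι : Type u) (q : ι → A) (E : A) : Prop := Infinite ι ∧ (∀ i, PJ (q i)) ∧
  (∀ i j, i ≠ j → q i * q j = 0) ∧ (∀ i, Le (q i) g) ∧ (∀ i, Eqv g' (q i)) ∧ IsSup q E ∧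
  Sub (g - E) g'

theorem wfam (hA : Good A) {g g' : A} (hg : PJ g) (hg' : PJ g') (hle : Le g' g) (hH : Halv g')
    (hg0 : g' ≠ 0) : ∃ z : A, Cen z ∧ z * g' ≠ 0 ∧ ∃ (ι : Type u) (q : ι → A) (E : A),
      Fam (z * g) (z * g') ι q E := by
  classical
  obtain ⟨c, hc1, hc2, hc3, hc4⟩ := copies hg' hH
  have hc0 : ∀ n, c n ≠ 0 := by
    intro n h0
    have := hc4 n
    rw [h0] at this
    exact hg0 (eqv_zero this)
  -- Zorn
  let C : Set (Set A) := {S | (∀ p ∈ S, PJ p ∧ Le p g ∧ Eqv g' p) ∧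
    ∀ p ∈ S, ∀ q ∈ S, p ≠ q → p * q = 0}
  have hC0 : Set.range c ∈ C := by
    refine ⟨?_, ?_⟩
    · rintro _ ⟨n, rfl⟩
      exact ⟨hc1 n, le_trans' (hc3 n) hle, hc4 n⟩
    · rintro _ ⟨n, rfl⟩ _ ⟨m, rfl⟩ hnm
      exact hc2 n m (fun h => hnm (by rw [h]))
  obtain ⟨S, hsub, hS⟩ : ∃ S, Set.range c ⊆ S ∧ Maximal (· ∈ C) S := by
    refine zorn_subset_nonempty C ?_ _ hC0
    intro c hc hchain _
    refine ⟨⋃₀ c, ⟨?_, ?_⟩, fun s hs => Set.subset_sUnion_of_mem hs⟩
    · rintro p ⟨s, hs, hps⟩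
      exact (hc hs).1 p hps
    · rintro p ⟨s, hs, hps⟩ q ⟨t, ht, hqt⟩ hpq
      rcases hchain.total hs ht with h | h
      · exact (hc ht).2 p (h hps) q hqt hpq
      · exact (hc hs).2 p hps q (h hqt) hpq
  have hSC : S ∈ C := hS.1
  have hq : ∀ i : S, PJ (i : A) := fun i => (hSC.1 i i.2).1
  have ho : ∀ i j : S, i ≠ j → (i : A) * (j : A) = 0 := fun i j hij =>
    hSC.2 i i.2 j j.2 (fun h => hij (Subtype.ext h))
  have hinf : Infinite S := by
    apply Infinite.of_injective (fun n : ℕ => (⟨c n, hsub ⟨n, rfl⟩⟩ : S))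
    intro m n hmn
    by_contra hne
    have h1 : c m = c n := congrArg Subtype.val hmn
    have h2 := hc2 m n hne
    rw [← h1, PJ.mul_self (hc1 m)] at h2
    exact hc0 m h2
  obtain ⟨E, hE⟩ := hA.sup S (fun i => (i : A)) hq
  have hEg : E * g = E := Inf2.sup_le hq hE hg (fun i => (hSC.1 i i.2).2.1)
  have hgE : g * E = E := Le.rev hE.1 hg hEg
  have hr : PJ (g - E) := pj_sub hE.1 hg hEg
  have hEi : ∀ i : S, E * (i : A) = i := fun i => Le.rev (hq i) hE.1 (hE.2.1 i)
  have hns : ¬ Sub g' (g - E) := by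
    rintro ⟨v, hv, hv'⟩
    have hp : PJ (v * star v) := pi_final hg' hv
    have hpg : Le (v * star v) g := by
      have : v * star v * g = v * star v * (g - E) * g := by rw [hv']
      unfold Le
      rw [this, mul_assoc, sub_mul, PJ.mul_self hg, hEg, hv']
    have hpi : ∀ i : S, v * star v * (i : A) = 0 := by
      intro i
      have : v * star v * (i : A) = v * star v * (g - E) * (i : A) := by rw [hv']
      rw [this, mul_assoc, sub_mul, Le.rev (hq i) hg (hSC.1 i i.2).2.1, hEi, sub_self, mul_zero]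
    have hins : insert (v * star v) S ∈ C := by
      refine ⟨?_, ?_⟩
      · rintro p (rfl | hp')
        · exact ⟨hp, hpg, ⟨v, hv, rfl⟩⟩
        · exact hSC.1 p hp'
      · rintro p (rfl | hp') q (rfl | hq') hpq
        · exact absurd rfl hpq
        · exact hpi ⟨q, hq'⟩
        · exact orth_comm hp (hSC.1 p hp').1 (hpi ⟨p, hp'⟩)
        · exact hSC.2 p hp' q hq' hpq
    have hmem : v * star v ∈ S := hS.2 hins (Set.subset_insert _ _) (Set.mem_insert _ _)
    have h0 : v * star v = 0 := by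
      have := hpi ⟨_, hmem⟩
      rw [← PJ.mul_self hp]; exact this
    exact hg0 (eqv_zero ⟨v, hv, h0⟩)
  obtain ⟨z, hz, hz1, hz2⟩ := GC hA hg' hr
  have hz' := hz.compl
  refine ⟨1 - z, hz', ?_, S, fun i => (1 - z) * (i : A), (1 - z) * E, hinf,
    fun i => hz'.pj (hq i), ?_, fun i => hz'.le (hSC.1 i i.2).2.1,
    fun i => hz'.eqv (hSC.1 i i.2).2.2, hz'.isSup hE, ?_⟩
  · intro h0
    apply hns
    have e1 : z * g' = g' := by
      have := Cen.compl_split (z := z) g'
      rwa [h0, add_zero] at this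
    rw [e1] at hz1
    exact sub_trans' hg' (hz.pj hr) hr hz1 (sub_of_le (hz.pj hr) (hz.le_self hr))
  · intro i j hij
    rw [hz'.mul_mul, ho i j hij, mul_zero]
  · rw [← mul_sub]; exact hz2

open W2 in
/-- step (1): `g` is below the sup of the infinite family -/
theorem sub_sup' (hA : Good A) {Z : A} (hZ : PJ Z) (hHZ : Halv Z) {g g' : A} (hgZ : Le g Z) {ι : Type u} {q : ι → A} {E : A}
    (hg : PJ g) (hg' : PJ g') (hι : Infinite ι) (hq : ∀ i, PJ (q i))
    (hqq : ∀ i j, i ≠ j → q i * q j = 0) (hqg : ∀ i, Le (q i) g) (hqe : ∀ i, Eqv g' (q i))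
    (hE : IsSup q E) (hs : Sub (g - E) g') : Sub g E := by
  have hEg : E * g = E := sup_le hq hE hg hqg
  have hgE : g * E = E := le_swap hE.1 hg hEg
  have hpj : PJ (g - E) := by
    apply pj_mk
    · calc (g - E) * (g - E) = g * g - g * E - E * g + E * E := by noncomm_ring
        _ = g - E := by rw [pj_mul hg, hgE, hEg, pj_mul hE.1]; abel
    · rw [star_sub, pj_star hg, pj_star hE.1]
  have hEq : ∀ i, E * q i = q i := fun i => le_swap (hq i) hE.1 (hE.2.1 i)
  have hgq : ∀ i, g * q i = q i := fun i => le_swap (hq i) hg (hqg i)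
  obtain ⟨φ⟩ : Nonempty (Option ι ≃ ι) := by
    rw [← Cardinal.eq, Cardinal.mk_option]
    exact Cardinal.add_one_eq (Cardinal.aleph0_le_mk ι)
  let e : Option ι → A := fun o => o.elim (g - E) q
  have he : ∀ o, PJ (e o) := by
    intro o
    cases o with
    | none => exact hpj
    | some i => exact hq i
  have hee : ∀ o o', o ≠ o' → e o * e o' = 0 := by
    intro o o' ho
    cases o with
    | none =>
      cases o' with
      | none => exact absurd rfl ho
      | some j =>
        show (g - E) * q j = 0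
        rw [sub_mul, hgq, hEq, sub_self]
    | some i =>
      cases o' with
      | none =>
        show q i * (g - E) = 0
        rw [mul_sub, show q i * g = q i from hqg i, hE.2.1 i, sub_self]
      | some j => exact hqq i j (fun h => ho (by rw [h]))
  have hsup : IsSup e g := by
    refine ⟨hg, ?_, ?_⟩
    · intro o
      cases o with
      | none =>
        show (g - E) * g = g - E
        rw [sub_mul, pj_mul hg, hEg]
      | some i => exact hqg i
    · intro x hx
      have h1 : x * (g - E) = 0 := hx none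
      have h2 : x * E = 0 := hE.2.2 x (fun i => hx (some i))
      rw [mul_sub, h2, sub_zero] at h1
      exact h1
  refine add_fam hA hZ hHZ he hee (f := fun o => q (φ o)) (fun o => hq _)
    (fun o o' ho => hqq _ _ (fun h => ho (φ.injective h))) ?_ hsup hE.1 (le_trans' hEg hgZ)
    (fun o => hE.2.1 _) ?_
  · intro o
    cases o with
    | none =>
      show (g - E) * Z = g - E
      rw [sub_mul, hgZ, show E * Z = E from le_trans' hEg hgZ]
    | some i => exact le_trans' (hqg i) hgZ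
  intro o
  cases o with
  | none => exact sub_trans hpj hg' hs (R456.CL.sub_of_eqv (hq _) (hqe _))
  | some i =>
    exact sub_trans (hq i) hg' (R456.CL.sub_of_eqv hg' (R456.CL.eqv_symm (hqe i))) (R456.CL.sub_of_eqv (hq _) (hqe _))


open W2 in
theorem w2' (hA : Good A) {Z : A} (hZ : PJ Z) (hHZ : Halv Z) {g g' g'' : A} {ι κ : Type u}
    {q : ι → A} {E : A} {q' : κ → A} {E' : A} (hg : PJ g) (hg' : PJ g') (hg'' : PJ g'')
    (hgZ : Le g Z) (hg'Z : Le g' Z) (h1 : Fam g g' ι q E) (h2 : Fam g' g'' κ q' E')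
    (hcard : Cardinal.mk ι ≤ Cardinal.mk κ) : Sub g g' := by
  obtain ⟨hι, hq, hqq, hqg, hqe, hE, hs⟩ := h1
  obtain ⟨hκ, hq', hqq', hqg', hqe', hE', hs'⟩ := h2
  have h1 : Sub g E := sub_sup' hA hZ hHZ hgZ hg hg' hι hq hqq hqg hqe hE hs
  have h2 : Sub g' E' := sub_sup' hA hZ hHZ hg'Z hg' hg'' hκ hq' hqq' hqg' hqe' hE' hs'
  obtain ⟨φ⟩ : Nonempty (ι × κ ≃ κ) := by
    rw [← Cardinal.eq, Cardinal.mk_prod, Cardinal.lift_id, Cardinal.lift_id]
    exact Cardinal.mul_eq_right (Cardinal.aleph0_le_mk κ) hcard (Cardinal.mk_ne_zero ι)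
  have hC : ∀ i : ι, ∃ C : A, IsSup (fun k => q' (φ (i, k))) C := fun i =>
    hA.sup κ _ (fun k => hq' _)
  choose C hC using hC
  have hCpj : ∀ i, PJ (C i) := fun i => (hC i).1
  have horth : ∀ i j, i ≠ j → C i * C j = 0 := by
    intro i j hij
    apply (hC j).2.2
    intro l
    have h3 : q' (φ (j, l)) * C i = 0 := by
      apply (hC i).2.2
      intro k
      apply hqq'
      intro h
      have := φ.injective h
      exact hij (congrArg Prod.fst this).symm
    have h4 := congrArg star h3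
    rw [star_mul, pj_star (hCpj i), pj_star (hq' _), star_zero] at h4
    exact h4
  have hle : ∀ i, Le (C i) g' := fun i => sup_le (fun k => hq' _) (hC i) hg' (fun k => hqg' _)
  have h3 : ∀ i, Sub E' (C i) := by
    intro i
    refine add_fam hA hZ hHZ hq' hqq' (f := fun k => q' (φ (i, k))) (fun k => hq' _)
      (fun k l hkl => hqq' _ _ (fun h => hkl (congrArg Prod.snd (φ.injective h))))
      (fun k => le_trans' (hqg' k) hg'Z) hE' (hCpj i) (le_trans' (hle i) hg'Z)
      (fun k => (hC i).2.1 k) ?_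
    intro k
    exact sub_trans (hq' k) hg'' (R456.CL.sub_of_eqv hg'' (R456.CL.eqv_symm (hqe' k)))
      (R456.CL.sub_of_eqv (hq' _) (hqe' _))
  have h4 : ∀ i, Sub (q i) (C i) := fun i =>
    sub_trans (hq i) hg' (R456.CL.sub_of_eqv hg' (R456.CL.eqv_symm (hqe i)))
      (sub_trans hg' hE'.1 h2 (h3 i))
  have h5 : Sub E g' := add_fam hA hZ hHZ hq hqq hCpj horth (fun i => le_trans' (hqg i) hgZ) hE hg' hg'Z hle h4
  exact sub_trans hg hE.1 h1 h5


theorem no_chain (hA : Good A) {Z : A} (hZ : PJ Z) (hHZ : Halv Z) (q z : ℕ → A)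
    (hq : ∀ n, PJ (q n)) (hqZ : ∀ n, Le (q n) Z) (hq0 : ∀ n, q n ≠ 0) (hz : ∀ n, Cen (z n))
    (hle : ∀ n, Le (q (n + 1)) (z n * q n)) (hsm : ∀ n, Small (z n * q n) (q (n + 1)))
    (hfam : ∀ n, ∃ (ι : Type u) (p : ι → A) (E : A), Fam (z n * q n) (q (n + 1)) ι p E) :
    False := by
  choose ι p E hF using hfam
  have hlt : ∀ n, Cardinal.mk (ι (n + 1)) < Cardinal.mk (ι n) := by
    intro n
    by_contra hcard
    push Not at hcard
    obtain ⟨a1, a2, a3, a4, a5, a6, a7⟩ := hF n
    have hy := hz (n + 1)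
    have hPn : PJ (z n * q n) := (hz n).pj (hq n)
    have hs : Sub (z (n + 1) * (z n * q n)) (z (n + 1) * q (n + 1)) := by
      refine w2' hA hZ hHZ (hy.pj hPn) (hy.pj (hq _)) (hq (n + 2))
        (le_trans' (hy.le_self hPn) (le_trans' ((hz n).le_self (hq n)) (hqZ n)))
        (le_trans' (hy.le_self (hq _)) (hqZ _)) (q := fun i => z (n + 1) * p n i)
        (E := z (n + 1) * E n) ⟨a1, fun i => hy.pj (a2 i), ?_, fun i => hy.le (a4 i),
          fun i => hy.eqv (a5 i), hy.isSup a6, ?_⟩ (hF (n + 1)) hcard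
      · intro i j hij
        rw [hy.mul_mul, a3 i j hij, mul_zero]
      · rw [← mul_sub]; exact hy.sub a7
    have h0 := hsm n _ hy hs
    have h1 : z (n + 1) * q (n + 1) = 0 := by
      have h2 : Le (z (n + 1) * q (n + 1)) (z (n + 1) * (z n * q n)) := hy.le (hle n)
      rw [← show z (n + 1) * q (n + 1) * (z (n + 1) * (z n * q n)) = z (n + 1) * q (n + 1) from h2,
        h0, mul_zero]
    have h3 : Le (q (n + 2)) (z (n + 1) * q (n + 1)) := hle (n + 1)
    apply hq0 (n + 2)
    rw [← show q (n + 2) * (z (n + 1) * q (n + 1)) = q (n + 2) from h3, h1, mul_zero]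
  exact not_strictAnti_of_wellFoundedLT (fun n => Cardinal.mk (ι n)) (strictAnti_nat_of_succ_lt hlt)

end Pool.Agent.K1H31.AW
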